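import Pool.Agent.Y818.IC.Stm

/-!
# Special points of the powers of the modular curve: from product functions to all functions

Written by helper30 (project IC of helper818).
-/

set_option autoImplicit false

open MeasureTheory UpperHalfPlane Filter

namespace Pool.Agent.Y818.IC

/-- The orbit is finite. -/
theorem fun_orb_finite (hCM : CMTheory) {n : ℕ} (U : Subgroup AutC) (D : Fin n → ℤ)
    (v : Fin n → ℂ) (h : ∀ l, D l < 0 ∧ v l ∈ sing (D l)) : (orb U v).Finite := by
  refine (Set.Finite.pi' (fun l => (hCM (D l) (h l).1).1)).subset ?_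
  rintro w ⟨σ, _, rfl⟩
  intro l
  exact (hCM (D l) (h l).1).2.1 σ (v l) (h l).2

/-- The mean value as a finite sum. -/
theorem fun_avg_eq {X : Type*} (T : Finset X) (f : X → ℝ) :
    avg (T : Set X) f = (∑ x ∈ T, f x) / (T.card : ℝ) := by
  unfold avg
  rw [finsum_mem_coe_finset, Set.ncard_coe_finset]

theorem fun_avg_sum {X : Type*} (T : Finset X) {m : ℕ} (a : Fin m → ℝ) (g : Fin m → X → ℝ) :
    avg (T : Set X) (fun x => ∑ i, a i * g i x) = ∑ i, a i * avg (T : Set X) (g i) := by
  simp only [fun_avg_eq]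
  rw [Finset.sum_comm, Finset.sum_div]
  refine Finset.sum_congr rfl fun i _ => ?_
  rw [← Finset.mul_sum, mul_div_assoc]

theorem fun_avg_close {X : Type*} (T : Finset X) (f g : X → ℝ) (e : ℝ) (he : 0 ≤ e)
    (h : ∀ x, |f x - g x| ≤ e) : |avg (T : Set X) f - avg (T : Set X) g| ≤ e := by
  simp only [fun_avg_eq]
  rw [← sub_div, ← Finset.sum_sub_distrib, abs_div, Nat.abs_cast]
  rcases T.eq_empty_or_nonempty with rfl | hT
  · simpa using he
  have hc : (0 : ℝ) < T.card := by exact_mod_cast hT.card_pos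
  rw [div_le_iff₀ hc]
  calc |∑ x ∈ T, (f x - g x)| ≤ ∑ x ∈ T, |f x - g x| := Finset.abs_sum_le_sum_abs _ _
    _ ≤ ∑ _x ∈ T, e := Finset.sum_le_sum fun x _ => h x
    _ = e * T.card := by rw [Finset.sum_const, nsmul_eq_mul]; ring

theorem FUN : S_FUN := by
  intro hCM hSW hfin η hP n F hF f hf hfc ε hε
  haveI := hfin
  set P : Measure (Fin n → ℂ) := Measure.pi fun _ : Fin n => mu with hPdef
  set M : ℝ := P.real Set.univ with hM
  have hM0 : 0 ≤ M := measureReal_nonneg
  set e : ℝ := ε / (4 * (1 + M)) with he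
  have he0 : 0 < e := by positivity
  obtain ⟨m, a, g, hg, hap⟩ := hSW n f hf hfc e he0
  set s : ℝ := ∑ i, |a i| with hs
  have hs0 : 0 ≤ s := Finset.sum_nonneg fun i _ => abs_nonneg _
  set e' : ℝ := ε / (4 * (1 + s)) with he'
  have he'0 : 0 < e' := by positivity
  choose B hB using fun i => hP n F hF (g i) (hg i) e' he'0
  refine ⟨∑ i, |B i|, ?_⟩
  intro D v hDv hord hBD
  have hSfin := fun_orb_finite hCM F.fixingSubgroup D v hDv
  obtain ⟨T, hT⟩ : ∃ T : Finset (Fin n → ℂ), (T : Set (Fin n → ℂ)) = orb F.fixingSubgroup v :=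
    ⟨hSfin.toFinset, by simp⟩
  rw [← hT]
  have h1 : |avg (T : Set (Fin n → ℂ)) f
      - avg (T : Set (Fin n → ℂ)) (fun w => ∑ i, a i * ∏ k, g i k (w k))| ≤ e :=
    fun_avg_close T _ _ e he0.le hap
  have h2 : |avg (T : Set (Fin n → ℂ)) (fun w => ∑ i, a i * ∏ k, g i k (w k))
      - ∑ i, a i * ∏ k, ∫ x, g i k x ∂mu| ≤ s * e' := by
    rw [fun_avg_sum, ← Finset.sum_sub_distrib, hs, Finset.sum_mul]
    refine (Finset.abs_sum_le_sum_abs _ _).trans (Finset.sum_le_sum fun i _ => ?_)
    rw [← mul_sub, abs_mul]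
    refine mul_le_mul_of_nonneg_left ?_ (abs_nonneg _)
    rw [hT]
    refine hB i D v hDv hord fun l => ?_
    refine le_trans ?_ (hBD l)
    exact (le_abs_self _).trans
      (Finset.single_le_sum (f := fun i => |B i|) (fun i _ => abs_nonneg _) (Finset.mem_univ i))
  have hint : ∀ i, Integrable (fun w : Fin n → ℂ => ∏ k, g i k (w k)) P := by
    intro i
    exact Integrable.fintype_prod_dep
      (fun k => (hg i k).1.integrable_of_hasCompactSupport (hg i k).2)
  have hintf : Integrable f P := hf.integrable_of_hasCompactSupport hfc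
  have h3 : ∫ w, (∑ i, a i * ∏ k, g i k (w k)) ∂P = ∑ i, a i * ∏ k, ∫ x, g i k x ∂mu := by
    rw [integral_finset_sum _ fun i _ => (hint i).const_mul (a i)]
    refine Finset.sum_congr rfl fun i _ => ?_
    rw [integral_const_mul, hPdef, integral_fintype_prod_eq_prod]
  have h4 : |∫ w, f w ∂P - ∫ w, (∑ i, a i * ∏ k, g i k (w k)) ∂P| ≤ e * M := by
    rw [← integral_sub hintf (integrable_finset_sum _ fun i _ => (hint i).const_mul (a i)),
      ← Real.norm_eq_abs]
    exact norm_integral_le_of_norm_le_const (Eventually.of_forall fun w => by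
      rw [Real.norm_eq_abs]; exact hap w)
  rw [h3] at h4
  have h5 : e + s * e' + e * M ≤ ε := by
    have hA : e * (1 + M) = ε / 4 := by
      rw [he]; field_simp
    have hB' : e' * (1 + s) = ε / 4 := by
      rw [he']; field_simp
    nlinarith
  calc |avg (T : Set (Fin n → ℂ)) f - ∫ w, f w ∂P|
      ≤ |avg (T : Set (Fin n → ℂ)) f
          - avg (T : Set (Fin n → ℂ)) (fun w => ∑ i, a i * ∏ k, g i k (w k))|
        + |avg (T : Set (Fin n → ℂ)) (fun w => ∑ i, a i * ∏ k, g i k (w k))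
          - ∑ i, a i * ∏ k, ∫ x, g i k x ∂mu|
        + |∫ w, f w ∂P - ∑ i, a i * ∏ k, ∫ x, g i k x ∂mu| := by
        rw [abs_sub_comm (∫ w, f w ∂P)]
        have := abs_add_three
          (avg (T : Set (Fin n → ℂ)) f
            - avg (T : Set (Fin n → ℂ)) (fun w => ∑ i, a i * ∏ k, g i k (w k)))
          (avg (T : Set (Fin n → ℂ)) (fun w => ∑ i, a i * ∏ k, g i k (w k))
            - ∑ i, a i * ∏ k, ∫ x, g i k x ∂mu)
          (∑ i, a i * ∏ k, ∫ x, g i k x ∂mu - ∫ w, f w ∂P)
        refine le_trans (le_of_eq ?_) this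
        congr 1
        ring
    _ ≤ e + s * e' + e * M := by gcongr
    _ ≤ ε := h5

end Pool.Agent.Y818.IC
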