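import Pool.Agent.Y818.IC.Stm2
import Pool.Agent.Y818.IC.FUN

/-!
# Almost all special points: the assembly

Written by helper515 (project IC of helper818).
-/

set_option autoImplicit false

open MeasureTheory UpperHalfPlane Filter

namespace Pool.Agent.Y818.IC

theorem aaj_prod {ι : Type*} [DecidableEq ι] (s : Finset ι) (x y : ι → ℝ) {K d : ℝ} (hK : 1 ≤ K)
    (hd : 0 ≤ d) (hx : ∀ i ∈ s, |x i| ≤ K) (hy : ∀ i ∈ s, |y i| ≤ K)
    (hxy : ∀ i ∈ s, |x i - y i| ≤ d) :
    |∏ i ∈ s, x i - ∏ i ∈ s, y i| ≤ s.card * K ^ s.card * d := by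
  induction s using Finset.induction_on with
  | empty => simp
  | insert j s hj ih =>
    have ih' := ih (fun i hi => hx i (Finset.mem_insert_of_mem hi))
      (fun i hi => hy i (Finset.mem_insert_of_mem hi))
      (fun i hi => hxy i (Finset.mem_insert_of_mem hi))
    have h1 := hx j (Finset.mem_insert_self _ _)
    have h2 := hxy j (Finset.mem_insert_self _ _)
    have h3 : |∏ i ∈ s, y i| ≤ K ^ s.card := by
      rw [Finset.abs_prod, ← Finset.prod_const]
      exact Finset.prod_le_prod (fun i _ => abs_nonneg _)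
        (fun i hi => hy i (Finset.mem_insert_of_mem hi))
    rw [Finset.prod_insert hj, Finset.prod_insert hj, Finset.card_insert_of_notMem hj]
    have e1 : x j * ∏ i ∈ s, x i - y j * ∏ i ∈ s, y i =
        x j * (∏ i ∈ s, x i - ∏ i ∈ s, y i) + (x j - y j) * ∏ i ∈ s, y i := by ring
    rw [e1]
    refine (abs_add_le _ _).trans ?_
    rw [abs_mul, abs_mul]
    have hK0 : 0 ≤ K := zero_le_one.trans hK
    have h4 : |x j| * |∏ i ∈ s, x i - ∏ i ∈ s, y i| ≤ K * (s.card * K ^ s.card * d) :=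
      mul_le_mul h1 ih' (abs_nonneg _) hK0
    have h5 : |x j - y j| * |∏ i ∈ s, y i| ≤ d * K ^ s.card :=
      mul_le_mul h2 h3 (abs_nonneg _) hd
    have h6 : d * K ^ s.card ≤ d * K ^ (s.card + 1) :=
      mul_le_mul_of_nonneg_left (pow_le_pow_right₀ hK (Nat.le_succ _)) hd
    push_cast
    calc _ ≤ K * (s.card * K ^ s.card * d) + d * K ^ (s.card + 1) :=
          add_le_add h4 (h5.trans h6)
      _ = _ := by rw [pow_succ]; ring

theorem aaj_avg_le {X : Type*} (T : Finset X) (f : X → ℝ) {K : ℝ} (hK : 0 ≤ K)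
    (h : ∀ x, |f x| ≤ K) : |avg (T : Set X) f| ≤ K := by
  have h1 := fun_avg_close T f (fun _ => 0) K hK (fun x => by simpa using h x)
  have h2 : avg (T : Set X) (fun _ => (0 : ℝ)) = 0 := by
    rw [fun_avg_eq]
    simp
  rwa [h2, sub_zero] at h1

/-- Chebyshev's inequality. -/
theorem aaj_cheb {X : Type*} (E T : Finset X) (hET : E ⊆ T) {m : ℕ} (a : Fin m → ℝ)
    (x : Fin m → X → ℝ) {c W : ℝ} (hc : 0 < c) (hW : ∀ i, ∑ v ∈ T, x i v ^ 2 ≤ W)
    (hE : ∀ v ∈ E, c ≤ ∑ i, |a i| * |x i v|) :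
    (E.card : ℝ) ≤ (∑ i, a i ^ 2) * (m * W) / c ^ 2 := by
  rw [le_div_iff₀ (by positivity)]
  have h1 : ∀ v ∈ E, c ^ 2 ≤ (∑ i, a i ^ 2) * ∑ i, x i v ^ 2 := by
    intro v hv
    have h2 := Finset.sum_mul_sq_le_sq_mul_sq Finset.univ (fun i => |a i|) (fun i => |x i v|)
    simp only [sq_abs] at h2
    exact (pow_le_pow_left₀ hc.le (hE v hv) 2).trans h2
  calc (E.card : ℝ) * c ^ 2 = ∑ _v ∈ E, c ^ 2 := by rw [Finset.sum_const, nsmul_eq_mul]
    _ ≤ ∑ v ∈ E, (∑ i, a i ^ 2) * ∑ i, x i v ^ 2 := Finset.sum_le_sum h1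
    _ ≤ ∑ v ∈ T, (∑ i, a i ^ 2) * ∑ i, x i v ^ 2 := by
        refine Finset.sum_le_sum_of_subset_of_nonneg hET (fun v _ _ => ?_)
        positivity
    _ = (∑ i, a i ^ 2) * ∑ i, ∑ v ∈ T, x i v ^ 2 := by
        rw [← Finset.mul_sum, Finset.sum_comm]
    _ ≤ (∑ i, a i ^ 2) * ∑ _i : Fin m, W := by
        refine mul_le_mul_of_nonneg_left (Finset.sum_le_sum (fun i _ => hW i)) ?_
        positivity
    _ = _ := by rw [Finset.sum_const, Finset.card_univ, Fintype.card_fin, nsmul_eq_mul]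

theorem aaj : S_AAJ := by
  intro hCM hAUT hVAR hSWS hfin δ hδ hTD n F hF f hf hfc ε hε
  classical
  have hU : F.fixingSubgroup.index ≠ 0 := hAUT.2.2.2 F hF
  set U := F.fixingSubgroup with hUdef
  set P : Measure (Fin n → ℂ) := Measure.pi fun _ : Fin n => mu with hPdef
  set M : ℝ := P.real Set.univ with hM
  have hM0 : 0 ≤ M := measureReal_nonneg
  set e : ℝ := ε / (4 * (1 + M)) with he
  have he0 : 0 < e := by positivity
  obtain ⟨m, a, g, hg, hap⟩ := hSWS n f hf hfc e he0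
  set s : ℝ := ∑ i, |a i| with hs
  have hs0 : 0 ≤ s := Finset.sum_nonneg fun i _ => abs_nonneg _
  -- constants
  choose Cc hCc using fun i k => hTD (g i k) (hg i k).1 (hg i k).2
  set C1 : ℝ := ∑ i, ∑ k, |Cc i k| with hC1
  have hC10 : 0 ≤ C1 := Finset.sum_nonneg fun i _ => Finset.sum_nonneg fun k _ => abs_nonneg _
  have hCcle : ∀ i k, Cc i k ≤ C1 := by
    intro i k
    refine (le_abs_self _).trans ?_
    refine (Finset.single_le_sum (f := fun k => |Cc i k|) (fun k _ => abs_nonneg _)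
      (Finset.mem_univ k)).trans ?_
    exact Finset.single_le_sum (f := fun i => ∑ k, |Cc i k|)
      (fun i _ => Finset.sum_nonneg fun k _ => abs_nonneg _) (Finset.mem_univ i)
  choose Kc hKc using fun i k => (hg i k).1.continuous.bounded_above_of_compact_support (hg i k).2
  set K0 : ℝ := 1 + ∑ i, ∑ k, |Kc i k| with hK0def
  have hK01 : 1 ≤ K0 := by
    have : 0 ≤ ∑ i, ∑ k, |Kc i k| :=
      Finset.sum_nonneg fun i _ => Finset.sum_nonneg fun k _ => abs_nonneg _
    linarith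
  have hK0 : ∀ i k x, |g i k x| ≤ K0 := by
    intro i k x
    have h1 := hKc i k x
    rw [Real.norm_eq_abs] at h1
    have h2 : Kc i k ≤ ∑ i, ∑ k, |Kc i k| := by
      refine (le_abs_self _).trans ?_
      refine (Finset.single_le_sum (f := fun k => |Kc i k|) (fun k _ => abs_nonneg _)
        (Finset.mem_univ k)).trans ?_
      exact Finset.single_le_sum (f := fun i => ∑ k, |Kc i k|)
        (fun i _ => Finset.sum_nonneg fun k _ => abs_nonneg _) (Finset.mem_univ i)
    linarith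
  set m1 : ℝ := mu.real Set.univ with hm1
  have hm10 : 0 ≤ m1 := measureReal_nonneg
  set K : ℝ := K0 * (1 + m1) with hKdef
  have hK1 : 1 ≤ K := by nlinarith
  have hK0K : K0 ≤ K := by nlinarith
  have hint1 : ∀ i k, |∫ x, g i k x ∂mu| ≤ K := by
    intro i k
    have h1 : ‖∫ x, g i k x ∂mu‖ ≤ K0 * mu.real Set.univ :=
      norm_integral_le_of_norm_le_const (Eventually.of_forall fun x => by
        rw [Real.norm_eq_abs]; exact hK0 i k x)
    rw [Real.norm_eq_abs] at h1
    have h2 : K0 * mu.real Set.univ ≤ K := by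
      rw [hKdef]
      nlinarith
    exact h1.trans h2
  set V : ℝ := (n : ℝ) ^ 2 * ((U.index.factorial : ℝ) * 2 ^ n) * K0 ^ (2 * n) with hV
  have hV0 : 0 ≤ V := by positivity
  set C2 : ℝ := n * K ^ n with hC2
  have hC20 : 0 ≤ C2 := by positivity
  have hint : ∀ i, Integrable (fun w : Fin n → ℂ => ∏ k, g i k (w k)) P := by
    intro i
    exact Integrable.fintype_prod_dep
      (fun k => (hg i k).1.continuous.integrable_of_hasCompactSupport (hg i k).2)
  have hintf : Integrable f P := hf.integrable_of_hasCompactSupport hfc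
  have h3 : ∫ w, (∑ i, a i * ∏ k, g i k (w k)) ∂P = ∑ i, a i * ∏ k, ∫ x, g i k x ∂mu := by
    rw [integral_finsetSum _ fun i _ => (hint i).const_mul (a i)]
    refine Finset.sum_congr rfl fun i _ => ?_
    rw [integral_const_mul, hPdef, integral_fintype_prod_eq_prod]
  have h4 : |∫ w, f w ∂P - ∫ w, (∑ i, a i * ∏ k, g i k (w k)) ∂P| ≤ e * M := by
    rw [← integral_sub hintf (integrable_finsetSum _ fun i _ => (hint i).const_mul (a i)),
      ← Real.norm_eq_abs]
    exact norm_integral_le_of_norm_le_const (Eventually.of_forall fun w => by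
      rw [Real.norm_eq_abs]; exact hap w)
  rw [h3] at h4
  set C3 : ℝ := (∑ i, a i ^ 2) * (m * (V * C1 ^ 2)) / (ε / 2) ^ 2 with hC3
  have hC30 : 0 ≤ C3 := by positivity
  set C4 : ℝ := (s * C2 * C1 / (ε / 4)) ^ 2 with hC4
  refine ⟨C3 + C4, ?_⟩
  intro D b hb hD
  have hbδ : 0 < b ^ (-δ) := Real.rpow_pos_of_pos hb _
  have hb2 : b ^ (-(2 * δ)) = (b ^ (-δ)) ^ 2 := by
    rw [← Real.rpow_natCast, ← Real.rpow_mul hb.le]
    congr 1
    push_cast
    ring
  rw [hb2]
  set H : ℝ := ∏ l, ((sing (D l)).ncard : ℝ) with hH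
  have hH0 : 0 ≤ H := Finset.prod_nonneg fun l _ => Nat.cast_nonneg _
  by_cases hne : ∀ l, (sing (D l)).Nonempty
  swap
  · push Not at hne
    obtain ⟨l, hl⟩ := hne
    have hemp : {v | v ∈ pts D ∧ ε < |avg (orb U v) f - ∫ w, f w ∂P|} = ∅ := by
      rw [Set.eq_empty_iff_forall_notMem]
      rintro v ⟨hv, -⟩
      have h5 := hv l
      rw [hl] at h5
      exact h5
    rw [hemp, Set.ncard_empty, Nat.cast_zero]
    positivity
  -- finite sets
  have hfinS : ∀ l, (sing (D l)).Finite := fun l => (hCM (D l) (hD l).1).1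
  set T : Fin n → Finset ℂ := fun l => (hfinS l).toFinset with hT
  have hTc : ∀ l, (T l : Set ℂ) = sing (D l) := fun l => by simp [hT]
  set TP : Finset (Fin n → ℂ) := Fintype.piFinset T with hTP
  have hTPc : (TP : Set (Fin n → ℂ)) = pts D := by
    ext v
    rw [Finset.mem_coe, hTP, Fintype.mem_piFinset]
    simp only [hT, Set.Finite.mem_toFinset]
    rfl
  have hTPcard : (TP.card : ℝ) = H := by
    rw [hTP, Fintype.card_piFinset, hH]
    push_cast
    refine Finset.prod_congr rfl fun l _ => ?_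
    rw [← hTc l, Set.ncard_coe_finset]
  set E : Finset (Fin n → ℂ) :=
    TP.filter (fun v => ε < |avg (orb U v) f - ∫ w, f w ∂P|) with hE
  have hEc : {v | v ∈ pts D ∧ ε < |avg (orb U v) f - ∫ w, f w ∂P|} = (E : Set (Fin n → ℂ)) := by
    ext v
    rw [hE, Finset.coe_filter, Set.mem_ofPred_eq, Set.mem_ofPred_eq, ← hTPc, Finset.mem_coe]
  rw [hEc, Set.ncard_coe_finset]
  have hEH : (E.card : ℝ) ≤ H := by
    rw [← hTPcard]
    exact_mod_cast Finset.card_filter_le _ _
  set d : ℝ := C1 * b ^ (-δ) with hd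
  have hd0 : 0 ≤ d := by positivity
  have hdl : ∀ i k l, Cc i k * |(D l : ℝ)| ^ (-δ) ≤ d := by
    intro i k l
    have h5 : |(D l : ℝ)| ^ (-δ) ≤ b ^ (-δ) :=
      Real.rpow_le_rpow_of_nonpos hb (hD l).2 (by linarith)
    calc Cc i k * |(D l : ℝ)| ^ (-δ) ≤ C1 * |(D l : ℝ)| ^ (-δ) :=
          mul_le_mul_of_nonneg_right (hCcle i k) (Real.rpow_nonneg (abs_nonneg _) _)
      _ ≤ C1 * b ^ (-δ) := mul_le_mul_of_nonneg_left h5 hC10
  by_cases hsmall : s * C2 * d ≤ ε / 4
  swap
  · -- the trivial bound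
    push Not at hsmall
    have h5 : 1 ≤ C4 * (b ^ (-δ)) ^ 2 := by
      rw [hC4, ← mul_pow]
      apply one_le_pow₀
      rw [div_mul_eq_mul_div, one_le_div (by positivity)]
      refine hsmall.le.trans (le_of_eq ?_)
      rw [hd]
      ring
    have h6 : (1 : ℝ) ≤ (C3 + C4) * (b ^ (-δ)) ^ 2 := by
      refine h5.trans ?_
      have : 0 ≤ C3 * (b ^ (-δ)) ^ 2 := by positivity
      linarith
    exact hEH.trans (le_mul_of_one_le_left hH0 h6)
  -- the mean square
  set c : Fin m → ℝ := fun i => ∏ l, avg (sing (D l)) (g i l) with hc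
  set A : Fin m → (Fin n → ℂ) → ℝ := fun i v => avg (orb U v) (fun w => ∏ l, g i l (w l)) with hA
  have hvar : ∀ i, ∑ v ∈ TP, (A i v - c i) ^ 2 ≤ V * d ^ 2 * H := by
    intro i
    have h5 := hVAR hCM n D (fun l => (hD l).1) U hU (g i) K0 d hK01 hd0
      (fun l z _ => hK0 i l z) (fun l ψ h6 h7 =>
        ((hCc i l (D l) (hD l).1 (hne l)).2 ψ h6 h7).trans (hdl i l l))
    rw [← hTPc, finsum_mem_coe_finset] at h5
    exact h5
  have hci : ∀ i, |c i - ∏ l, ∫ x, g i l x ∂mu| ≤ C2 * d := by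
    intro i
    have h5 := aaj_prod Finset.univ (fun l => avg (sing (D l)) (g i l))
      (fun l => ∫ x, g i l x ∂mu) hK1 hd0
      (fun l _ => by
        rw [← hTc l]
        exact (aaj_avg_le (T l) (g i l) (zero_le_one.trans hK01) (hK0 i l)).trans hK0K)
      (fun l _ => hint1 i l)
      (fun l _ => ((hCc i l (D l) (hD l).1 (hne l)).1).trans (hdl i l l))
    rw [Finset.card_univ, Fintype.card_fin] at h5
    exact h5
  have hmain : ∀ v ∈ E, ε / 2 ≤ ∑ i, |a i| * |A i v - c i| := by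
    intro v hv
    rw [hE, Finset.mem_filter] at hv
    obtain ⟨hv1, hv2⟩ := hv
    have hvp : v ∈ pts D := by
      rw [← hTPc]
      exact hv1
    have hSfin := fun_orb_finite hCM U D v (fun l => ⟨(hD l).1, hvp l⟩)
    obtain ⟨S, hS⟩ : ∃ S : Finset (Fin n → ℂ), (S : Set (Fin n → ℂ)) = orb U v :=
      ⟨hSfin.toFinset, by simp⟩
    have h5 : |avg (orb U v) f - ∑ i, a i * A i v| ≤ e := by
      have h6 := fun_avg_close S _ _ e he0.le hap
      rw [fun_avg_sum, hS] at h6
      exact h6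
    have h6 : |∑ i, a i * A i v - ∑ i, a i * ∏ k, ∫ x, g i k x ∂mu| ≤
        ∑ i, |a i| * |A i v - c i| + s * (C2 * d) := by
      rw [← Finset.sum_sub_distrib, hs, Finset.sum_mul, ← Finset.sum_add_distrib]
      refine (Finset.abs_sum_le_sum_abs _ _).trans (Finset.sum_le_sum fun i _ => ?_)
      rw [← mul_sub, abs_mul, ← mul_add]
      refine mul_le_mul_of_nonneg_left ?_ (abs_nonneg _)
      have h7 : A i v - ∏ k, ∫ x, g i k x ∂mu =
          (A i v - c i) + (c i - ∏ k, ∫ x, g i k x ∂mu) := by ring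
      rw [h7]
      exact (abs_add_le _ _).trans (add_le_add_right (hci i) _)
    have h7 : |avg (orb U v) f - ∫ w, f w ∂P| ≤
        |avg (orb U v) f - ∑ i, a i * A i v| +
        |∑ i, a i * A i v - ∑ i, a i * ∏ k, ∫ x, g i k x ∂mu| +
        |∫ w, f w ∂P - ∑ i, a i * ∏ k, ∫ x, g i k x ∂mu| := by
      rw [abs_sub_comm (∫ w, f w ∂P)]
      refine le_trans (le_of_eq ?_) (abs_add_three _ _ _)
      congr 1
      ring
    have h8 : e + e * M = ε / 4 := by
      rw [he]
      field_simp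
    have h9 : s * (C2 * d) ≤ ε / 4 := by
      rw [← mul_assoc]
      exact hsmall
    linarith
  have hfin' := aaj_cheb E TP (Finset.filter_subset _ _) a (fun i v => A i v - c i)
    (c := ε / 2) (W := V * d ^ 2 * H) (by positivity) hvar hmain
  refine hfin'.trans ?_
  have h5 : (∑ i, a i ^ 2) * (m * (V * d ^ 2 * H)) / (ε / 2) ^ 2 =
      C3 * (b ^ (-δ)) ^ 2 * H := by
    rw [hC3, hd]
    ring
  rw [h5]
  refine mul_le_mul_of_nonneg_right ?_ hH0
  refine mul_le_mul_of_nonneg_right ?_ (by positivity)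
  have : 0 ≤ C4 := sq_nonneg _
  linarith

end Pool.Agent.Y818.IC
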