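import Pool.Agent.Y818.IC.Stm

/-!
# Almost all special points: definitions and statements
-/

set_option autoImplicit false

open MeasureTheory UpperHalfPlane Filter

namespace Pool.Agent.Y818.IC

/-- The complex mean value. -/
noncomputable def cavg {X : Type*} (S : Set X) (f : X → ℂ) : ℂ := (∑ᶠ x ∈ S, f x) / (S.ncard : ℂ)

/-- `ψ` is (up to a constant) a character of the class group, transported to `sing D`. -/
def IsClassCharacter (D : ℤ) (ψ : ℂ → ℂ) : Prop :=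
  (∀ z ∈ sing D, ‖ψ z‖ = 1) ∧
  ∀ σ : AutC, FixesRoot D σ → ∀ z ∈ sing D, ∀ w ∈ sing D, ψ (σ z) * ψ w = ψ z * ψ (σ w)

/-- Duke's theorem twisted by class group characters, with a power saving: the mean value over
`sing D` of `ψ f` is `O(|D|^(-δ))`, uniformly in the nontrivial class group characters `ψ`, and
the mean value of `f` is `∫ f + O(|D|^(-δ))`. -/
def TwistedDuke (δ : ℝ) : Prop :=
  ∀ f : ℂ → ℝ, ContDiff ℝ (⊤ : ℕ∞) f → HasCompactSupport f → ∃ C : ℝ, ∀ D : ℤ, D < 0 →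
    (sing D).Nonempty →
    |avg (sing D) f - ∫ x, f x ∂mu| ≤ C * |(D : ℝ)| ^ (-δ) ∧
    ∀ ψ : ℂ → ℂ, IsClassCharacter D ψ → (∃ z ∈ sing D, ∃ w ∈ sing D, ψ z ≠ ψ w) →
      ‖cavg (sing D) (fun z => ψ z * (f z : ℂ))‖ ≤ C * |(D : ℝ)| ^ (-δ)

/-- The points of `Y(1)ⁿ` with discriminants `D`. -/
def pts {n : ℕ} (D : Fin n → ℤ) : Set (Fin n → ℂ) := {v | ∀ l, v l ∈ sing (D l)}

/-- ABS1: abstract mean square estimate (one finite commutative group). -/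
def S_ABS1 : Prop :=
  ∀ (G A : Type) [CommGroup G] [Fintype G] [Fintype A] [Nonempty A] (p : A → G) (M : ℝ),
    ((Nat.card {x : A × A // p x.1 = p x.2} : ℕ) : ℝ) * (Fintype.card G : ℝ) ≤
      M * (Fintype.card A : ℝ) ^ 2 →
    ∀ (h : A → ℂ) (K : ℝ), (∀ a, ‖h a‖ ≤ K) → ∀ (f : G → ℂ) (δ : ℝ),
    (∀ ψ : G →* ℂˣ, ‖(∑ g, ((ψ g : ℂˣ) : ℂ) * f g) / (Fintype.card G : ℂ)‖ ≤ δ) →
    (∑ x, ‖(∑ a, f (p a * x) * h a) / (Fintype.card A : ℂ)‖ ^ 2) / (Fintype.card G : ℝ) ≤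
      M * K ^ 2 * δ ^ 2

/-- ABS2: the same on `sing D`. -/
def S_ABS2 : Prop :=
  CMTheory → ∀ D : ℤ, D < 0 → ∀ (f : ℂ → ℝ) (δ : ℝ), 0 ≤ δ →
    (∀ ψ : ℂ → ℂ, IsClassCharacter D ψ → (∃ z ∈ sing D, ∃ w ∈ sing D, ψ z ≠ ψ w) →
      ‖cavg (sing D) (fun z => ψ z * (f z : ℂ))‖ ≤ δ) →
    ∀ (A : Type) [Fintype A] [Nonempty A] (p : A → AutC), (∀ a, p a ∈ root D) →
    ∀ (M : ℝ), (∀ z ∈ sing D, ((Nat.card {x : A × A // p x.1 z = p x.2 z} : ℕ) : ℝ) *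
      ((sing D).ncard : ℝ) ≤ M * (Fintype.card A : ℝ) ^ 2) →
    ∀ (h : A → ℝ) (K : ℝ), (∀ a, |h a| ≤ K) →
    (∑ᶠ x ∈ sing D, ((∑ a, (f (p a x) - avg (sing D) f) * h a) / (Fintype.card A : ℝ)) ^ 2) ≤
      M * K ^ 2 * δ ^ 2 * ((sing D).ncard : ℝ)

/-- VAR: the mean square over all points with the given discriminants. -/
def S_VAR : Prop :=
  CMTheory → ∀ (n : ℕ) (D : Fin n → ℤ), (∀ l, D l < 0) → ∀ (U : Subgroup AutC), U.index ≠ 0 →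
    ∀ (f : Fin n → ℂ → ℝ) (K δ : ℝ), 1 ≤ K → 0 ≤ δ → (∀ l, ∀ z ∈ sing (D l), |f l z| ≤ K) →
    (∀ l, ∀ ψ : ℂ → ℂ, IsClassCharacter (D l) ψ →
      (∃ z ∈ sing (D l), ∃ w ∈ sing (D l), ψ z ≠ ψ w) →
      ‖cavg (sing (D l)) (fun z => ψ z * (f l z : ℂ))‖ ≤ δ) →
    (∑ᶠ v ∈ pts D, (avg (orb U v) (fun w => ∏ l, f l (w l)) - ∏ l, avg (sing (D l)) (f l)) ^ 2) ≤
      (n : ℝ) ^ 2 * ((U.index.factorial : ℝ) * 2 ^ n) * K ^ (2 * n) * δ ^ 2 *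
        ∏ l, ((sing (D l)).ncard : ℝ)

/-- SWS: approximation by sums of products of smooth functions. -/
def S_SWS : Prop :=
  ∀ (n : ℕ) (f : (Fin n → ℂ) → ℝ), Continuous f → HasCompactSupport f → ∀ ε : ℝ, 0 < ε →
    ∃ (m : ℕ) (a : Fin m → ℝ) (g : Fin m → Fin n → ℂ → ℝ),
      (∀ i k, ContDiff ℝ (⊤ : ℕ∞) (g i k) ∧ HasCompactSupport (g i k)) ∧
      ∀ w, |f w - ∑ i, a i * ∏ k, g i k (w k)| ≤ ε

/-- AA: almost all special points with given discriminants have equidistributed Galois orbits. -/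
def S_AA (δ : ℝ) : Prop :=
  ∀ (n : ℕ) (F : IntermediateField ℚ ℂ), FiniteDimensional ℚ F →
    ∀ f : (Fin n → ℂ) → ℝ, Continuous f → HasCompactSupport f → ∀ ε : ℝ, 0 < ε →
    ∃ C : ℝ, ∀ (D : Fin n → ℤ) (b : ℝ), 0 < b → (∀ l, D l < 0 ∧ b ≤ |(D l : ℝ)|) →
      (({v | v ∈ pts D ∧ ε < |avg (orb F.fixingSubgroup v) f -
        ∫ w, f w ∂(Measure.pi fun _ : Fin n => mu)|} : Set (Fin n → ℂ)).ncard : ℝ) ≤
        C * b ^ (-(2 * δ)) * ∏ l, ((sing (D l)).ncard : ℝ)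

/-- AAJ. -/
def S_AAJ : Prop :=
  CMTheory → S_AUT → S_VAR → S_SWS → IsFiniteMeasure mu → ∀ δ : ℝ, 0 < δ → TwistedDuke δ → S_AA δ

end Pool.Agent.Y818.IC
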