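import Mathlib
import Pool.Agent.Y818.IC.Stm2

/-!
# ABS1: the abstract mean square estimate (proof by helper87)

Fourier analysis on a finite commutative group: the Fourier transform of
`x ↦ ∑ a, f (p a * x) * h a` is the product of that of `f` and of `∑ a, h a * ψ (p a)⁻¹`;
Parseval's identity for both.
-/

set_option autoImplicit false

open scoped ComplexConjugate

namespace Pool.Agent.Y818.IC

lemma abs1_neZero (G : Type) [CommGroup G] [Finite G] : NeZero ((Monoid.exponent G : ℕ) : ℂ) :=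
  ⟨by exact_mod_cast Monoid.exponent_ne_zero_of_finite⟩

lemma abs1_finite (G : Type) [CommGroup G] [Finite G] : Finite (G →* ℂˣ) := by
  have := abs1_neZero G
  obtain ⟨e⟩ := CommGroup.monoidHom_mulEquiv_of_hasEnoughRootsOfUnity G ℂ
  exact Finite.of_equiv G e.symm.toEquiv

lemma abs1_orth (G : Type) [CommGroup G] [Fintype G] [Fintype (G →* ℂˣ)] [DecidableEq G] (g : G) :
    ∑ ψ : G →* ℂˣ, ((ψ g : ℂˣ) : ℂ) = if g = 1 then (Fintype.card G : ℂ) else 0 := by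
  have := abs1_neZero G
  split_ifs with h
  · subst h
    have h1 := CommGroup.card_monoidHom_of_hasEnoughRootsOfUnity G ℂ
    rw [Nat.card_eq_fintype_card, Nat.card_eq_fintype_card] at h1
    simp [h1]
  · obtain ⟨φ, hφ⟩ := CommGroup.exists_apply_ne_one_of_hasEnoughRootsOfUnity G ℂ h
    have h2 : ∑ ψ : G →* ℂˣ, ((ψ g : ℂˣ) : ℂ) =
        ((φ g : ℂˣ) : ℂ) * ∑ ψ : G →* ℂˣ, ((ψ g : ℂˣ) : ℂ) := by
      rw [Finset.mul_sum]
      rw [← Fintype.sum_equiv (Equiv.mulLeft φ) (fun ψ => (((φ * ψ) g : ℂˣ) : ℂ))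
        (fun ψ => ((ψ g : ℂˣ) : ℂ)) (fun ψ => rfl)]
      refine Finset.sum_congr rfl fun ψ _ => ?_
      rw [MonoidHom.mul_apply, Units.val_mul]
    have h3 : (((φ g : ℂˣ) : ℂ) - 1) * ∑ ψ : G →* ℂˣ, ((ψ g : ℂˣ) : ℂ) = 0 := by
      rw [sub_mul, one_mul, ← h2, sub_self]
    rcases mul_eq_zero.mp h3 with h4 | h4
    · exfalso
      apply hφ
      apply Units.ext
      rw [Units.val_one]
      exact sub_eq_zero.mp h4
    · exact h4

lemma abs1_norm {G : Type} [CommGroup G] [Finite G] (ψ : G →* ℂˣ) (g : G) :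
    ‖((ψ g : ℂˣ) : ℂ)‖ = 1 := by
  have h1 : IsOfFinOrder g := isOfFinOrder_of_finite g
  obtain ⟨n, hn, hg⟩ := isOfFinOrder_iff_pow_eq_one.mp h1
  have h2 : ((ψ g : ℂˣ) : ℂ) ^ n = 1 := by
    rw [← Units.val_pow_eq_pow_val, ← map_pow, hg, map_one, Units.val_one]
  exact Complex.norm_eq_one_of_pow_eq_one h2 hn.ne'

lemma abs1_conj {G : Type} [CommGroup G] [Finite G] (ψ : G →* ℂˣ) (g : G) :
    conj ((ψ g : ℂˣ) : ℂ) = ((ψ g⁻¹ : ℂˣ) : ℂ) := by
  rw [map_inv, Units.val_inv_eq_inv_val, Complex.inv_def, Complex.normSq_eq_norm_sq, abs1_norm]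
  simp

/-- Parseval's identity -/
lemma abs1_pars (G A : Type) [CommGroup G] [Fintype G] [Fintype (G →* ℂˣ)] [DecidableEq G]
    [Fintype A] (p : A → G) (h : A → ℂ) :
    ((∑ ψ : G →* ℂˣ, ‖∑ a, ((ψ (p a) : ℂˣ) : ℂ) * h a‖ ^ 2 : ℝ) : ℂ) =
      (Fintype.card G : ℂ) * ∑ a, ∑ b, if p a = p b then h a * conj (h b) else 0 := by
  rw [Complex.ofReal_sum]
  have e1 : ∀ ψ : G →* ℂˣ, ((‖∑ a, ((ψ (p a) : ℂˣ) : ℂ) * h a‖ ^ 2 : ℝ) : ℂ) =
      ∑ a, ∑ b, (((ψ (p a * (p b)⁻¹) : ℂˣ) : ℂ)) * (h a * conj (h b)) := by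
    intro ψ
    rw [Complex.ofReal_pow, ← Complex.mul_conj', map_sum, Finset.sum_mul_sum]
    refine Finset.sum_congr rfl fun a _ => Finset.sum_congr rfl fun b _ => ?_
    rw [map_mul (starRingEnd ℂ), abs1_conj, map_mul ψ, Units.val_mul]
    ring
  simp_rw [e1]
  rw [Finset.sum_comm, Finset.mul_sum]
  refine Finset.sum_congr rfl fun a _ => ?_
  rw [Finset.sum_comm, Finset.mul_sum]
  refine Finset.sum_congr rfl fun b _ => ?_
  rw [← Finset.sum_mul, abs1_orth]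
  by_cases hab : p a = p b
  · rw [if_pos (by rw [hab, mul_inv_cancel]), if_pos hab]
  · rw [if_neg (fun h => hab (mul_inv_eq_one.mp h)), if_neg hab, zero_mul, mul_zero]

/-- Parseval's identity for functions on the group -/
lemma abs1_pars1 (G : Type) [CommGroup G] [Fintype G] [Fintype (G →* ℂˣ)] (F : G → ℂ) :
    ∑ ψ : G →* ℂˣ, ‖∑ x, ((ψ x : ℂˣ) : ℂ) * F x‖ ^ 2 =
      (Fintype.card G : ℝ) * ∑ x, ‖F x‖ ^ 2 := by
  classical
  have h1 := abs1_pars G G (fun x => x) F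
  have h2 : ∑ a, ∑ b, (if a = b then F a * conj (F b) else 0) = ((∑ x, ‖F x‖ ^ 2 : ℝ) : ℂ) := by
    rw [Complex.ofReal_sum]
    refine Finset.sum_congr rfl fun a _ => ?_
    rw [Finset.sum_ite_eq Finset.univ a, if_pos (Finset.mem_univ _), Complex.mul_conj',
      Complex.ofReal_pow]
  rw [h2] at h1
  exact_mod_cast h1

/-- the upper bound for the second factor -/
lemma abs1_upper (G A : Type) [CommGroup G] [Fintype G] [Fintype (G →* ℂˣ)] [Fintype A]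
    (p : A → G) (h : A → ℂ) (K : ℝ) (hK : 0 ≤ K) (hh : ∀ a, ‖h a‖ ≤ K) :
    ∑ ψ : G →* ℂˣ, ‖∑ a, ((ψ (p a) : ℂˣ) : ℂ) * h a‖ ^ 2 ≤
      (Fintype.card G : ℝ) * (K ^ 2 * (Nat.card {x : A × A // p x.1 = p x.2} : ℕ)) := by
  classical
  have h1 := abs1_pars G A p h
  have h0 : 0 ≤ ∑ ψ : G →* ℂˣ, ‖∑ a, ((ψ (p a) : ℂˣ) : ℂ) * h a‖ ^ 2 :=
    Finset.sum_nonneg fun ψ _ => by positivity
  calc ∑ ψ : G →* ℂˣ, ‖∑ a, ((ψ (p a) : ℂˣ) : ℂ) * h a‖ ^ 2
      = ‖((∑ ψ : G →* ℂˣ, ‖∑ a, ((ψ (p a) : ℂˣ) : ℂ) * h a‖ ^ 2 : ℝ) : ℂ)‖ := by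
        rw [Complex.norm_real, Real.norm_eq_abs, abs_of_nonneg h0]
    _ = (Fintype.card G : ℝ) * ‖∑ a, ∑ b, if p a = p b then h a * conj (h b) else 0‖ := by
        rw [h1, norm_mul, Complex.norm_natCast]
    _ ≤ (Fintype.card G : ℝ) * (∑ a, ∑ b, if p a = p b then K ^ 2 else 0) := by
        refine mul_le_mul_of_nonneg_left ?_ (Nat.cast_nonneg _)
        refine (norm_sum_le _ _).trans (Finset.sum_le_sum fun a _ => ?_)
        refine (norm_sum_le _ _).trans (Finset.sum_le_sum fun b _ => ?_)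
        split_ifs
        · rw [norm_mul, RCLike.norm_conj, sq]
          exact mul_le_mul (hh a) (hh b) (norm_nonneg _) hK
        · rw [norm_zero]
    _ = (Fintype.card G : ℝ) * (K ^ 2 * (Nat.card {x : A × A // p x.1 = p x.2} : ℕ)) := by
        congr 1
        rw [← Fintype.sum_prod_type' (f := fun a b => if p a = p b then K ^ 2 else 0),
          ← Finset.sum_filter, Finset.sum_const, nsmul_eq_mul, Nat.card_eq_fintype_card,
          Fintype.card_subtype, mul_comm]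

theorem abs1 : S_ABS1 := by
  intro G A _ _ _ _ p M hM h K hh f δ hδ
  classical
  have := abs1_finite G
  let _ : Fintype (G →* ℂˣ) := Fintype.ofFinite _
  obtain ⟨a0⟩ := ‹Nonempty A›
  have hK : 0 ≤ K := (norm_nonneg _).trans (hh a0)
  have hG : (0 : ℝ) < Fintype.card G := by exact_mod_cast Fintype.card_pos
  have hA : (0 : ℝ) < Fintype.card A := by
    have : Nonempty A := ⟨a0⟩
    exact_mod_cast Fintype.card_pos
  -- the transform of `F`
  have hF : ∀ ψ : G →* ℂˣ, ∑ x, ((ψ x : ℂˣ) : ℂ) * (∑ a, f (p a * x) * h a) =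
      (∑ g, ((ψ g : ℂˣ) : ℂ) * f g) * ∑ a, ((ψ (p a)⁻¹ : ℂˣ) : ℂ) * h a := by
    intro ψ
    simp_rw [Finset.mul_sum]
    rw [Finset.sum_comm]
    refine Finset.sum_congr rfl fun a _ => ?_
    rw [Finset.sum_mul]
    rw [← Fintype.sum_equiv (Equiv.mulLeft (p a))
      (fun x => ((ψ (p a * x) : ℂˣ) : ℂ) * f (p a * x) * (((ψ (p a)⁻¹ : ℂˣ) : ℂ) * h a))
      (fun g => ((ψ g : ℂˣ) : ℂ) * f g * (((ψ (p a)⁻¹ : ℂˣ) : ℂ) * h a)) (fun x => rfl)]
    refine Finset.sum_congr rfl fun x _ => ?_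
    have h1 : ((ψ (p a * x) : ℂˣ) : ℂ) * ((ψ (p a)⁻¹ : ℂˣ) : ℂ) = ((ψ x : ℂˣ) : ℂ) := by
      rw [← Units.val_mul, ← map_mul]
      congr 2
      rw [mul_comm (p a) x, mul_assoc, mul_inv_cancel, mul_one]
    rw [← h1]
    ring
  have h2 := abs1_pars1 G (fun x => ∑ a, f (p a * x) * h a)
  simp_rw [hF] at h2
  have hδ' : ∀ ψ : G →* ℂˣ, ‖∑ g, ((ψ g : ℂˣ) : ℂ) * f g‖ ≤ δ * Fintype.card G := by
    intro ψ
    have := hδ ψ
    rw [norm_div, Complex.norm_natCast, div_le_iff₀ hG] at this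
    exact this
  have h3 : (Fintype.card G : ℝ) * ∑ x, ‖∑ a, f (p a * x) * h a‖ ^ 2 ≤
      (δ * Fintype.card G) ^ 2 * ((Fintype.card G : ℝ) *
        (K ^ 2 * (Nat.card {x : A × A // p x.1 = p x.2} : ℕ))) := by
    rw [← h2]
    have h4 := abs1_upper G A (fun a => (p a)⁻¹) h K hK hh
    simp only [inv_inj] at h4
    refine le_trans ?_ (mul_le_mul_of_nonneg_left h4 (sq_nonneg _))
    rw [Finset.mul_sum]
    refine Finset.sum_le_sum fun ψ _ => ?_
    rw [norm_mul, mul_pow]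
    exact mul_le_mul_of_nonneg_right (pow_le_pow_left₀ (norm_nonneg _) (hδ' ψ) 2) (sq_nonneg _)
  have h5 : ∑ x, ‖∑ a, f (p a * x) * h a‖ ^ 2 ≤
      (δ ^ 2 * K ^ 2 * Fintype.card G) * (M * (Fintype.card A : ℝ) ^ 2) := by
    have h6 : ∑ x, ‖∑ a, f (p a * x) * h a‖ ^ 2 ≤
        (δ ^ 2 * K ^ 2 * Fintype.card G) *
          ((Nat.card {x : A × A // p x.1 = p x.2} : ℕ) * (Fintype.card G : ℝ)) := by
      refine le_of_mul_le_mul_left (h3.trans (le_of_eq ?_)) hG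
      ring
    exact h6.trans (mul_le_mul_of_nonneg_left hM (by positivity))
  have h7 : ∑ x, ‖(∑ a, f (p a * x) * h a) / (Fintype.card A : ℂ)‖ ^ 2 =
      (∑ x, ‖∑ a, f (p a * x) * h a‖ ^ 2) / (Fintype.card A : ℝ) ^ 2 := by
    rw [Finset.sum_div]
    refine Finset.sum_congr rfl fun x _ => ?_
    rw [norm_div, Complex.norm_natCast, div_pow]
  rw [h7, div_div, div_le_iff₀ (by positivity)]
  refine h5.trans (le_of_eq ?_)
  ring

end Pool.Agent.Y818.IC
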