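import Pool.Agent.Y818.IC.Stm2

/-!
# The mean square estimate on the set of singular moduli

Contributed by helper100.
-/

set_option autoImplicit false

namespace Pool.Agent.Y818.IC

theorem abs2_sum {D : ℤ} {G E : Type} [Fintype G] [AddCommMonoid E] (e : G ≃ sing D)
    (F : ℂ → E) : (∑ᶠ x ∈ sing D, F x) = ∑ g : G, F (e g) := by
  rw [← finsum_set_coe_eq_finsum_mem, ← finsum_comp_equiv e, finsum_eq_sum_of_fintype]

theorem abs2_ncard {D : ℤ} {G : Type} [Fintype G] (e : G ≃ sing D) :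
    (sing D).ncard = Fintype.card G := by
  rw [← Nat.card_coe_set_eq, ← Nat.card_congr e, Nat.card_eq_fintype_card]

theorem abs2_core (hA : S_ABS1) (D : ℤ) (G : Type) [CommGroup G] [Fintype G] (e : G ≃ sing D)
    (φ : root D → G) (he : ∀ (σ : root D) (g : G), ((e (φ σ * g) : sing D) : ℂ) = σ.1 (e g : ℂ))
    (f : ℂ → ℝ) (δ : ℝ) (hδ : 0 ≤ δ)
    (hψ : ∀ ψ : ℂ → ℂ, IsClassCharacter D ψ → (∃ z ∈ sing D, ∃ w ∈ sing D, ψ z ≠ ψ w) →
      ‖cavg (sing D) (fun z => ψ z * (f z : ℂ))‖ ≤ δ)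
    (A : Type) [Fintype A] [Nonempty A] (p : A → AutC) (hp : ∀ a, p a ∈ root D)
    (M : ℝ) (hM : ∀ z ∈ sing D, ((Nat.card {x : A × A // p x.1 z = p x.2 z} : ℕ) : ℝ) *
      ((sing D).ncard : ℝ) ≤ M * (Fintype.card A : ℝ) ^ 2)
    (h : A → ℝ) (K : ℝ) (hK : ∀ a, |h a| ≤ K) :
    (∑ᶠ x ∈ sing D, ((∑ a, (f (p a x) - avg (sing D) f) * h a) / (Fintype.card A : ℝ)) ^ 2) ≤
      M * K ^ 2 * δ ^ 2 * ((sing D).ncard : ℝ) := by
  classical
  have hn := abs2_ncard e
  have hG0 : (0 : ℝ) < Fintype.card G := by exact_mod_cast Fintype.card_pos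
  obtain ⟨μ, hμ⟩ : ∃ μ : ℝ, μ = avg (sing D) f := ⟨_, rfl⟩
  rw [← hμ]
  have hμ2 : ∑ g : G, f (e g) = Fintype.card G * μ := by
    rw [hμ]
    unfold avg
    rw [abs2_sum e, hn]
    field_simp
  -- the automorphisms and the group
  have hinj : ∀ a b : A, φ ⟨p a, hp a⟩ = φ ⟨p b, hp b⟩ ↔ p a (e 1 : ℂ) = p b (e 1 : ℂ) := by
    intro a b
    have h1 := he ⟨p a, hp a⟩ 1
    have h2 := he ⟨p b, hp b⟩ 1
    rw [mul_one] at h1 h2
    rw [← h1, ← h2]
    exact ⟨fun h => by rw [h], fun h => e.injective (Subtype.ext h)⟩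
  have hM' : ((Nat.card {x : A × A // φ ⟨p x.1, hp x.1⟩ = φ ⟨p x.2, hp x.2⟩} : ℕ) : ℝ) *
      (Fintype.card G : ℝ) ≤ M * (Fintype.card A : ℝ) ^ 2 := by
    have h1 := hM (e 1) (e 1).2
    rw [hn] at h1
    have h2 : Nat.card {x : A × A // φ ⟨p x.1, hp x.1⟩ = φ ⟨p x.2, hp x.2⟩} =
        Nat.card {x : A × A // p x.1 (e 1 : ℂ) = p x.2 (e 1 : ℂ)} :=
      Nat.card_congr (Equiv.subtypeEquivRight fun x => hinj x.1 x.2)
    rw [h2]
    exact h1
  have hmain := hA G A (fun a => φ ⟨p a, hp a⟩) M hM' (fun a => (h a : ℂ)) K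
    (fun a => by rw [Complex.norm_real, Real.norm_eq_abs]; exact hK a)
    (fun g => ((f (e g) - μ : ℝ) : ℂ)) δ ?_
  · rw [abs2_sum e, hn]
    rw [div_le_iff₀ hG0] at hmain
    refine le_trans (le_of_eq ?_) hmain
    apply Finset.sum_congr rfl
    intro g _
    have h1 : (∑ a, ((f (e (φ ⟨p a, hp a⟩ * g)) - μ : ℝ) : ℂ) * (h a : ℂ)) /
        (Fintype.card A : ℂ) =
        (((∑ a, (f (p a (e g)) - μ) * h a) / (Fintype.card A : ℝ) : ℝ) : ℂ) := by
      push_cast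
      congr 1
      apply Finset.sum_congr rfl
      intro a _
      rw [he ⟨p a, hp a⟩ g]
    rw [h1, Complex.norm_real, Real.norm_eq_abs, sq_abs]
  · intro ψ
    by_cases hψ1 : ψ = 1
    · rw [hψ1]
      have h1 : (∑ g : G, (((1 : G →* ℂˣ) g : ℂˣ) : ℂ) * ((f (e g) - μ : ℝ) : ℂ)) = 0 := by
        have h2 : (∑ g : G, (f (e g) - μ)) = 0 := by
          rw [Finset.sum_sub_distrib, hμ2, Finset.sum_const, Finset.card_univ, nsmul_eq_mul,
            sub_self]
        simp only [MonoidHom.one_apply, Units.val_one, one_mul]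
        rw [← Complex.ofReal_sum, h2, Complex.ofReal_zero]
      rw [h1, zero_div, norm_zero]
      exact hδ
    · have hs : ∑ g : G, ((ψ g : ℂˣ) : ℂ) = 0 := by
        have h1 : (Units.coeHom ℂ).comp ψ ≠ 1 := by
          intro h2
          apply hψ1
          ext g
          exact DFunLike.congr_fun h2 g
        exact sum_hom_units_eq_zero ((Units.coeHom ℂ).comp ψ) h1
      obtain ⟨Ψ, hΨ⟩ : ∃ Ψ : ℂ → ℂ, ∀ g : G, Ψ (e g) = ((ψ g : ℂˣ) : ℂ) := by
        refine ⟨fun z => if hz : z ∈ sing D then ((ψ (e.symm ⟨z, hz⟩) : ℂˣ) : ℂ) else 0,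
          fun g => ?_⟩
        simp
      have hsurj : ∀ z ∈ sing D, ∃ g : G, (e g : ℂ) = z := by
        intro z hz
        exact ⟨e.symm ⟨z, hz⟩, by rw [e.apply_symm_apply]⟩
      have hchar : IsClassCharacter D Ψ := by
        refine ⟨?_, ?_⟩
        · intro z hz
          obtain ⟨g, rfl⟩ := hsurj z hz
          rw [hΨ]
          have h1 : ((ψ g : ℂˣ) : ℂ) ^ (Fintype.card G) = 1 := by
            rw [← Units.val_pow_eq_pow_val, ← map_pow, pow_card_eq_one, map_one, Units.val_one]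
          exact Complex.norm_eq_one_of_pow_eq_one h1 Fintype.card_ne_zero
        · intro σ hσ z hz w hw
          obtain ⟨g, rfl⟩ := hsurj z hz
          obtain ⟨g', rfl⟩ := hsurj w hw
          rw [← he ⟨σ, mem_root.2 hσ⟩ g, ← he ⟨σ, mem_root.2 hσ⟩ g', hΨ, hΨ, hΨ, hΨ, map_mul,
            map_mul, Units.val_mul, Units.val_mul]
          ring
      have hnc : ∃ z ∈ sing D, ∃ w ∈ sing D, Ψ z ≠ Ψ w := by
        obtain ⟨g, hg⟩ : ∃ g, ψ g ≠ 1 := by
          by_contra hcon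
          push Not at hcon
          exact hψ1 (MonoidHom.ext hcon)
        refine ⟨e g, (e g).2, e 1, (e 1).2, ?_⟩
        rw [hΨ, hΨ, map_one, Units.val_one]
        intro h1
        exact hg (Units.ext h1)
      have h1 := hψ Ψ hchar hnc
      unfold cavg at h1
      rw [abs2_sum e, hn] at h1
      have h2 : (∑ g : G, ((ψ g : ℂˣ) : ℂ) * ((f (e g) - μ : ℝ) : ℂ)) =
          ∑ g : G, Ψ (e g) * (f (e g) : ℂ) := by
        have h3 : ∀ g : G, ((ψ g : ℂˣ) : ℂ) * ((f (e g) - μ : ℝ) : ℂ) =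
            Ψ (e g) * (f (e g) : ℂ) - ((ψ g : ℂˣ) : ℂ) * (μ : ℂ) := by
          intro g
          rw [hΨ]
          push_cast
          ring
        rw [Finset.sum_congr rfl fun g _ => h3 g, Finset.sum_sub_distrib, ← Finset.sum_mul, hs,
          zero_mul, sub_zero]
      rw [h2]
      exact h1

/-- the action of the automorphisms on the singular moduli -/
noncomputable def abs2_hom (D : ℤ) (hst : ∀ σ : AutC, ∀ z ∈ sing D, σ z ∈ sing D) :
    root D →* Equiv.Perm (sing D) where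
  toFun σ :=
    { toFun := fun z => ⟨σ.1 z.1, hst σ.1 z.1 z.2⟩
      invFun := fun z => ⟨σ.1.symm z.1, hst σ.1.symm z.1 z.2⟩
      left_inv := fun z => Subtype.ext (σ.1.symm_apply_apply z.1)
      right_inv := fun z => Subtype.ext (σ.1.apply_symm_apply z.1) }
  map_one' := by
    apply Equiv.ext
    intro z
    rfl
  map_mul' σ τ := by
    apply Equiv.ext
    intro z
    rfl

theorem abs2_hom_apply (D : ℤ) (hst : ∀ σ : AutC, ∀ z ∈ sing D, σ z ∈ sing D) (σ : root D)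
    (z : sing D) : ((abs2_hom D hst σ z : sing D) : ℂ) = σ.1 z.1 := rfl

theorem abs2 (hA : S_ABS1) : S_ABS2 := by
  classical
  intro hCM D hD f δ hδ hψ A _ _ p hp M hM h K hK
  obtain ⟨hfin, hst, htr, hcomm, -⟩ := hCM D hD
  rcases (sing D).eq_empty_or_nonempty with he | ⟨z₀, hz₀⟩
  · rw [he]
    simp
  · have hc : ∀ g₁ g₂ : (abs2_hom D hst).range, g₁ * g₂ = g₂ * g₁ := by
      rintro ⟨_, σ, rfl⟩ ⟨_, τ, rfl⟩
      apply Subtype.ext
      apply Equiv.ext
      intro z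
      exact Subtype.ext (hcomm σ.1 τ.1 (mem_root.1 σ.2) (mem_root.1 τ.2) z.1 z.2)
    let inst : CommGroup (abs2_hom D hst).range :=
      { (inferInstance : Group (abs2_hom D hst).range) with mul_comm := hc }
    have hF : Finite (sing D) := hfin
    let inst2 : Fintype (abs2_hom D hst).range := Fintype.ofFinite _
    have hbij : Function.Bijective
        (fun g : (abs2_hom D hst).range => (g.1 : Equiv.Perm (sing D)) ⟨z₀, hz₀⟩) := by
      constructor
      · intro g₁ g₂ hg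
        apply Subtype.ext
        apply Equiv.ext
        intro z
        obtain ⟨ρ, hρ, hρz⟩ := htr z₀ hz₀ z.1 z.2
        have h1 : abs2_hom D hst ⟨ρ, mem_root.2 hρ⟩ ⟨z₀, hz₀⟩ = z := Subtype.ext hρz
        have h2 : ∀ g : (abs2_hom D hst).range, (g.1 : Equiv.Perm (sing D)) z =
            abs2_hom D hst ⟨ρ, mem_root.2 hρ⟩ ((g.1 : Equiv.Perm (sing D)) ⟨z₀, hz₀⟩) := by
          intro g
          have h3 := hc g ⟨abs2_hom D hst ⟨ρ, mem_root.2 hρ⟩, ⟨_, rfl⟩⟩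
          have h4 := congrArg (fun g : (abs2_hom D hst).range =>
            (g.1 : Equiv.Perm (sing D)) ⟨z₀, hz₀⟩) h3
          have h5 : (g.1 : Equiv.Perm (sing D)) (abs2_hom D hst ⟨ρ, mem_root.2 hρ⟩ ⟨z₀, hz₀⟩) =
            abs2_hom D hst ⟨ρ, mem_root.2 hρ⟩ ((g.1 : Equiv.Perm (sing D)) ⟨z₀, hz₀⟩) := h4
          rw [h1] at h5
          exact h5
        rw [h2 g₁, h2 g₂]
        exact congrArg _ hg
      · intro z
        obtain ⟨ρ, hρ, hρz⟩ := htr z₀ hz₀ z.1 z.2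
        exact ⟨⟨abs2_hom D hst ⟨ρ, mem_root.2 hρ⟩, ⟨_, rfl⟩⟩, Subtype.ext hρz⟩
    exact abs2_core hA D (abs2_hom D hst).range (Equiv.ofBijective _ hbij)
      (fun σ => ⟨abs2_hom D hst σ, ⟨σ, rfl⟩⟩) (fun σ g => rfl) f δ hδ hψ A p hp M hM h K hK

end Pool.Agent.Y818.IC
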