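import Pool.Agent.Y818.IC.Stm

/-!
# The invariant measure of `Y(1)` is a probability measure

Author: helper15.
-/

set_option autoImplicit false

open MeasureTheory UpperHalfPlane Set
open scoped ENNReal NNReal

namespace Pool.Agent.Y818.IC

lemma mu1_inner {a : ℝ} (ha : 0 < a) :
    ∫⁻ y in Ici a, ENNReal.ofReal (1 / y ^ 2) = ENNReal.ofReal (1 / a) := by
  rw [setLIntegral_congr (Ioi_ae_eq_Ici (μ := (volume : Measure ℝ)) (a := a)).symm]
  have h1 : IntegrableOn (fun t : ℝ => t ^ (-2 : ℝ)) (Ioi a) :=
    integrableOn_Ioi_rpow_of_lt (by norm_num) ha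
  have h2 : ∀ t ∈ Ioi a, ENNReal.ofReal (1 / t ^ 2 : ℝ) = ENNReal.ofReal (t ^ (-2 : ℝ)) := by
    intro t ht
    have ht0 : 0 < t := ha.trans ht
    rw [Real.rpow_neg ht0.le, one_div]
    norm_num
  rw [setLIntegral_congr_fun measurableSet_Ioi h2,
    ← ofReal_integral_eq_lintegral_ofReal h1, integral_Ioi_rpow_of_lt (by norm_num) ha]
  · congr 1
    have : (-2 : ℝ) + 1 = -1 := by norm_num
    rw [this, Real.rpow_neg_one]
    field_simp
  · refine (ae_restrict_iff' measurableSet_Ioi).mpr (Filter.Eventually.of_forall fun t ht => ?_)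
    exact Real.rpow_nonneg (ha.trans ht).le _

lemma mu1_outer : ∫⁻ x in Icc (-(1 / 2) : ℝ) (1 / 2), ENNReal.ofReal (1 / √(1 - x ^ 2)) =
    ENNReal.ofReal (Real.pi / 3) := by
  have hpos : ∀ x ∈ Icc (-(1 / 2) : ℝ) (1 / 2), 0 < 1 - x ^ 2 := by
    intro x hx
    nlinarith [hx.1, hx.2]
  have hcont : ContinuousOn (fun x : ℝ => 1 / √(1 - x ^ 2)) (Icc (-(1 / 2) : ℝ) (1 / 2)) := by
    apply ContinuousOn.div continuousOn_const
    · exact (Real.continuous_sqrt.comp (by fun_prop)).continuousOn
    · intro x hx
      exact (Real.sqrt_pos.mpr (hpos x hx)).ne'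
  have hint : IntegrableOn (fun x : ℝ => 1 / √(1 - x ^ 2)) (Icc (-(1 / 2) : ℝ) (1 / 2)) :=
    hcont.integrableOn_Icc
  rw [← ofReal_integral_eq_lintegral_ofReal hint]
  · congr 1
    rw [integral_Icc_eq_integral_Ioc, ← intervalIntegral.integral_of_le (by norm_num)]
    have hd : ∀ x ∈ uIcc (-(1 / 2) : ℝ) (1 / 2), HasDerivAt Real.arcsin (1 / √(1 - x ^ 2)) x := by
      intro x hx
      rw [uIcc_of_le (by norm_num)] at hx
      apply Real.hasDerivAt_arcsin
      · intro h
        have := hx.1
        rw [h] at this
        norm_num at this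
      · intro h
        have := hx.2
        rw [h] at this
        norm_num at this
    rw [intervalIntegral.integral_eq_sub_of_hasDerivAt hd]
    · have e1 : Real.arcsin (1 / 2) = Real.pi / 6 := by
        apply Real.arcsin_eq_of_sin_eq Real.sin_pi_div_six
        constructor <;> linarith [Real.pi_pos]
      rw [Real.arcsin_neg, e1]
      ring
    · apply ContinuousOn.intervalIntegrable
      rw [uIcc_of_le (by norm_num)]
      exact hcont
  · exact Filter.Eventually.of_forall fun x => by positivity

/-- the fundamental domain in the complex plane -/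
def mu1_S : Set ℂ := {z : ℂ | 1 ≤ Complex.normSq z ∧ |z.re| ≤ 1 / 2 ∧ 0 < z.im}

lemma mu1_S_meas : MeasurableSet mu1_S := by
  unfold mu1_S
  apply MeasurableSet.inter
  · exact measurableSet_le measurable_const (by
      have : Continuous Complex.normSq := Complex.continuous_normSq
      exact this.measurable)
  apply MeasurableSet.inter
  · have h : Measurable (fun z : ℂ => |z.re|) :=
      (continuous_abs.comp Complex.continuous_re).measurable
    exact measurableSet_le h measurable_const
  · exact measurableSet_lt measurable_const Complex.measurable_im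

lemma mu1_image : ((↑) : ℍ → ℂ) '' ModularGroup.fd = mu1_S := by
  ext z
  constructor
  · rintro ⟨τ, ⟨h1, h2⟩, rfl⟩
    exact ⟨h1, h2, τ.im_pos⟩
  · rintro ⟨h1, h2, h3⟩
    exact ⟨⟨z, h3⟩, ⟨h1, h2⟩, rfl⟩

lemma mu1_fd : (volume : Measure ℍ) ModularGroup.fd = ENNReal.ofReal (Real.pi / 3) := by
  rw [volume_eq_lintegral, mu1_image]
  have h1 : ∀ z : ℂ, (((1 / ‖z.im‖₊) ^ 2 : ℝ≥0) : ℝ≥0∞) = ENNReal.ofReal (1 / z.im ^ 2) := by
    intro z
    rw [ENNReal.ofReal]
    congr 1
    apply NNReal.eq
    rw [Real.coe_toNNReal _ (by positivity)]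
    push_cast
    rw [div_pow, one_pow, Real.norm_eq_abs, sq_abs]
  simp only [h1]
  rw [← lintegral_indicator mu1_S_meas,
    ← (Complex.volume_preserving_equiv_real_prod.symm _).lintegral_comp_emb
      (MeasurableEquiv.measurableEmbedding _), Measure.volume_eq_prod, lintegral_prod]
  · have h2 : ∀ x : ℝ, ∫⁻ y : ℝ, mu1_S.indicator (fun z : ℂ => ENNReal.ofReal (1 / z.im ^ 2))
        (Complex.measurableEquivRealProd.symm (x, y)) =
        (Icc (-(1 / 2) : ℝ) (1 / 2)).indicator (fun x => ENNReal.ofReal (1 / √(1 - x ^ 2))) x := by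
      intro x
      by_cases hx : x ∈ Icc (-(1 / 2) : ℝ) (1 / 2)
      · have hpos : 0 < 1 - x ^ 2 := by nlinarith [hx.1, hx.2]
        have hs := Real.sqrt_pos.mpr hpos
        rw [indicator_of_mem hx, ← mu1_inner hs, ← lintegral_indicator measurableSet_Ici]
        apply lintegral_congr
        intro y
        have hiff : Complex.measurableEquivRealProd.symm (x, y) ∈ mu1_S ↔
            y ∈ Ici (√(1 - x ^ 2)) := by
          rw [mem_Ici]
          constructor
          · rintro ⟨h3, -, h4⟩
            rw [Complex.normSq_apply] at h3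
            change 1 ≤ x * x + y * y at h3
            change 0 < y at h4
            rw [Real.sqrt_le_iff]
            exact ⟨h4.le, by nlinarith⟩
          · intro h3
            have h4 : 0 < y := hs.trans_le h3
            have h5 := (Real.sqrt_le_iff.mp h3).2
            refine ⟨?_, abs_le.mpr ⟨hx.1, hx.2⟩, h4⟩
            rw [Complex.normSq_apply]
            change 1 ≤ x * x + y * y
            nlinarith
        by_cases hy : y ∈ Ici (√(1 - x ^ 2))
        · rw [indicator_of_mem hy, indicator_of_mem (hiff.mpr hy)]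
          rfl
        · rw [indicator_of_notMem hy, indicator_of_notMem (fun h => hy (hiff.mp h))]
      · rw [indicator_of_notMem hx]
        rw [← lintegral_zero (μ := (volume : Measure ℝ))]
        apply lintegral_congr
        intro y
        apply indicator_of_notMem
        intro h
        exact hx (abs_le.mp h.2.1)
    simp only [h2]
    rw [lintegral_indicator measurableSet_Icc, mu1_outer]
  · apply Measurable.aemeasurable
    have h3 : Measurable (mu1_S.indicator fun z : ℂ => ENNReal.ofReal (1 / z.im ^ 2)) := by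
      apply Measurable.indicator _ mu1_S_meas
      fun_prop
    exact h3.comp (MeasurableEquiv.measurable _)

lemma mu1_j : Measurable j := by
  have h1 : Continuous (fun τ : ℍ => ModularForm.E₄ τ) := by
    exact ModularForm.E₄.holo'.continuous
  have h2 : Continuous (fun τ : ℍ => ModularForm.discriminant τ) := by
    unfold ModularForm.discriminant
    apply Continuous.pow
    rw [continuous_iff_continuousAt]
    intro τ
    have := (ModularForm.differentiableAt_eta_of_mem_upperHalfPlaneSet (z := (τ : ℂ)) τ.2).continuousAt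
    exact this.comp continuous_coe.continuousAt
  unfold j
  exact ((h1.pow 3).div h2 (fun τ => ModularForm.discriminant_ne_zero τ)).measurable

/-- MU1 -/
theorem mu1 : S_MU1 := by
  refine ⟨mu1_j, ?_⟩
  unfold mu
  rw [Measure.map_apply mu1_j MeasurableSet.univ, preimage_univ, Measure.smul_apply,
    Measure.restrict_apply_univ, mu1_fd, smul_eq_mul, ← ENNReal.ofReal_mul (by positivity)]
  rw [show 3 / Real.pi * (Real.pi / 3) = 1 by field_simp, ENNReal.ofReal_one]

end Pool.Agent.Y818.IC
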