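import Pool.Agent.Y818.IC.MU1

/-!
# The invariant measure of `Y(1)` is finite

Author: helper15.
-/

set_option autoImplicit false

open MeasureTheory

namespace Pool.Agent.Y818.IC

/-- MUF -/
theorem muf : S_MUF := ⟨by rw [mu1.2]; exact ENNReal.one_lt_top⟩

end Pool.Agent.Y818.IC
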