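import Pool.Agent.Y818.IC.Stm2

/-!
# Project IC: approximation by sums of products of smooth functions (author: helper350, after the
file SW.lean of helper73)
-/

set_option autoImplicit false

namespace Pool.Agent.Y818.IC

/-- sums of products of smooth functions of one variable -/
def sws_P {n : ℕ} (K : Set (Fin n → ℂ)) (F : K → ℝ) : Prop :=
  ∃ (κ : Type) (_ : Fintype κ) (a : κ → ℝ) (g : κ → Fin n → ℂ → ℝ),
    (∀ i k, ContDiff ℝ (⊤ : ℕ∞) (g i k)) ∧ ∀ w : K, F w = ∑ i, a i * ∏ k, g i k (w.1 k)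

theorem sws_one {n : ℕ} (K : Set (Fin n → ℂ)) (g : Fin n → ℂ → ℝ)
    (hg : ∀ k, ContDiff ℝ (⊤ : ℕ∞) (g k)) (r : ℝ) : sws_P K (fun w => r * ∏ k, g k (w.1 k)) :=
  ⟨Unit, inferInstance, fun _ => r, fun _ => g, fun _ => hg, fun w => by simp⟩

theorem sws_add {n : ℕ} (K : Set (Fin n → ℂ)) {F G : K → ℝ} (hF : sws_P K F) (hG : sws_P K G) :
    sws_P K (fun w => F w + G w) := by
  obtain ⟨κ, _, a, g, h1, h2⟩ := hF
  obtain ⟨κ', _, a', g', h1', h2'⟩ := hG
  refine ⟨κ ⊕ κ', inferInstance, Sum.elim a a', Sum.elim g g', ?_, fun w => ?_⟩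
  · rintro (i | i) k
    · exact h1 i k
    · exact h1' i k
  · show F w + G w = _
    rw [h2, h2', Fintype.sum_sum_type]
    rfl

theorem sws_mul {n : ℕ} (K : Set (Fin n → ℂ)) {F G : K → ℝ} (hF : sws_P K F) (hG : sws_P K G) :
    sws_P K (fun w => F w * G w) := by
  obtain ⟨κ, _, a, g, h1, h2⟩ := hF
  obtain ⟨κ', _, a', g', h1', h2'⟩ := hG
  refine ⟨κ × κ', inferInstance, fun i => a i.1 * a' i.2, fun i k z => g i.1 k z * g' i.2 k z,
    fun i k => (h1 _ _).mul (h1' _ _), fun w => ?_⟩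
  show F w * G w = ∑ i : κ × κ', a i.1 * a' i.2 * ∏ k, g i.1 k (w.1 k) * g' i.2 k (w.1 k)
  rw [h2, h2', Fintype.sum_prod_type, Finset.sum_mul]
  refine Finset.sum_congr rfl fun i _ => ?_
  rw [Finset.mul_sum]
  refine Finset.sum_congr rfl fun j _ => ?_
  rw [Finset.prod_mul_distrib]
  ring

/-- the algebra of the sums of products -/
def sws_A {n : ℕ} (K : Set (Fin n → ℂ)) : Subalgebra ℝ C(K, ℝ) where
  carrier := {F | sws_P K F}
  mul_mem' := fun {F G} hF hG => sws_mul K hF hG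
  add_mem' := fun {F G} hF hG => sws_add K hF hG
  algebraMap_mem' := fun r => by
    have h := sws_one K (fun _ _ => 1) (fun _ => contDiff_const) r
    have e : (fun w : K => r * ∏ k : Fin n, (fun (_ : Fin n) (_ : ℂ) => (1 : ℝ)) k (w.1 k)) =
        (algebraMap ℝ C(K, ℝ) r : C(K, ℝ)) := by
      ext w
      simp
    rw [e] at h
    exact h

theorem sws_fun {n : ℕ} (K : Set (Fin n → ℂ)) (k : Fin n) (φ : ℂ → ℝ)
    (hφ : ContDiff ℝ (⊤ : ℕ∞) φ) : sws_P K (fun w => φ (w.1 k)) := by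
  have h := sws_one K (fun l z => if l = k then φ z else 1) (fun l => by
    by_cases hl : l = k
    · simp only [hl, if_true]
      exact hφ
    · simp only [hl, if_false]
      exact contDiff_const) 1
  have e : (fun w : K => (1 : ℝ) * ∏ l : Fin n,
      (fun (l : Fin n) (z : ℂ) => if l = k then φ z else 1) l (w.1 l)) =
      fun w : K => φ (w.1 k) := by
    funext w
    rw [one_mul, Finset.prod_eq_single k]
    · simp
    · intro l _ hl
      simp [hl]
    · intro h
      exact absurd (Finset.mem_univ _) h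
  rw [e] at h
  exact h

theorem sws_re : ContDiff ℝ (⊤ : ℕ∞) (fun z : ℂ => z.re) := Complex.reCLM.contDiff

theorem sws_im : ContDiff ℝ (⊤ : ℕ∞) (fun z : ℂ => z.im) := Complex.imCLM.contDiff

theorem sws_sep {n : ℕ} (K : Set (Fin n → ℂ)) : (sws_A K).SeparatesPoints := by
  intro x y hxy
  have h1 : ∃ k, x.1 k ≠ y.1 k := by
    by_contra h
    push Not at h
    exact hxy (Subtype.ext (funext h))
  obtain ⟨k, hk⟩ := h1
  have hφ : ∃ φ : ℂ → ℝ, ContDiff ℝ (⊤ : ℕ∞) φ ∧ φ (x.1 k) ≠ φ (y.1 k) := by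
    by_cases hre : (x.1 k).re = (y.1 k).re
    · exact ⟨fun z => z.im, sws_im, fun him => hk (Complex.ext hre him)⟩
    · exact ⟨fun z => z.re, sws_re, hre⟩
  obtain ⟨φ, hφ1, hφ2⟩ := hφ
  have hc : Continuous (fun w : K => φ (w.1 k)) :=
    hφ1.continuous.comp ((continuous_apply k).comp continuous_subtype_val)
  exact ⟨fun w => φ (w.1 k), ⟨⟨_, hc⟩, sws_fun K k φ hφ1, rfl⟩, hφ2⟩

theorem sws : S_SWS := by
  intro n f hf hfs ε hε
  obtain ⟨R₀, hR₀⟩ := hfs.isCompact.isBounded.subset_closedBall (0 : Fin n → ℂ)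
  set R : ℝ := max R₀ 1 with hRdef
  have hR1 : 0 < R := lt_of_lt_of_le one_pos (le_max_right _ _)
  have hfR : ∀ w, f w ≠ 0 → ∀ k, ‖w k‖ ≤ R := by
    intro w hw k
    have h1 := hR₀ (subset_tsupport f hw)
    rw [mem_closedBall_zero_iff] at h1
    exact ((norm_le_pi_norm w k).trans h1).trans (le_max_left _ _)
  let χ : ContDiffBump (0 : ℂ) := ⟨R, R + 1, hR1, by linarith⟩
  have hχc : ContDiff ℝ (⊤ : ℕ∞) (fun z => χ z) := χ.contDiff
  have hχ0 : ∀ z, 0 ≤ χ z := fun z => χ.nonneg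
  have hχ1 : ∀ z, χ z ≤ 1 := fun z => χ.le_one
  have hχR : ∀ z, ‖z‖ ≤ R → χ z = 1 := by
    intro z hz
    apply χ.one_of_mem_closedBall
    rw [mem_closedBall_zero_iff]
    exact hz
  have hχR' : ∀ z, R + 1 < ‖z‖ → χ z = 0 := by
    intro z hz
    apply χ.zero_of_le_dist
    rw [dist_zero_right]
    exact hz.le
  have hχs : HasCompactSupport (fun z => χ z) := χ.hasCompactSupport
  set K : Set (Fin n → ℂ) := Set.pi Set.univ (fun _ => Metric.closedBall (0 : ℂ) (R + 1)) with hK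
  have hKc : CompactSpace K :=
    isCompact_iff_compactSpace.1 (isCompact_univ_pi (fun _ => isCompact_closedBall _ _))
  obtain ⟨⟨G, κ, _, a, g, hg1, hg2⟩, hG⟩ :=
    ContinuousMap.exists_mem_subalgebra_near_continuous_of_separatesPoints (sws_A K) (sws_sep K)
      (fun w : K => f w.1) (hf.comp continuous_subtype_val) ε hε
  have e := (Fintype.equivFin κ).symm
  refine ⟨Fintype.card κ, fun i => a (e i), fun i k z => χ z * g (e i) k z, ?_, ?_⟩
  · intro i k
    exact ⟨hχc.mul (hg1 _ _), hχs.mul_right⟩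
  · intro w
    have h1 : ∑ i, a (e i) * ∏ k, (χ (w k) * g (e i) k (w k)) =
        (∏ k, χ (w k)) * ∑ i, a i * ∏ k, g i k (w k) := by
      rw [Equiv.sum_comp e (fun i => a i * ∏ k, (χ (w k) * g i k (w k))), Finset.mul_sum]
      refine Finset.sum_congr rfl fun i _ => ?_
      rw [Finset.prod_mul_distrib]
      ring
    have h2 : f w = (∏ k, χ (w k)) * f w := by
      by_cases h : f w = 0
      · rw [h, mul_zero]
      · rw [Finset.prod_eq_one (fun k _ => hχR _ (hfR w h k)), one_mul]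
    show |f w - ∑ i, a (e i) * ∏ k, (χ (w k) * g (e i) k (w k))| ≤ ε
    rw [h1, h2, ← mul_sub, abs_mul]
    by_cases hw : w ∈ K
    · have h3 := hG ⟨w, hw⟩
      have h4 := hg2 ⟨w, hw⟩
      rw [Real.norm_eq_abs, abs_sub_comm] at h3
      have h5 : |f w - ∑ i, a i * ∏ k, g i k (w k)| ≤ ε := by
        have h6 : (G : K → ℝ) ⟨w, hw⟩ = ∑ i, a i * ∏ k, g i k (w k) := h4
        rw [← h6]
        exact h3.le
      have h7 : |∏ k, χ (w k)| ≤ 1 := by
        rw [Finset.abs_prod]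
        apply Finset.prod_le_one
        · intro k _
          exact abs_nonneg _
        · intro k _
          rw [abs_of_nonneg (hχ0 _)]
          exact hχ1 _
      calc |∏ k, χ (w k)| * |f w - ∑ i, a i * ∏ k, g i k (w k)|
          ≤ 1 * ε := mul_le_mul h7 h5 (abs_nonneg _) zero_le_one
        _ = ε := one_mul _
    · have h3 : ∃ k, R + 1 < ‖w k‖ := by
        by_contra h
        push Not at h
        apply hw
        intro k _
        rw [mem_closedBall_zero_iff]
        exact h k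
      obtain ⟨k, hk⟩ := h3
      have h4 : ∏ k, χ (w k) = 0 := Finset.prod_eq_zero (Finset.mem_univ k) (hχR' _ hk)
      rw [h4, abs_zero, zero_mul]
      exact hε.le

end Pool.Agent.Y818.IC
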