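import Pool.Agent.Y818.IC.Stm2

/-!
# Project IC: the mean square over all points with given discriminants (author: helper350)
-/

set_option autoImplicit false

namespace Pool.Agent.Y818.IC

/-- The sum over a finite set of the mean values over the classes of a partition is the sum. -/
theorem var_double {α : Type*} {X : Set α} (hX : X.Finite) (O : α → Set α)
    (h1 : ∀ x ∈ X, O x ⊆ X) (h2 : ∀ x ∈ X, x ∈ O x) (h3 : ∀ x ∈ X, ∀ y ∈ O x, O y = O x)
    (F : α → ℝ) : (∑ᶠ x ∈ X, avg (O x) F) = ∑ᶠ x ∈ X, F x := by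
  classical
  rw [finsum_mem_eq_finite_toFinset_sum _ hX, finsum_mem_eq_finite_toFinset_sum _ hX]
  have hs : ∀ x ∈ X, (O x).Finite := fun x hx => hX.subset (h1 x hx)
  have e1 : ∀ x ∈ hX.toFinset, avg (O x) F =
      ∑ y ∈ hX.toFinset, if y ∈ O x then F y / ((O x).ncard : ℝ) else 0 := by
    intro x hx
    have hx' : x ∈ X := hX.mem_toFinset.1 hx
    rw [avg, finsum_mem_eq_finite_toFinset_sum _ (hs x hx'), Finset.sum_div, ← Finset.sum_filter]
    refine Finset.sum_congr ?_ fun _ _ => rfl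
    ext y
    simp only [Set.Finite.mem_toFinset, Finset.mem_filter]
    exact ⟨fun h => ⟨h1 x hx' h, h⟩, fun h => h.2⟩
  rw [Finset.sum_congr rfl e1, Finset.sum_comm]
  refine Finset.sum_congr rfl fun y hy => ?_
  have hy' : y ∈ X := hX.mem_toFinset.1 hy
  have e2 : ∀ x ∈ hX.toFinset, (if y ∈ O x then F y / ((O x).ncard : ℝ) else 0) =
      if x ∈ O y then F y / ((O y).ncard : ℝ) else 0 := by
    intro x hx
    have hx' : x ∈ X := hX.mem_toFinset.1 hx
    by_cases h : y ∈ O x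
    · have h4 := h3 x hx' y h
      rw [if_pos h, if_pos (by rw [h4]; exact h2 x hx'), h4]
    · have : x ∉ O y := fun h' => h (by rw [h3 y hy' x h']; exact h2 y hy')
      rw [if_neg h, if_neg this]
  rw [Finset.sum_congr rfl e2, ← Finset.sum_filter, Finset.sum_const, nsmul_eq_mul]
  have e3 : (hX.toFinset.filter (fun x => x ∈ O y)).card = (O y).ncard := by
    rw [Set.ncard_eq_toFinset_card _ (hs y hy')]
    congr 1
    ext x
    simp only [Set.Finite.mem_toFinset, Finset.mem_filter]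
    exact ⟨fun h => h.2, fun h => ⟨h1 y hy' h, h⟩⟩
  have e4 : ((O y).ncard : ℝ) ≠ 0 := by
    have := (Set.ncard_pos (hs y hy')).2 ⟨y, h2 y hy'⟩
    exact_mod_cast this.ne'
  rw [e3]
  field_simp

theorem var_jensen {α : Type*} {S : Set α} (hS : S.Finite) (F : α → ℝ) :
    (avg S F) ^ 2 ≤ avg S (fun x => F x ^ 2) := by
  rw [avg, avg, finsum_mem_eq_finite_toFinset_sum _ hS, finsum_mem_eq_finite_toFinset_sum _ hS]
  have h := @sq_sum_le_card_mul_sum_sq α ℝ _ _ _ _ hS.toFinset F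
  rw [← Set.ncard_eq_toFinset_card _ hS] at h
  rcases Nat.eq_zero_or_pos S.ncard with h0 | h0
  · rw [h0]; simp
  · have h0' : (0 : ℝ) < (S.ncard : ℝ) := by exact_mod_cast h0
    rw [div_pow, div_le_div_iff₀ (by positivity) h0']
    nlinarith

theorem var_abs {α : Type*} {S : Set α} (hS : S.Finite) (F : α → ℝ) (K : ℝ) (hK : 0 ≤ K)
    (h : ∀ x ∈ S, |F x| ≤ K) : |avg S F| ≤ K := by
  rw [avg, finsum_mem_eq_finite_toFinset_sum _ hS, abs_div]
  rcases Nat.eq_zero_or_pos S.ncard with h0 | h0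
  · rw [h0]; simpa using hK
  · have h0' : (0 : ℝ) < (S.ncard : ℝ) := by exact_mod_cast h0
    rw [abs_of_pos h0', div_le_iff₀ h0']
    calc |∑ x ∈ hS.toFinset, F x| ≤ ∑ x ∈ hS.toFinset, |F x| := Finset.abs_sum_le_sum_abs _ _
      _ ≤ ∑ _x ∈ hS.toFinset, K := Finset.sum_le_sum fun x hx => h x (hS.mem_toFinset.1 hx)
      _ = K * (S.ncard : ℝ) := by
        rw [Finset.sum_const, nsmul_eq_mul, Set.ncard_eq_toFinset_card _ hS, mul_comm]

theorem var_sub {α : Type*} {S : Set α} (hS : S.Finite) (hne : S.Nonempty) (F : α → ℝ) (c : ℝ) :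
    avg S F - c = avg S (fun x => F x - c) := by
  have h0 : (S.ncard : ℝ) ≠ 0 := by
    have := (Set.ncard_pos hS).2 hne
    exact_mod_cast this.ne'
  rw [avg, avg, finsum_mem_eq_finite_toFinset_sum _ hS, finsum_mem_eq_finite_toFinset_sum _ hS,
    Finset.sum_sub_distrib, Finset.sum_const, nsmul_eq_mul, ← Set.ncard_eq_toFinset_card _ hS]
  field_simp

theorem var_avg {G A X : Type*} [Group G] [Group A] [Fintype A] [MulAction G X] (ρ : G →* A)
    (q : A → G) (hq : ∀ a, ρ (q a) = a) (x : X) (hx : ∀ σ τ : G, ρ σ = ρ τ → σ • x = τ • x)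
    (F : X → ℝ) : (MulAction.orbit G x).Finite ∧
    avg (MulAction.orbit G x) F = (∑ a, F (q a • x)) / (Fintype.card A : ℝ) := by
  classical
  have hfin : (MulAction.orbit G x).Finite := by
    refine (Set.finite_range (fun a : A => q a • x)).subset ?_
    rintro _ ⟨g, rfl⟩
    exact ⟨ρ g, hx _ _ (hq _)⟩
  refine ⟨hfin, ?_⟩
  have : Fintype (MulAction.orbit G x) := hfin.fintype
  have e1 : ∀ y : MulAction.orbit G x, ∑ a, F (q a • (y : X)) = ∑ a, F (q a • x) := by
    rintro ⟨_, ⟨g, rfl⟩⟩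
    rw [← Equiv.sum_comp (Equiv.mulRight (ρ g)) (fun a => F (q a • x))]
    refine Finset.sum_congr rfl fun a _ => ?_
    congr 1
    show q a • g • x = q (a * ρ g) • x
    rw [smul_smul]
    apply hx
    rw [map_mul, hq, hq]
  have e2 : ∀ a : A, ∑ y : MulAction.orbit G x, F (q a • (y : X)) =
      ∑ y : MulAction.orbit G x, F (y : X) := by
    intro a
    exact Equiv.sum_comp (MulAction.toPerm (q a) : Equiv.Perm (MulAction.orbit G x))
      (fun y => F (y : X))
  have e3 : ∑ y : MulAction.orbit G x, ∑ a, F (q a • (y : X)) =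
      (Fintype.card (MulAction.orbit G x) : ℝ) * ∑ a, F (q a • x) := by
    rw [Finset.sum_congr rfl fun y _ => e1 y, Finset.sum_const, nsmul_eq_mul, Finset.card_univ]
  have e4 : ∑ y : MulAction.orbit G x, ∑ a, F (q a • (y : X)) =
      (Fintype.card A : ℝ) * ∑ y : MulAction.orbit G x, F (y : X) := by
    rw [Finset.sum_comm, Finset.sum_congr rfl fun a _ => e2 a, Finset.sum_const, nsmul_eq_mul,
      Finset.card_univ]
  have hA : (Fintype.card A : ℝ) ≠ 0 := by
    exact_mod_cast (Fintype.card_pos).ne'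
  have hO : (Fintype.card (MulAction.orbit G x) : ℝ) ≠ 0 := by
    have : Nonempty (MulAction.orbit G x) := ⟨⟨x, MulAction.mem_orbit_self x⟩⟩
    exact_mod_cast (Fintype.card_pos).ne'
  have e5 : (∑ᶠ y ∈ MulAction.orbit G x, F y) = ∑ y : MulAction.orbit G x, F (y : X) := by
    rw [← finsum_set_coe_eq_finsum_mem, finsum_eq_sum_of_fintype]
  have e6 : ((MulAction.orbit G x).ncard : ℝ) = (Fintype.card (MulAction.orbit G x) : ℝ) := by
    rw [← Nat.card_coe_set_eq, Nat.card_eq_fintype_card]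
  rw [avg, e5, e6, div_eq_div_iff hO hA]
  rw [e3] at e4
  linarith

/-- Representatives for the image of a group of automorphisms in the permutations of a finite
stable set. -/
theorem var_rep {S : Set ℂ} (hS : S.Finite) (hst : ∀ σ : AutC, ∀ z ∈ S, σ z ∈ S)
    (A0 : Subgroup AutC) : ∃ (A : Type) (_ : Fintype A) (_ : Nonempty A) (q : A → AutC),
      (∀ a, q a ∈ A0) ∧
      (∀ (n : ℕ) (v : Fin n → ℂ), (∀ k, v k ∈ S) → ∀ F : (Fin n → ℂ) → ℝ,
        avg (orb A0 v) F = (∑ a, F (fun k => q a (v k))) / (Fintype.card A : ℝ)) ∧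
      (∀ z ∈ S, ((Nat.card {x : A × A // q x.1 z = q x.2 z} : ℕ) : ℝ) * ((orb1 A0 z).ncard : ℝ) =
        (Fintype.card A : ℝ) ^ 2) := by
  classical
  let T : SubMulAction AutC ℂ := ⟨S, fun σ z hz => hst σ z hz⟩
  have : Finite T := hS
  let ρ0 : A0 →* Equiv.Perm T := (MulAction.toPermHom AutC T).comp A0.subtype
  let A := ρ0.range
  have : Finite (Equiv.Perm T) := inferInstance
  have : Finite A := inferInstance
  have : Fintype A := Fintype.ofFinite A
  let ρ : A0 →* A := ρ0.rangeRestrict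
  have hsurj : Function.Surjective ρ := ρ0.rangeRestrict_surjective
  choose q hq using hsurj
  have hρ : ∀ σ τ : A0, ρ σ = ρ τ → ∀ z ∈ S, (σ : AutC) z = (τ : AutC) z := by
    intro σ τ h z hz
    have h1 : ρ0 σ = ρ0 τ := congrArg Subtype.val h
    have h2 : ρ0 σ ⟨z, hz⟩ = ρ0 τ ⟨z, hz⟩ := by rw [h1]
    exact congrArg Subtype.val h2
  refine ⟨A, inferInstance, ⟨1⟩, fun a => (q a : AutC), fun a => (q a).2, ?_, ?_⟩
  · intro n v hv F
    have h := (var_avg ρ q hq v (fun σ τ h => by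
      funext k
      exact hρ σ τ h (v k) (hv k)) F).2
    have e : orb A0 v = MulAction.orbit A0 v := by
      ext w
      constructor
      · rintro ⟨σ, hσ, rfl⟩
        exact ⟨⟨σ, hσ⟩, rfl⟩
      · rintro ⟨σ, rfl⟩
        exact ⟨σ.1, σ.2, rfl⟩
    rw [e, h]
    rfl
  · intro z hz
    have e : orb1 A0 z = MulAction.orbit A0 z := by
      ext w
      constructor
      · rintro ⟨σ, hσ, rfl⟩
        exact ⟨⟨σ, hσ⟩, rfl⟩
      · rintro ⟨σ, rfl⟩
        exact ⟨σ.1, σ.2, rfl⟩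
    have hx : ∀ σ τ : A0, ρ σ = ρ τ → σ • z = τ • z := fun σ τ h => hρ σ τ h z hz
    have hfin : (MulAction.orbit A0 z).Finite := (var_avg ρ q hq z hx (fun _ => 0)).1
    have hO : ((MulAction.orbit A0 z).ncard : ℝ) ≠ 0 := by
      have := (Set.ncard_pos hfin).2 ⟨z, MulAction.mem_orbit_self z⟩
      exact_mod_cast this.ne'
    have hA : (Fintype.card A : ℝ) ≠ 0 := by
      exact_mod_cast (Fintype.card_pos).ne'
    have e1 : ∀ b : A, (∑ a : A, if (q a : AutC) z = (q b : AutC) z then (1 : ℝ) else 0) =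
        (Fintype.card A : ℝ) / ((MulAction.orbit A0 z).ncard : ℝ) := by
      intro b
      have h := (var_avg ρ q hq z hx (fun y => if y = (q b : AutC) z then (1 : ℝ) else 0)).2
      have h1 : (∑ᶠ y ∈ MulAction.orbit A0 z, if y = (q b : AutC) z then (1 : ℝ) else 0) = 1 := by
        rw [finsum_mem_eq_finite_toFinset_sum _ hfin, Finset.sum_ite_eq', if_pos]
        exact hfin.mem_toFinset.2 ⟨q b, rfl⟩
      rw [avg, h1, div_eq_div_iff hO hA] at h
      rw [eq_div_iff hO]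
      have h2 : (∑ a : A, if (q a : AutC) z = (q b : AutC) z then (1 : ℝ) else 0) =
          ∑ a : A, if q a • z = (q b : AutC) z then (1 : ℝ) else 0 := rfl
      rw [h2, ← h, one_mul]
    have e2 : ((Nat.card {x : A × A // (q x.1 : AutC) z = (q x.2 : AutC) z} : ℕ) : ℝ) =
        ∑ b : A, ∑ a : A, if (q a : AutC) z = (q b : AutC) z then (1 : ℝ) else 0 := by
      rw [Nat.card_eq_fintype_card, Fintype.card_subtype, Finset.card_filter, Nat.cast_sum,
        Finset.sum_comm, ← Finset.univ_product_univ, Finset.sum_product]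
      refine Finset.sum_congr rfl fun a _ => Finset.sum_congr rfl fun b _ => ?_
      push_cast
      rfl
    rw [e, e2, Finset.sum_congr rfl fun b _ => e1 b, Finset.sum_const, nsmul_eq_mul,
      Finset.card_univ]
    field_simp

theorem var_index (hA : S_AUT) {n : ℕ} (D : Fin n → ℤ) (U : Subgroup AutC) (hU : U.index ≠ 0) :
    (U ⊓ ⨅ l, root (D l)).index ≠ 0 ∧
      (U ⊓ ⨅ l, root (D l)).index ≤ U.index.factorial * 2 ^ n := by
  have h1 : (⨅ l, root (D l)).index ≠ 0 :=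
    Subgroup.index_iInf_ne_zero fun l => (hA.2.1 (D l)).2.1
  refine ⟨Subgroup.index_inf_ne_zero hU h1, ?_⟩
  calc (U ⊓ ⨅ l, root (D l)).index ≤ U.index * (⨅ l, root (D l)).index :=
        Subgroup.index_inf_le
    _ ≤ U.index.factorial * 2 ^ n := by
      refine Nat.mul_le_mul (Nat.self_le_factorial _) ?_
      calc (⨅ l, root (D l)).index ≤ ∏ l, (root (D l)).index := Subgroup.index_iInf_le _
        _ ≤ ∏ _l : Fin n, 2 := Finset.prod_le_prod' fun l _ => (hA.2.1 (D l)).2.2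
        _ = 2 ^ n := by simp

theorem var_orb1 (hCM : CMTheory) (D : ℤ) (hD : D < 0) (A0 : Subgroup AutC) (h0 : A0.index ≠ 0)
    (z : ℂ) (hz : z ∈ sing D) : (sing D).ncard ≤ A0.index * (orb1 A0 z).ncard := by
  obtain ⟨hfin, hst, htr, -, -⟩ := hCM D hD
  have e1 : sing D = MulAction.orbit AutC z := by
    ext w
    constructor
    · intro hw
      obtain ⟨σ, -, h⟩ := htr z hz w hw
      exact ⟨σ, h⟩
    · rintro ⟨σ, rfl⟩
      exact hst σ z hz
  have e2 : orb1 A0 z = MulAction.orbit A0 z := by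
    ext w
    constructor
    · rintro ⟨σ, hσ, rfl⟩
      exact ⟨⟨σ, hσ⟩, rfl⟩
    · rintro ⟨σ, rfl⟩
      exact ⟨σ.1, σ.2, rfl⟩
  have e3 : (MulAction.stabilizer AutC z).subgroupOf A0 = MulAction.stabilizer A0 z := by
    ext σ
    rfl
  have e4 : (MulAction.stabilizer AutC z).relIndex A0 = (orb1 A0 z).ncard := by
    rw [Subgroup.relIndex, e3, MulAction.index_stabilizer, e2]
  have e5 : (MulAction.stabilizer AutC z).index = (sing D).ncard := by
    rw [MulAction.index_stabilizer, e1]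
  have e6 : (MulAction.stabilizer AutC z ⊓ A0).index = (orb1 A0 z).ncard * A0.index := by
    rw [← Subgroup.relIndex_mul_index (inf_le_right : MulAction.stabilizer AutC z ⊓ A0 ≤ A0),
      Subgroup.inf_relIndex_right, e4]
  have h7 : (orb1 A0 z).ncard ≠ 0 := by
    have hsub : orb1 A0 z ⊆ sing D := by
      rintro _ ⟨σ, -, rfl⟩
      exact hst σ z hz
    exact ((Set.ncard_pos (hfin.subset hsub)).2 ⟨z, 1, A0.one_mem, rfl⟩).ne'
  have h8 := Nat.le_of_dvd (Nat.pos_of_ne_zero (by rw [e6]; exact mul_ne_zero h7 h0))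
    (Subgroup.index_dvd_of_le
      (inf_le_left : MulAction.stabilizer AutC z ⊓ A0 ≤ MulAction.stabilizer AutC z))
  rw [e5, e6, mul_comm] at h8
  exact h8

theorem var_tele {n : ℕ} (F c : Fin n → ℝ) : ∏ l, F l - ∏ l, c l =
    ∑ l, (F l - c l) * ((∏ j ∈ Finset.univ.filter (· < l), c j) *
      ∏ j ∈ Finset.univ.filter (l < ·), F j) := by
  have h := Finset.prod_sub_ordered Finset.univ F (fun l => F l - c l)
  simp only [sub_sub_cancel] at h
  rw [h, sub_sub_cancel]
  exact Finset.sum_congr rfl fun l _ => mul_assoc _ _ _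

theorem var_bound {n : ℕ} (F c : Fin n → ℝ) (K : ℝ) (hK : 1 ≤ K) (hF : ∀ l, |F l| ≤ K)
    (hc : ∀ l, |c l| ≤ K) (l : Fin n) :
    |(∏ j ∈ Finset.univ.filter (· < l), c j) * ∏ j ∈ Finset.univ.filter (l < ·), F j| ≤ K ^ n := by
  have hK0 : 0 ≤ K := zero_le_one.trans hK
  rw [abs_mul, Finset.abs_prod, Finset.abs_prod]
  have h1 : ∀ (s : Finset (Fin n)) (G : Fin n → ℝ), (∀ l, |G l| ≤ K) →
      ∏ j ∈ s, |G j| ≤ K ^ s.card := by
    intro s G hG
    rw [← Finset.prod_const]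
    exact Finset.prod_le_prod (fun _ _ => abs_nonneg _) fun j _ => hG j
  have h2 : (Finset.univ.filter (· < l)).card + (Finset.univ.filter (l < ·)).card ≤ n := by
    rw [← Finset.card_union_of_disjoint (Finset.disjoint_filter.2 fun j _ h1 h2 =>
      absurd h1 (not_lt.2 h2.le))]
    exact (Finset.card_le_univ _).trans (by simp)
  calc (∏ j ∈ Finset.univ.filter (· < l), |c j|) * ∏ j ∈ Finset.univ.filter (l < ·), |F j|
      ≤ K ^ (Finset.univ.filter (· < l)).card * K ^ (Finset.univ.filter (l < ·)).card :=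
        mul_le_mul (h1 _ c hc) (h1 _ F hF) (Finset.prod_nonneg fun _ _ => abs_nonneg _)
          (pow_nonneg hK0 _)
    _ = K ^ ((Finset.univ.filter (· < l)).card + (Finset.univ.filter (l < ·)).card) := by
      rw [pow_add]
    _ ≤ K ^ n := pow_le_pow_right₀ hK h2

theorem var_card {n : ℕ} (D : Fin n → ℤ) :
    ((pts D).ncard : ℝ) = ∏ l, ((sing (D l)).ncard : ℝ) := by
  have h : (pts D).ncard = ∏ l, (sing (D l)).ncard := by
    have e : Nat.card (pts D) = Nat.card (∀ l, sing (D l)) :=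
      Nat.card_congr (Equiv.subtypePiEquivPi (p := fun (l : Fin n) (z : ℂ) => z ∈ sing (D l)))
    rw [← Nat.card_coe_set_eq, e, Nat.card_pi]
    exact Finset.prod_congr rfl fun l _ => Nat.card_coe_set_eq _
  rw [h]
  push_cast
  rfl

/-- VAR. -/
theorem var (hAut : S_AUT) (h : S_ABS2) : S_VAR := by
  classical
  intro hCM n D hD U hU f K δ hK hδ hf hchar
  have hK0 : 0 ≤ K := zero_le_one.trans hK
  obtain ⟨hi0, hi1⟩ := var_index hAut D U hU
  have hroot : ∀ l, (U ⊓ ⨅ l, root (D l)) ≤ root (D l) := fun l =>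
    inf_le_right.trans (iInf_le _ l)
  have hAU : (U ⊓ ⨅ l, root (D l)) ≤ U := inf_le_left
  generalize (U ⊓ ⨅ l, root (D l)) = A0 at hi0 hi1 hroot hAU
  -- the finite stable set
  let S : Set ℂ := ⋃ l, sing (D l)
  have hS : S.Finite := Set.finite_iUnion fun l => (hCM (D l) (hD l)).1
  have hst : ∀ σ : AutC, ∀ z ∈ S, σ z ∈ S := by
    intro σ z hz
    obtain ⟨l, hl⟩ := Set.mem_iUnion.1 hz
    exact Set.mem_iUnion.2 ⟨l, (hCM (D l) (hD l)).2.1 σ z hl⟩
  obtain ⟨A, hfA, hnA, q, hq1, hq2, hq3⟩ := var_rep hS hst A0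
  have hA0 : (Fintype.card A : ℝ) ≠ 0 := by
    exact_mod_cast (Fintype.card_pos).ne'
  obtain ⟨M, hM⟩ : ∃ M : ℝ, M = (U.index.factorial : ℝ) * 2 ^ n := ⟨_, rfl⟩
  have hM0 : 0 ≤ M := by rw [hM]; positivity
  have hMi : (A0.index : ℝ) ≤ M := by rw [hM]; exact_mod_cast hi1
  rw [← hM]
  have hpts : (pts D).Finite := by
    have e : pts D = Set.pi Set.univ fun l => sing (D l) := by ext v; simp [pts]
    rw [e]
    exact Set.Finite.pi fun l => (hCM (D l) (hD l)).1
  have horb_sub : ∀ (B : Subgroup AutC), ∀ v ∈ pts D, orb B v ⊆ pts D := by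
    rintro B v hv _ ⟨σ, -, rfl⟩ l
    exact (hCM (D l) (hD l)).2.1 σ (v l) (hv l)
  have horb_self : ∀ (B : Subgroup AutC) (v : Fin n → ℂ), v ∈ orb B v :=
    fun B v => ⟨1, B.one_mem, rfl⟩
  have horb_eq : ∀ (B : Subgroup AutC) (v w : Fin n → ℂ), w ∈ orb B v → orb B w = orb B v := by
    rintro B v _ ⟨σ, hσ, rfl⟩
    ext y
    constructor
    · rintro ⟨τ, hτ, rfl⟩
      exact ⟨τ * σ, B.mul_mem hτ hσ, rfl⟩
    · rintro ⟨τ, hτ, rfl⟩
      refine ⟨τ * σ⁻¹, B.mul_mem hτ (B.inv_mem hσ), ?_⟩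
      funext k
      show τ (v k) = τ (σ⁻¹ (σ (v k)))
      congr 1
      exact (AlgEquiv.symm_apply_apply σ (v k)).symm
  have horb_le : ∀ (v w : Fin n → ℂ), w ∈ orb U v → orb A0 w ⊆ orb U v := by
    rintro v _ ⟨σ, hσ, rfl⟩ _ ⟨τ, hτ, rfl⟩
    exact ⟨τ * σ, U.mul_mem (hAU hτ) hσ, rfl⟩
  obtain ⟨c, hc⟩ : ∃ c : Fin n → ℝ, c = fun l => avg (sing (D l)) (f l) := ⟨_, rfl⟩
  have hcK : ∀ l, |c l| ≤ K := by
    intro l
    rw [hc]
    exact var_abs (hCM (D l) (hD l)).1 (f l) K hK0 (hf l)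
  have hmain : ∏ l, avg (sing (D l)) (f l) = ∏ l, c l := by rw [hc]
  rw [hmain]
  obtain ⟨P, hP⟩ : ∃ P : (Fin n → ℂ) → ℝ, P = fun w => ∏ l, f l (w l) := ⟨_, rfl⟩
  rw [← hP]
  obtain ⟨Φ, hΦ⟩ : ∃ Φ : (Fin n → ℂ) → ℝ, Φ = fun v => avg (orb A0 v) P := ⟨_, rfl⟩
  -- (1)
  have s1 : ∀ v ∈ pts D, (avg (orb U v) P - ∏ l, c l) ^ 2 ≤
      avg (orb U v) (fun w => (Φ w - ∏ l, c l) ^ 2) := by
    intro v hv
    have hfin : (orb U v).Finite := hpts.subset (horb_sub U v hv)
    have e1 : avg (orb U v) P = avg (orb U v) Φ := by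
      rw [avg, avg, hΦ]
      congr 1
      exact (var_double hfin (fun w => orb A0 w) (fun w hw => horb_le v w hw)
        (fun w _ => horb_self A0 w) (fun w _ y hy => horb_eq A0 w y hy) P).symm
    rw [e1, var_sub hfin ⟨v, horb_self U v⟩]
    exact var_jensen hfin _
  have s2 : (∑ᶠ v ∈ pts D, (avg (orb U v) P - ∏ l, c l) ^ 2) ≤
      ∑ᶠ v ∈ pts D, (Φ v - ∏ l, c l) ^ 2 := by
    rw [← var_double hpts (fun v => orb U v) (horb_sub U) (fun v _ => horb_self U v)
      (fun v _ w hw => horb_eq U v w hw) (fun v => (Φ v - ∏ l, c l) ^ 2)]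
    rw [finsum_mem_eq_finite_toFinset_sum _ hpts, finsum_mem_eq_finite_toFinset_sum _ hpts]
    exact Finset.sum_le_sum fun v hv => s1 v (hpts.mem_toFinset.1 hv)
  -- (2)
  obtain ⟨H, hH⟩ : ∃ H : Fin n → (Fin n → ℂ) → A → ℝ, H = fun l v a =>
      (∏ j ∈ Finset.univ.filter (· < l), c j) *
        ∏ j ∈ Finset.univ.filter (l < ·), f j (q a (v j)) := ⟨_, rfl⟩
  obtain ⟨T, hT⟩ : ∃ T : Fin n → (Fin n → ℂ) → ℝ, T = fun l v =>
      (∑ a, (f l (q a (v l)) - c l) * H l v a) / (Fintype.card A : ℝ) := ⟨_, rfl⟩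
  have s3 : ∀ v ∈ pts D, Φ v - ∏ l, c l = ∑ l, T l v := by
    intro v hv
    have e1 : Φ v = (∑ a, ∏ l, f l (q a (v l))) / (Fintype.card A : ℝ) := by
      rw [hΦ]
      simp only
      rw [hq2 n v (fun k => Set.mem_iUnion.2 ⟨k, hv k⟩) P, hP]
    have e2 : ∑ l, T l v =
        (∑ a, ∑ l, (f l (q a (v l)) - c l) * H l v a) / (Fintype.card A : ℝ) := by
      rw [hT]
      simp only
      rw [← Finset.sum_div, Finset.sum_comm]
    have e3 : ∀ a, ∑ l, (f l (q a (v l)) - c l) * H l v a =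
        ∏ l, f l (q a (v l)) - ∏ l, c l := by
      intro a
      rw [hH]
      exact (var_tele (fun l => f l (q a (v l))) c).symm
    rw [e1, e2, Finset.sum_congr rfl fun a _ => e3 a, Finset.sum_sub_distrib, Finset.sum_const,
      nsmul_eq_mul, Finset.card_univ]
    field_simp
  have s4 : ∀ v ∈ pts D, (Φ v - ∏ l, c l) ^ 2 ≤ n * ∑ l, (T l v) ^ 2 := by
    intro v hv
    rw [s3 v hv]
    have := sq_sum_le_card_mul_sum_sq (s := Finset.univ) (f := fun l => T l v)
    simpa using this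
  have s5 : ∀ l, ∀ v ∈ pts D, avg ((fun x => Function.update v l x) '' sing (D l))
      (fun w => (T l w) ^ 2) ≤ M * (K ^ n) ^ 2 * δ ^ 2 := by
    intro l v hv
    have hfinl := (hCM (D l) (hD l)).1
    have hne : 0 < ((sing (D l)).ncard : ℝ) := by
      exact_mod_cast (Set.ncard_pos hfinl).2 ⟨v l, hv l⟩
    have hinj : Function.Injective (fun x => Function.update v l x) :=
      Function.update_injective v l
    rw [avg, Set.ncard_image_of_injective _ hinj, finsum_mem_image hinj.injOn, div_le_iff₀ hne]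
    have eH : ∀ x a, H l (Function.update v l x) a = H l v a := by
      intro x a
      rw [hH]
      simp only
      congr 1
      refine Finset.prod_congr rfl fun j hj => ?_
      have hjl : j ≠ l := ne_of_gt (Finset.mem_filter.1 hj).2
      rw [Function.update_of_ne hjl]
    have e : ∀ x, (T l (Function.update v l x)) ^ 2 =
        ((∑ a, (f l (q a x) - avg (sing (D l)) (f l)) * H l v a) / (Fintype.card A : ℝ)) ^ 2 := by
      intro x
      rw [hT]
      simp only [eH, Function.update_self, hc]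
    simp only [e]
    refine h hCM (D l) (hD l) (f l) δ hδ (hchar l) A q (fun a => hroot l (hq1 a)) M
      (fun z hz => ?_) (H l v) (K ^ n) (fun a => ?_)
    · have h1 := hq3 z (Set.mem_iUnion.2 ⟨l, hz⟩)
      have h2 : ((sing (D l)).ncard : ℝ) ≤ (A0.index : ℝ) * ((orb1 A0 z).ncard : ℝ) := by
        exact_mod_cast var_orb1 hCM (D l) (hD l) A0 hi0 z hz
      calc ((Nat.card {x : A × A // q x.1 z = q x.2 z} : ℕ) : ℝ) * ((sing (D l)).ncard : ℝ)
          ≤ ((Nat.card {x : A × A // q x.1 z = q x.2 z} : ℕ) : ℝ) *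
            ((A0.index : ℝ) * ((orb1 A0 z).ncard : ℝ)) :=
            mul_le_mul_of_nonneg_left h2 (Nat.cast_nonneg _)
        _ = (A0.index : ℝ) * (Fintype.card A : ℝ) ^ 2 := by rw [← h1]; ring
        _ ≤ M * (Fintype.card A : ℝ) ^ 2 := mul_le_mul_of_nonneg_right hMi (sq_nonneg _)
    · rw [hH]
      exact var_bound (fun j => f j (q a (v j))) c K hK
        (fun j => hf j _ ((hCM (D j) (hD j)).2.1 (q a) (v j) (hv j))) hcK l
  have s6 : ∀ l, (∑ᶠ v ∈ pts D, (T l v) ^ 2) ≤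
      (∏ l, ((sing (D l)).ncard : ℝ)) * (M * (K ^ n) ^ 2 * δ ^ 2) := by
    intro l
    have hsub : ∀ v ∈ pts D, (fun x => Function.update v l x) '' sing (D l) ⊆ pts D := by
      rintro v hv _ ⟨x, hx, rfl⟩ k
      by_cases hk : k = l
      · subst hk
        simpa using hx
      · simpa [Function.update_of_ne hk] using hv k
    rw [← var_double hpts (fun v => (fun x => Function.update v l x) '' sing (D l)) hsub
      (fun v hv => ⟨v l, hv l, Function.update_eq_self l v⟩) ?_ (fun v => (T l v) ^ 2)]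
    · rw [finsum_mem_eq_finite_toFinset_sum _ hpts, ← var_card D,
        Set.ncard_eq_toFinset_card _ hpts, ← nsmul_eq_mul, ← Finset.sum_const]
      exact Finset.sum_le_sum fun v hv => s5 l v (hpts.mem_toFinset.1 hv)
    · rintro v hv _ ⟨x, hx, rfl⟩
      simp only [Function.update_idem]
  calc (∑ᶠ v ∈ pts D, (avg (orb U v) P - ∏ l, c l) ^ 2)
      ≤ ∑ᶠ v ∈ pts D, (Φ v - ∏ l, c l) ^ 2 := s2
    _ ≤ (n : ℝ) * ∑ l, ∑ᶠ v ∈ pts D, (T l v) ^ 2 := by
      have e : ∀ l, (∑ᶠ v ∈ pts D, (T l v) ^ 2) = ∑ v ∈ hpts.toFinset, (T l v) ^ 2 :=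
        fun l => finsum_mem_eq_finite_toFinset_sum _ hpts
      rw [finsum_mem_eq_finite_toFinset_sum _ hpts, Finset.sum_congr rfl fun l _ => e l,
        Finset.sum_comm, Finset.mul_sum]
      exact Finset.sum_le_sum fun v hv => s4 v (hpts.mem_toFinset.1 hv)
    _ ≤ (n : ℝ) * ∑ _l : Fin n, (∏ l, ((sing (D l)).ncard : ℝ)) * (M * (K ^ n) ^ 2 * δ ^ 2) :=
      mul_le_mul_of_nonneg_left (Finset.sum_le_sum fun l _ => s6 l) (Nat.cast_nonneg _)
    _ = (n : ℝ) ^ 2 * M * K ^ (2 * n) * δ ^ 2 * ∏ l, ((sing (D l)).ncard : ℝ) := by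
      rw [Finset.sum_const, nsmul_eq_mul, Finset.card_univ, Fintype.card_fin]
      ring

end Pool.Agent.Y818.IC
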