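import Pool.Agent.Y818.IC.Stm
import Pool.Agent.Y4.Aut

/-!
# Automorphisms of the complex numbers and quadratic fields (helper237)

`aut : S_AUT`.
-/

set_option autoImplicit false

open Polynomial IntermediateField

namespace Pool.Agent.Y818.IC

/-- automorphisms of `ℂ` act transitively on the roots of an irreducible polynomial -/
theorem aut_root {p : ℚ[X]} (hp : Irreducible p) {z w : ℂ} (hz : p.eval₂ (algebraMap ℚ ℂ) z = 0)
    (hw : p.eval₂ (algebraMap ℚ ℂ) w = 0) : ∃ σ : AutC, σ z = w := by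
  have hF : Fact (Irreducible p) := ⟨hp⟩
  have hfd : FiniteDimensional ℚ (AdjoinRoot p) :=
    Module.Finite.of_basis (AdjoinRoot.powerBasis hp.ne_zero).basis
  have hnf : NumberField (AdjoinRoot p) :=
    { to_charZero := inferInstance, to_finiteDimensional := hfd }
  obtain ⟨σ, hσ⟩ := Pool.Agent.Y4.exists_aut_emb (AdjoinRoot.lift (algebraMap ℚ ℂ) z hz)
    (AdjoinRoot.lift (algebraMap ℚ ℂ) w hw)
  refine ⟨AlgEquiv.ofRingEquiv (f := σ) fun q => by simp, ?_⟩
  have h1 := congrArg (fun f : AdjoinRoot p →+* ℂ => f (AdjoinRoot.root p)) hσ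
  simp only [RingHom.comp_apply, AdjoinRoot.lift_root] at h1
  exact h1

/-- complex conjugation -/
noncomputable def aut_conj : AutC := Complex.conjAe.restrictScalars ℚ

theorem aut_conj_apply (z : ℂ) : aut_conj z = (starRingEnd ℂ) z := rfl

/-- a purely imaginary square root -/
theorem aut_sqrt {D : ℤ} (hD : D < 0) : ∃ s : ℂ, s ^ 2 = (D : ℂ) ∧ aut_conj s = -s ∧ s ≠ 0 := by
  refine ⟨(Real.sqrt (-(D : ℝ)) : ℂ) * Complex.I, ?_, ?_, ?_⟩
  · have h : (0 : ℝ) ≤ -(D : ℝ) := by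
      have : (D : ℝ) < 0 := by exact_mod_cast hD
      linarith
    rw [mul_pow, Complex.I_sq, ← Complex.ofReal_pow, Real.sq_sqrt h]
    push_cast
    ring
  · rw [aut_conj_apply, map_mul, Complex.conj_I, Complex.conj_ofReal]
    ring
  · have h : (0 : ℝ) < -(D : ℝ) := by
      have : (D : ℝ) < 0 := by exact_mod_cast hD
      linarith
    exact mul_ne_zero (by exact_mod_cast (Real.sqrt_pos.2 h).ne') Complex.I_ne_zero

/-- the roots are `s` and `-s` -/
theorem aut_sq {D : ℤ} {s t : ℂ} (hs : s ^ 2 = (D : ℂ)) (ht : t ^ 2 = (D : ℂ)) : t = s ∨ t = -s :=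
  sq_eq_sq_iff_eq_or_eq_neg.1 (by rw [hs, ht])

theorem aut_img {D : ℤ} {s : ℂ} (hs : s ^ 2 = (D : ℂ)) (σ : AutC) : (σ s) ^ 2 = (D : ℂ) := by
  rw [← map_pow, hs]
  exact map_intCast σ D

theorem aut_fix {D : ℤ} {s : ℂ} (hs : s ^ 2 = (D : ℂ)) {σ : AutC} :
    FixesRoot D σ ↔ σ s = s := by
  refine ⟨fun h => h s hs, fun h t ht => ?_⟩
  rcases aut_sq hs ht with rfl | rfl
  · exact h
  · rw [map_neg, h]

theorem aut_one {D E : ℤ} (hD : D < 0) (hE : E < 0) (h : ¬ IsSquare (E * D)) :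
    ∃ τ : AutC, FixesRoot D τ ∧ ¬ FixesRoot E τ := by
  obtain ⟨s, hs, hs1, hs0⟩ := aut_sqrt hD
  obtain ⟨t, ht, ht1, ht0⟩ := aut_sqrt hE
  have hirr : Irreducible (X ^ 2 - C (((E * D : ℤ)) : ℚ) : ℚ[X]) := by
    refine X_pow_sub_C_irreducible_of_prime Nat.prime_two fun b hb => h ?_
    have h1 : IsSquare (((E * D : ℤ)) : ℚ) := ⟨b, by rw [← hb]; ring⟩
    exact Rat.isSquare_intCast_iff.1 h1
  have hz : ∀ u : ℂ, u ^ 2 = ((E * D : ℤ) : ℂ) →
      (X ^ 2 - C (((E * D : ℤ)) : ℚ) : ℚ[X]).eval₂ (algebraMap ℚ ℂ) u = 0 := by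
    intro u hu
    rw [eval₂_sub, eval₂_pow, eval₂_X, eval₂_C, hu]
    simp
  have hst : (t * s) ^ 2 = ((E * D : ℤ) : ℂ) := by
    rw [mul_pow, hs, ht]; push_cast; ring
  obtain ⟨σ, hσ⟩ := aut_root hirr (hz (t * s) hst) (hz (-(t * s)) (by rw [neg_sq, hst]))
  rw [map_mul] at hσ
  have hneg : ∀ {x : ℂ}, x ≠ 0 → x ≠ -x := fun {x} hx h => hx (by
    have : x + x = 0 := by nth_rewrite 2 [h]; ring
    have h2 : (2 : ℂ) * x = 0 := by rw [two_mul, this]
    simpa using h2)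
  rcases aut_sq hs (aut_img hs σ) with h1 | h1
  · rcases aut_sq ht (aut_img ht σ) with h2 | h2
    · exfalso
      rw [h1, h2] at hσ
      exact hneg (mul_ne_zero ht0 hs0) hσ
    · exact ⟨σ, (aut_fix hs).2 h1, fun h => by
        have := (aut_fix ht).1 h
        rw [h2] at this
        exact hneg ht0 this.symm⟩
  · rcases aut_sq ht (aut_img ht σ) with h2 | h2
    · refine ⟨aut_conj * σ, (aut_fix hs).2 ?_, fun h => ?_⟩
      · rw [AlgEquiv.mul_apply, h1, map_neg, hs1, neg_neg]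
      · have := (aut_fix ht).1 h
        rw [AlgEquiv.mul_apply, h2, ht1] at this
        exact hneg ht0 this.symm
    · exfalso
      rw [h1, h2] at hσ
      exact hneg (mul_ne_zero ht0 hs0) (by linear_combination hσ)

theorem aut_stab {D : ℤ} {s : ℂ} (hs : s ^ 2 = (D : ℂ)) :
    root D = MulAction.stabilizer AutC s := by
  ext σ
  rw [mem_root, aut_fix hs, MulAction.mem_stabilizer_iff]
  rfl

theorem aut_two (D : ℤ) : (root D).Normal ∧ (root D).index ≠ 0 ∧ (root D).index ≤ 2 := by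
  obtain ⟨s, hs⟩ := IsAlgClosed.exists_pow_nat_eq (D : ℂ) (n := 2) (by norm_num)
  have hsub : MulAction.orbit AutC s ⊆ {s, -s} := by
    rintro _ ⟨σ, rfl⟩
    exact aut_sq hs (aut_img hs σ)
  have hfin : ({s, -s} : Set ℂ).Finite := Set.toFinite _
  refine ⟨⟨fun σ hσ g => ?_⟩, ?_, ?_⟩
  · rw [mem_root] at hσ ⊢
    intro t ht
    have h1 := hσ (g⁻¹ t) (aut_img ht g⁻¹)
    rw [AlgEquiv.mul_apply, AlgEquiv.mul_apply, h1, ← AlgEquiv.mul_apply, mul_inv_cancel]
    rfl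
  · rw [aut_stab hs, MulAction.index_stabilizer]
    exact (Set.ncard_pos (hfin.subset hsub)).2 ⟨s, MulAction.mem_orbit_self s⟩ |>.ne'
  · rw [aut_stab hs, MulAction.index_stabilizer]
    refine (Set.ncard_le_ncard hsub hfin).trans ?_
    refine (Set.ncard_insert_le _ _).trans ?_
    rw [Set.ncard_singleton]

theorem aut_three (d : ℤ) (c : ℕ) (hc : 0 < c) : root (d * (c : ℤ) ^ 2) = root d := by
  obtain ⟨s, hs⟩ := IsAlgClosed.exists_pow_nat_eq (d : ℂ) (n := 2) (by norm_num)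
  have hc' : (c : ℂ) ≠ 0 := by exact_mod_cast hc.ne'
  have hs' : (s * (c : ℂ)) ^ 2 = ((d * (c : ℤ) ^ 2 : ℤ) : ℂ) := by
    rw [mul_pow, hs]; push_cast; ring
  ext σ
  rw [mem_root, mem_root, aut_fix hs, aut_fix hs', map_mul, map_natCast]
  exact mul_left_inj' hc'

theorem aut_four (F : IntermediateField ℚ ℂ) (hF : FiniteDimensional ℚ F) :
    F.fixingSubgroup.index ≠ 0 := by
  obtain ⟨α, hα⟩ := Field.exists_primitive_element ℚ F
  have hF' : F = ℚ⟮(α : ℂ)⟯ := by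
    refine Eq.trans ?_ (lift_adjoin_simple ℚ F α)
    refine Eq.trans (lift_top ℚ F).symm ?_
    exact congrArg (fun G => lift G) hα.symm
  have hle : MulAction.stabilizer AutC (α : ℂ) ≤ F.fixingSubgroup := by
    rw [← IntermediateField.le_iff_le]
    refine hF'.le.trans ?_
    rw [IntermediateField.adjoin_simple_le_iff]
    rintro ⟨σ, hσ⟩
    exact hσ
  have hint : IsIntegral ℚ (α : ℂ) := (IsIntegral.of_finite ℚ α).map (IntermediateField.val F)
  have hne : (minpoly ℚ (α : ℂ)).map (algebraMap ℚ ℂ) ≠ 0 :=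
    (Polynomial.map_ne_zero_iff (algebraMap ℚ ℂ).injective).2 (minpoly.ne_zero hint)
  have hsub : MulAction.orbit AutC (α : ℂ) ⊆ (minpoly ℚ (α : ℂ)).rootSet ℂ := by
    rintro _ ⟨σ, rfl⟩
    rw [Polynomial.mem_rootSet]
    refine ⟨minpoly.ne_zero hint, ?_⟩
    show aeval (σ (α : ℂ)) (minpoly ℚ (α : ℂ)) = 0
    rw [aeval_algHom_apply, minpoly.aeval, map_zero]
  have hfin : ((minpoly ℚ (α : ℂ)).rootSet ℂ).Finite := Polynomial.rootSet_finite _ _
  have h1 : (MulAction.stabilizer AutC (α : ℂ)).index ≠ 0 := by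
    rw [MulAction.index_stabilizer]
    exact (Set.ncard_pos (hfin.subset hsub)).2 ⟨_, MulAction.mem_orbit_self _⟩ |>.ne'
  intro h0
  have := Subgroup.index_dvd_of_le hle
  rw [h0, zero_dvd_iff] at this
  exact h1 this

theorem aut : S_AUT := ⟨fun _ _ hD hE h => aut_one hD hE h, aut_two, aut_three, aut_four⟩

end Pool.Agent.Y818.IC
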