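import Pool.Agent.Y818.IC.HALF

/-!
Project IC, part FIB (by helper794): mean values over orbits, computed in the fibres of the
projection to some of the coordinates.
-/

set_option autoImplicit false

namespace Pool.Agent.Y818.IC

/-- Mean values over orbits, computed in the fibres of the projection to the coordinates in `A`. -/
theorem fib : S_FIB := by
  classical
  intro n U v A k hU f φ I ε hφ1 hφ2 h
  have hfin : (orb U v).Finite := by
    refine (Set.Finite.pi' (t := fun l => orb1 U (v l)) hU).subset ?_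
    rintro w ⟨σ, hσ, rfl⟩ l
    exact ⟨σ, hσ, rfl⟩
  have hO : ∀ w, w ∈ hfin.toFinset ↔ w ∈ orb U v := fun w => hfin.mem_toFinset
  have hne : hfin.toFinset.Nonempty := ⟨v, (hO v).2 ⟨1, U.one_mem, rfl⟩⟩
  have hε : 0 ≤ ε := (abs_nonneg _).trans (h 1 U.one_mem)
  let R : (Fin n → ℂ) → Finset (Fin n → ℂ) :=
    fun w => hfin.toFinset.filter (fun x => ∀ l ∈ A, x l = w l)
  have hR : ∀ w x, x ∈ R w ↔ x ∈ orb U v ∧ ∀ l ∈ A, x l = w l := fun w x => by
    rw [Finset.mem_filter, hO]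
  have main : ∀ w ∈ hfin.toFinset, |∑ x ∈ R w, φ x * (f (x k) - I)| ≤ ε * (R w).card := by
    intro w hw
    obtain ⟨σ, hσ, rfl⟩ := (hO w).1 hw
    obtain ⟨w, hwd⟩ : ∃ w : Fin n → ℂ, w = fun l => σ (v l) := ⟨_, rfl⟩
    rw [← hwd] at hw ⊢
    have hwl : ∀ l, w l = σ (v l) := fun l => by rw [hwd]
    obtain ⟨S, hS⟩ : ∃ S, S = U ⊓ fixingSubgroup AutC {x | ∃ l ∈ A, x = σ (v l)} := ⟨_, rfl⟩
    have hSm : ∀ ρ, ρ ∈ S ↔ ρ ∈ U ∧ ∀ l ∈ A, ρ (w l) = w l := by
      intro ρ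
      rw [hS, Subgroup.mem_inf, mem_fixingSubgroup_iff]
      constructor
      · rintro ⟨h1, h2⟩
        exact ⟨h1, fun l hl => h2 (w l) ⟨l, hl, hwl l⟩⟩
      · rintro ⟨h1, h2⟩
        refine ⟨h1, ?_⟩
        rintro _ ⟨l, hl, rfl⟩
        have h3 := h2 l hl
        rw [hwl] at h3
        exact h3
    have hY : (orb1 S (w k)).Finite := by
      refine (hU k).subset ?_
      rintro _ ⟨ρ, hρ, rfl⟩
      exact ⟨ρ * σ, U.mul_mem ((hSm ρ).1 hρ).1 hσ, by rw [hwl]; rfl⟩
    have hYm : ∀ y, y ∈ hY.toFinset ↔ y ∈ orb1 S (w k) := fun y => hY.mem_toFinset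
    have hYne : hY.toFinset.Nonempty := ⟨w k, (hYm _).2 ⟨1, S.one_mem, rfl⟩⟩
    have h1 : |∑ y ∈ hY.toFinset, (f y - I)| ≤ ε * hY.toFinset.card := by
      rw [← half_avg hY.toFinset hYne, hY.coe_toFinset, hwl k, hS]
      exact h σ hσ
    have hmap : ∀ x ∈ R w, x k ∈ hY.toFinset := by
      intro x hx
      obtain ⟨⟨τ, hτ, rfl⟩, h2⟩ := (hR w x).1 hx
      rw [hYm]
      refine ⟨τ * σ⁻¹, (hSm _).2 ⟨U.mul_mem hτ (U.inv_mem hσ), fun l hl => ?_⟩, ?_⟩
      · rw [← h2 l hl, h2 l hl, hwl l]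
        have h3 := h2 l hl
        simp only at h3
        rw [hwl l] at h3
        rw [AlgEquiv.mul_apply, ← AlgEquiv.mul_apply σ⁻¹ σ, inv_mul_cancel, AlgEquiv.one_apply]
        exact h3
      · rw [hwl k, AlgEquiv.mul_apply, ← AlgEquiv.mul_apply σ⁻¹ σ, inv_mul_cancel,
          AlgEquiv.one_apply]
    have hact : ∀ ρ ∈ S, ∀ x ∈ R w, (fun l => ρ (x l)) ∈ R w := by
      intro ρ hρ x hx
      obtain ⟨⟨τ, hτ, rfl⟩, h2⟩ := (hR w x).1 hx
      refine (hR w _).2 ⟨⟨ρ * τ, U.mul_mem ((hSm ρ).1 hρ).1 hτ, rfl⟩, fun l hl => ?_⟩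
      show ρ (τ (v l)) = w l
      have h3 : τ (v l) = w l := h2 l hl
      rw [h3]
      exact ((hSm ρ).1 hρ).2 l hl
    have hcard : ∀ y ∈ hY.toFinset, ((R w).filter (fun x => x k = y)).card =
        ((R w).filter (fun x => x k = w k)).card := by
      intro y hy
      obtain ⟨ρ, hρ, rfl⟩ := (hYm y).1 hy
      symm
      refine Finset.card_nbij' (fun x l => ρ (x l)) (fun x l => ρ⁻¹ (x l)) ?_ ?_ ?_ ?_
      · intro x hx
        rw [Finset.mem_coe, Finset.mem_filter] at hx ⊢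
        refine ⟨hact ρ hρ x hx.1, ?_⟩
        show ρ (x k) = ρ (w k)
        rw [hx.2]
      · intro x hx
        rw [Finset.mem_coe, Finset.mem_filter] at hx ⊢
        refine ⟨hact ρ⁻¹ (S.inv_mem hρ) x hx.1, ?_⟩
        show ρ⁻¹ (x k) = w k
        rw [hx.2, ← AlgEquiv.mul_apply ρ⁻¹ ρ, inv_mul_cancel, AlgEquiv.one_apply]
      · intro x _
        funext l
        show ρ⁻¹ (ρ (x l)) = x l
        rw [← AlgEquiv.mul_apply ρ⁻¹ ρ, inv_mul_cancel, AlgEquiv.one_apply]
      · intro x _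
        funext l
        show ρ (ρ⁻¹ (x l)) = x l
        rw [← AlgEquiv.mul_apply ρ ρ⁻¹, mul_inv_cancel, AlgEquiv.one_apply]
    obtain ⟨c, hc⟩ : ∃ c : ℕ, c = ((R w).filter (fun x => x k = w k)).card := ⟨_, rfl⟩
    have hsum : ∀ F : ℂ → ℝ, ∑ x ∈ R w, F (x k) = c * ∑ y ∈ hY.toFinset, F y := by
      intro F
      rw [← Finset.sum_fiberwise_of_maps_to hmap, Finset.mul_sum]
      refine Finset.sum_congr rfl fun y hy => ?_
      have e1 : ∀ x ∈ (R w).filter (fun x => x k = y), F (x k) = F y := by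
        intro x hx
        rw [(Finset.mem_filter.1 hx).2]
      rw [Finset.sum_congr rfl e1, Finset.sum_const, nsmul_eq_mul, hcard y hy, ← hc]
    have hcR : ((R w).card : ℝ) = c * hY.toFinset.card := by
      have e1 := hsum (fun _ => 1)
      rw [Finset.sum_const, Finset.sum_const, nsmul_eq_mul, nsmul_eq_mul, mul_one, mul_one] at e1
      exact e1
    have hφ : ∀ x ∈ R w, φ x * (f (x k) - I) = φ w * (f (x k) - I) := by
      intro x hx
      rw [hφ2 x w ((hR w x).1 hx).2]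
    rw [Finset.sum_congr rfl hφ, ← Finset.mul_sum, hsum (fun y => f y - I), abs_mul, abs_mul, hcR,
      Nat.abs_cast]
    have h2 : (0 : ℝ) ≤ c := Nat.cast_nonneg c
    calc |φ w| * (c * |∑ y ∈ hY.toFinset, (f y - I)|)
        ≤ 1 * (c * |∑ y ∈ hY.toFinset, (f y - I)|) :=
          mul_le_mul_of_nonneg_right (hφ1 w) (mul_nonneg h2 (abs_nonneg _))
      _ ≤ 1 * (c * (ε * hY.toFinset.card)) := by
          rw [one_mul, one_mul]
          exact mul_le_mul_of_nonneg_left h1 h2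
      _ = ε * (c * hY.toFinset.card) := by ring
  have h5 := half_part hfin.toFinset R (fun x => φ x * (f (x k) - I)) ε
    (fun w hw => (hR w w).2 ⟨(hO w).1 hw, fun _ _ => rfl⟩)
    (fun w _ => Finset.filter_subset _ _)
    (fun w _ w' hw' => by
      ext x
      rw [hR, hR]
      have h6 := ((hR w w').1 hw').2
      constructor
      · rintro ⟨h7, h8⟩
        exact ⟨h7, fun l hl => by rw [h8 l hl, h6 l hl]⟩
      · rintro ⟨h7, h8⟩
        exact ⟨h7, fun l hl => by rw [h8 l hl, h6 l hl]⟩) main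
  have h0 : (0 : ℝ) < hfin.toFinset.card := by exact_mod_cast Finset.card_pos.2 hne
  have e1 : avg (orb U v) (fun w => φ w * f (w k)) - avg (orb U v) φ * I =
      (∑ x ∈ hfin.toFinset, φ x * (f (x k) - I)) / hfin.toFinset.card := by
    have e2 : avg (orb U v) (fun w => φ w * f (w k)) =
        (∑ x ∈ hfin.toFinset, φ x * f (x k)) / hfin.toFinset.card := by
      rw [← half_avg_coe, hfin.coe_toFinset]
    have e3 : avg (orb U v) φ = (∑ x ∈ hfin.toFinset, φ x) / hfin.toFinset.card := by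
      rw [← half_avg_coe, hfin.coe_toFinset]
    have e4 : ∑ x ∈ hfin.toFinset, φ x * (f (x k) - I) =
        ∑ x ∈ hfin.toFinset, φ x * f (x k) - (∑ x ∈ hfin.toFinset, φ x) * I := by
      rw [Finset.sum_mul, ← Finset.sum_sub_distrib]
      exact Finset.sum_congr rfl fun x _ => mul_sub _ _ _
    rw [e2, e3, e4]
    ring
  rw [e1, abs_div, abs_of_pos h0, div_le_iff₀ h0]
  exact h5

end Pool.Agent.Y818.IC
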