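import Pool.Agent.Y818.IC.Stm

/-!
Project IC, part HALF (by helper794): mean values over the orbits of a smaller group.
-/

set_option autoImplicit false

namespace Pool.Agent.Y818.IC

/-- Sums over a set which is partitioned in classes. -/
theorem half_part {α : Type*} (O : Finset α) (R : α → Finset α) (g : α → ℝ) (ε : ℝ)
    (h1 : ∀ w ∈ O, w ∈ R w) (h2 : ∀ w ∈ O, R w ⊆ O) (h3 : ∀ w ∈ O, ∀ w' ∈ R w, R w' = R w)
    (h4 : ∀ w ∈ O, |∑ x ∈ R w, g x| ≤ ε * (R w).card) : |∑ w ∈ O, g w| ≤ ε * O.card := by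
  have hpos : ∀ w ∈ O, (0 : ℝ) < (R w).card := fun w hw => by
    exact_mod_cast Finset.card_pos.2 ⟨w, h1 w hw⟩
  have key : ∑ w ∈ O, g w = ∑ w ∈ O, (∑ x ∈ R w, g x) / (R w).card := by
    have e1 : ∑ w ∈ O, (∑ x ∈ R w, g x) / (R w).card =
        ∑ w ∈ O, ∑ x ∈ R w, g x / (R x).card := by
      refine Finset.sum_congr rfl fun w hw => ?_
      rw [Finset.sum_div]
      refine Finset.sum_congr rfl fun x hx => ?_
      rw [h3 w hw x hx]
    rw [e1, Finset.sum_comm' (t' := O) (s' := fun x => R x)]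
    · refine Finset.sum_congr rfl fun x hx => ?_
      rw [Finset.sum_const, nsmul_eq_mul]
      have := hpos x hx
      field_simp
    · intro w x
      constructor
      · rintro ⟨hw, hx⟩
        exact ⟨by rw [h3 w hw x hx]; exact h1 w hw, h2 w hw hx⟩
      · rintro ⟨hw, hx⟩
        exact ⟨h2 x hx hw, by rw [h3 x hx w hw]; exact h1 x hx⟩
  rw [key]
  refine (Finset.abs_sum_le_sum_abs _ _).trans ?_
  have h5 : ∀ w ∈ O, |(∑ x ∈ R w, g x) / (R w).card| ≤ ε := by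
    intro w hw
    rw [abs_div, abs_of_pos (hpos w hw), div_le_iff₀ (hpos w hw)]
    exact h4 w hw
  refine (Finset.sum_le_sum h5).trans ?_
  rw [Finset.sum_const, nsmul_eq_mul, mul_comm]

theorem half_avg_coe {α : Type*} (s : Finset α) (f : α → ℝ) :
    avg (s : Set α) f = (∑ x ∈ s, f x) / s.card := by
  rw [avg, finsum_mem_coe_finset, Set.ncard_coe_finset]

theorem half_avg {α : Type*} (s : Finset α) (hs : s.Nonempty) (f : α → ℝ) (I ε : ℝ) :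
    |avg (s : Set α) f - I| ≤ ε ↔ |∑ x ∈ s, (f x - I)| ≤ ε * s.card := by
  have h0 : (0 : ℝ) < s.card := by exact_mod_cast Finset.card_pos.2 hs
  have h1 : ∑ x ∈ s, (f x - I) = (avg (s : Set α) f - I) * s.card := by
    rw [half_avg_coe, Finset.sum_sub_distrib, Finset.sum_const, nsmul_eq_mul]
    field_simp
  rw [h1, abs_mul, abs_of_pos h0, mul_le_mul_iff_left₀ h0]

/-- Passage to a smaller group. -/
theorem half : S_HALF := by
  classical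
  intro S N z hS f I ε h
  have hO : ∀ w, w ∈ hS.toFinset ↔ w ∈ orb1 S z := fun w => hS.mem_toFinset
  let R : ℂ → Finset ℂ := fun w => hS.toFinset.filter (fun x => x ∈ orb1 (S ⊓ N) w)
  have hR : ∀ w x, x ∈ R w ↔ x ∈ orb1 S z ∧ x ∈ orb1 (S ⊓ N) w := fun w x => by
    rw [Finset.mem_filter, hO]
  have hsub : ∀ w ∈ orb1 S z, orb1 (S ⊓ N) w ⊆ orb1 S z := by
    rintro _ ⟨σ, hσ, rfl⟩ _ ⟨ρ, hρ, rfl⟩
    exact ⟨ρ * σ, S.mul_mem hρ.1 hσ, rfl⟩
  have hself : ∀ w, w ∈ orb1 (S ⊓ N) w := fun w => ⟨1, Subgroup.one_mem _, rfl⟩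
  have hclass : ∀ w, ∀ x ∈ orb1 (S ⊓ N) w, orb1 (S ⊓ N) x = orb1 (S ⊓ N) w := by
    rintro w _ ⟨ρ, hρ, rfl⟩
    ext y
    constructor
    · rintro ⟨τ, hτ, rfl⟩
      exact ⟨τ * ρ, Subgroup.mul_mem _ hτ hρ, rfl⟩
    · rintro ⟨τ, hτ, rfl⟩
      refine ⟨τ * ρ⁻¹, Subgroup.mul_mem _ hτ (Subgroup.inv_mem _ hρ), ?_⟩
      show τ w = τ (ρ⁻¹ (ρ w))
      rw [← AlgEquiv.mul_apply ρ⁻¹ ρ, inv_mul_cancel, AlgEquiv.one_apply]
  have hcoe : ∀ w ∈ hS.toFinset, ((R w : Finset ℂ) : Set ℂ) = orb1 (S ⊓ N) w := by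
    intro w hw
    ext x
    rw [Finset.mem_coe, hR]
    exact ⟨fun h => h.2, fun h => ⟨hsub w ((hO w).1 hw) h, h⟩⟩
  have h1 : ∀ w ∈ hS.toFinset, w ∈ R w := fun w hw => (hR w w).2 ⟨(hO w).1 hw, hself w⟩
  have h2 : ∀ w ∈ hS.toFinset, R w ⊆ hS.toFinset := fun w _ => Finset.filter_subset _ _
  have h3 : ∀ w ∈ hS.toFinset, ∀ w' ∈ R w, R w' = R w := by
    intro w _ w' hw'
    ext x
    rw [hR, hR, hclass w w' ((hR w w').1 hw').2]
  have h4 : ∀ w ∈ hS.toFinset, |∑ x ∈ R w, (f x - I)| ≤ ε * (R w).card := by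
    intro w hw
    rw [← half_avg (R w) ⟨w, h1 w hw⟩, hcoe w hw]
    obtain ⟨σ, hσ, rfl⟩ := (hO w).1 hw
    exact h σ hσ
  have h5 := half_part hS.toFinset R (fun x => f x - I) ε h1 h2 h3 h4
  rw [← half_avg hS.toFinset ⟨z, (hO z).2 ⟨1, S.one_mem, rfl⟩⟩, hS.coe_toFinset] at h5
  exact h5

end Pool.Agent.Y818.IC
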