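import Pool.Agent.Y818.IC.Stm

/-!
# Special points of the powers of the modular curve: product functions (IC-PRODJ, by helper672)
-/

set_option autoImplicit false

namespace Pool.Agent.Y818.IC

open MeasureTheory Finset

theorem prodj_orb_finite (hCM : CMTheory) {n : ℕ} (U : Subgroup AutC) (D : Fin n → ℤ)
    (v : Fin n → ℂ) (h : ∀ l, D l < 0 ∧ v l ∈ sing (D l)) : (orb U v).Finite := by
  refine (Set.Finite.pi' (fun l => (hCM (D l) (h l).1).1)).subset ?_
  rintro w ⟨σ, -, rfl⟩ l
  exact (hCM (D l) (h l).1).2.1 σ _ (h l).2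

theorem prodj_avg {X : Type*} {S : Set X} (hS : S.Finite) (f : X → ℝ) :
    avg S f = (∑ x ∈ hS.toFinset, f x) / (hS.toFinset.card : ℝ) := by
  rw [avg, finsum_mem_eq_finite_toFinset_sum _ hS, Set.ncard_eq_toFinset_card _ hS]

theorem prodj_avg_mul {X : Type*} {S : Set X} (hS : S.Finite) (c : ℝ) (f : X → ℝ) :
    avg S (fun x => c * f x) = c * avg S f := by
  rw [prodj_avg hS, prodj_avg hS, ← Finset.mul_sum, mul_div_assoc]

theorem prodj_avg_one {X : Type*} {S : Set X} (hS : S.Finite) (hne : S.Nonempty) :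
    avg S (fun _ => (1 : ℝ)) = 1 := by
  rw [prodj_avg hS, Finset.sum_const, nsmul_eq_mul, mul_one]
  refine div_self ?_
  rw [Nat.cast_ne_zero]
  exact (Finset.card_pos.mpr ((Set.Finite.toFinset_nonempty hS).mpr hne)).ne'

/-- The first `m` coordinates in the order. -/
def prodj_A {n : ℕ} (π : Equiv.Perm (Fin n)) (m : ℕ) : Finset (Fin n) :=
  (univ.filter fun l : Fin n => l.val < m).image π

theorem prodj_A_zero {n : ℕ} (π : Equiv.Perm (Fin n)) : prodj_A π 0 = ∅ := by
  simp [prodj_A]

theorem prodj_A_all {n : ℕ} (π : Equiv.Perm (Fin n)) : prodj_A π n = univ := by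
  ext k
  simp only [prodj_A, mem_image, mem_filter, mem_univ, true_and, iff_true]
  exact ⟨π.symm k, (π.symm k).isLt, π.apply_symm_apply k⟩

theorem prodj_A_Iio {n : ℕ} (π : Equiv.Perm (Fin n)) (k : Fin n) :
    prodj_A π k.val = (Finset.Iio k).image π := by
  unfold prodj_A
  congr 1
  ext l
  rw [mem_filter, Finset.mem_Iio]
  exact ⟨fun h => h.2, fun h => ⟨mem_univ l, h⟩⟩

theorem prodj_A_succ {n : ℕ} (π : Equiv.Perm (Fin n)) (k : Fin n) :
    prodj_A π (k.val + 1) = insert (π k) (prodj_A π k.val) := by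
  unfold prodj_A
  rw [← Finset.image_insert]
  congr 1
  ext l
  simp only [mem_filter, mem_univ, true_and, mem_insert, Fin.ext_iff]
  omega

theorem prodj_A_notMem {n : ℕ} (π : Equiv.Perm (Fin n)) (k : Fin n) :
    π k ∉ prodj_A π k.val := by
  simp only [prodj_A, mem_image, mem_filter, mem_univ, true_and, not_exists, not_and]
  intro l hl h
  rw [π.injective h] at hl
  exact lt_irrefl _ hl

theorem prodj : S_PRODJ := by
  intro hCM η hP n F hF f hf ε hε
  -- a common bound
  have hb : ∀ k, ∃ C : ℝ, ∀ x, |f k x| ≤ C := by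
    intro k
    obtain ⟨C, hC⟩ := (hf k).2.exists_bound_of_continuous (hf k).1
    exact ⟨C, fun x => by simpa [Real.norm_eq_abs] using hC x⟩
  choose C hC using hb
  set M : ℝ := 1 + ∑ k, |C k| with hM
  have hM1 : 1 ≤ M := by
    have : 0 ≤ ∑ k, |C k| := Finset.sum_nonneg fun k _ => abs_nonneg _
    linarith
  have hfM : ∀ k x, |f k x| ≤ M := by
    intro k x
    have h1 : |C k| ≤ ∑ k, |C k| :=
      Finset.single_le_sum (f := fun k => |C k|) (fun k _ => abs_nonneg _) (mem_univ k)
    have h2 := le_abs_self (C k)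
    have h3 := hC k x
    linarith
  set I : Fin n → ℝ := fun k => ∫ x, f k x ∂mu with hI
  set J : ℝ := 1 + ∑ k, |I k| with hJ
  have hJ1 : 1 ≤ J := by
    have : 0 ≤ ∑ k, |I k| := Finset.sum_nonneg fun k _ => abs_nonneg _
    linarith
  have hIJ : ∀ k, |I k| ≤ J := by
    intro k
    have h1 : |I k| ≤ ∑ k, |I k| :=
      Finset.single_le_sum (f := fun k => |I k|) (fun k _ => abs_nonneg _) (mem_univ k)
    linarith
  have hMn : (0 : ℝ) < M ^ n := pow_pos (by linarith) n
  -- the induction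
  have key : ∀ m : ℕ, m ≤ n → ∀ ε : ℝ, 0 < ε → ∃ B : ℝ, ∀ (D : Fin n → ℤ) (v : Fin n → ℂ),
      (∀ l, D l < 0 ∧ v l ∈ sing (D l)) → ∀ π : Equiv.Perm (Fin n),
      (∀ k : Fin n, Isolated η D (π k) ((Finset.Iio k).image π)) → (∀ l, B ≤ |(D l : ℝ)|) →
        |avg (orb F.fixingSubgroup v) (fun w => ∏ k ∈ prodj_A π m, f k (w k)) -
          ∏ k ∈ prodj_A π m, I k| ≤ ε := by
    intro m
    induction m with
    | zero =>
      intro _ ε hε
      refine ⟨0, fun D v hv π _ _ => ?_⟩
      have h1 := prodj_orb_finite hCM F.fixingSubgroup D v hv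
      have h2 : (orb F.fixingSubgroup v).Nonempty := ⟨v, 1, Subgroup.one_mem _, rfl⟩
      simp only [prodj_A_zero, prod_empty]
      rw [prodj_avg_one h1 h2, sub_self, abs_zero]
      exact hε.le
    | succ m ih =>
      intro hm ε hε
      obtain ⟨B₀, hB₀⟩ := ih (by omega) (ε / (2 * J)) (by positivity)
      have hpe : ∀ k : Fin n, ∃ B : ℝ, ∀ (D : Fin n → ℤ) (v : Fin n → ℂ),
          (∀ l, D l < 0 ∧ v l ∈ sing (D l)) → ∀ (k' : Fin n) (A : Finset (Fin n)),
          k' ∉ A → Isolated η D k' A → B ≤ |(D k' : ℝ)| →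
          ∀ φ : (Fin n → ℂ) → ℝ, (∀ w, |φ w| ≤ 1) →
            (∀ w w', (∀ l ∈ A, w l = w' l) → φ w = φ w') →
            |avg (orb F.fixingSubgroup v) (fun w => φ w * f k (w k')) -
              avg (orb F.fixingSubgroup v) φ * ∫ x, f k x ∂mu| ≤ ε / (2 * M ^ n) := fun k =>
        hP n F hF (f k) (hf k).1 (hf k).2 (ε / (2 * M ^ n)) (by positivity)
      choose B₁ hB₁ using hpe
      refine ⟨|B₀| + ∑ k, |B₁ k|, fun D v hv π hπ hB => ?_⟩
      have hs0 : 0 ≤ ∑ k, |B₁ k| := Finset.sum_nonneg fun k _ => abs_nonneg _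
      have h0 := hB₀ D v hv π hπ fun l => by
        have h1 := hB l
        have h2 := le_abs_self B₀
        linarith
      have hfin := prodj_orb_finite hCM F.fixingSubgroup D v hv
      set k : Fin n := π ⟨m, hm⟩ with hk
      have hA : prodj_A π m = (Finset.Iio (⟨m, hm⟩ : Fin n)).image π := prodj_A_Iio π ⟨m, hm⟩
      have hkA : k ∉ prodj_A π m := prodj_A_notMem π ⟨m, hm⟩
      have hS : prodj_A π (m + 1) = insert k (prodj_A π m) := prodj_A_succ π ⟨m, hm⟩
      set P : (Fin n → ℂ) → ℝ := fun w => ∏ l ∈ prodj_A π m, f l (w l) with hPdef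
      have hPb : ∀ w, |P w| ≤ M ^ n := by
        intro w
        rw [hPdef]
        simp only
        rw [Finset.abs_prod]
        calc ∏ l ∈ prodj_A π m, |f l (w l)| ≤ ∏ _l ∈ prodj_A π m, M :=
              Finset.prod_le_prod (fun l _ => abs_nonneg _) fun l _ => hfM l _
          _ = M ^ (prodj_A π m).card := by rw [Finset.prod_const]
          _ ≤ M ^ n := pow_le_pow_right₀ hM1 (by
              have := Finset.card_le_univ (prodj_A π m)
              rwa [Fintype.card_fin] at this)
      have h1 := hB₁ k D v hv k (prodj_A π m) hkA (hA ▸ hπ ⟨m, hm⟩) (by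
        have h1 := hB k
        have h2 : |B₁ k| ≤ ∑ k, |B₁ k| :=
          Finset.single_le_sum (f := fun k => |B₁ k|) (fun k _ => abs_nonneg _) (mem_univ k)
        have h3 := le_abs_self (B₁ k)
        have h4 := abs_nonneg B₀
        linarith) (fun w => (M ^ n)⁻¹ * P w) (fun w => by
          rw [abs_mul, abs_of_nonneg (inv_nonneg.mpr hMn.le)]
          calc (M ^ n)⁻¹ * |P w| ≤ (M ^ n)⁻¹ * M ^ n :=
                mul_le_mul_of_nonneg_left (hPb w) (inv_nonneg.mpr hMn.le)
            _ = 1 := inv_mul_cancel₀ hMn.ne') (fun w w' hww => by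
          have : P w = P w' := Finset.prod_congr rfl fun l hl => by rw [hww l hl]
          rw [this])
      have e1 : avg (orb F.fixingSubgroup v) (fun w => (M ^ n)⁻¹ * P w * f k (w k)) =
          (M ^ n)⁻¹ * avg (orb F.fixingSubgroup v) (fun w => P w * f k (w k)) := by
        rw [← prodj_avg_mul hfin]
        congr 1
        funext w
        ring
      rw [e1, prodj_avg_mul hfin] at h1
      have h2 : |avg (orb F.fixingSubgroup v) (fun w => P w * f k (w k)) -
          avg (orb F.fixingSubgroup v) P * I k| ≤ ε / 2 := by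
        have e2 : avg (orb F.fixingSubgroup v) (fun w => P w * f k (w k)) -
            avg (orb F.fixingSubgroup v) P * I k = M ^ n *
            ((M ^ n)⁻¹ * avg (orb F.fixingSubgroup v) (fun w => P w * f k (w k)) -
              (M ^ n)⁻¹ * avg (orb F.fixingSubgroup v) P * I k) := by
          field_simp
        rw [e2, abs_mul, abs_of_pos hMn]
        calc _ ≤ M ^ n * (ε / (2 * M ^ n)) := mul_le_mul_of_nonneg_left h1 hMn.le
          _ = ε / 2 := by field_simp
      have h3 : |avg (orb F.fixingSubgroup v) P * I k - (∏ l ∈ prodj_A π m, I l) * I k| ≤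
          ε / 2 := by
        rw [← sub_mul, abs_mul]
        calc _ ≤ ε / (2 * J) * J := mul_le_mul h0 (hIJ k) (abs_nonneg _) (by positivity)
          _ = ε / 2 := by field_simp
      have e3 : (fun w : Fin n → ℂ => ∏ l ∈ prodj_A π (m + 1), f l (w l)) =
          fun w => P w * f k (w k) := by
        funext w
        rw [hS, Finset.prod_insert hkA, mul_comm]
      have e4 : ∏ l ∈ prodj_A π (m + 1), I l = (∏ l ∈ prodj_A π m, I l) * I k := by
        rw [hS, Finset.prod_insert hkA, mul_comm]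
      rw [e3, e4]
      calc _ ≤ |avg (orb F.fixingSubgroup v) (fun w => P w * f k (w k)) -
            avg (orb F.fixingSubgroup v) P * I k| +
            |avg (orb F.fixingSubgroup v) P * I k - (∏ l ∈ prodj_A π m, I l) * I k| :=
            abs_sub_le _ _ _
        _ ≤ ε / 2 + ε / 2 := add_le_add h2 h3
        _ = ε := by ring
  obtain ⟨B, hB⟩ := key n le_rfl ε hε
  refine ⟨B, fun D v hv hO hBD => ?_⟩
  obtain ⟨π, hπ⟩ := hO
  have h1 := hB D v hv π hπ hBD
  rw [prodj_A_all] at h1
  exact h1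

end Pool.Agent.Y818.IC
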