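import Pool.Agent.Y818.IC.Stm

/-!
Project IC, part SEQ (by helper794): from the uniform statement to sequences.
-/

set_option autoImplicit false

open MeasureTheory Filter

namespace Pool.Agent.Y818.IC

/-- From the uniform statement to sequences. -/
theorem seq : S_SEQ := by
  intro hCM η hA n F hF v D hv hfin hord f hf1 hf2
  rw [Metric.tendsto_atTop]
  intro ε hε
  obtain ⟨B, hB⟩ := hA n F hF f hf1 hf2 (ε / 2) (by positivity)
  have h1 : {i : ℕ | ∃ l, |(D i l : ℝ)| < B}.Finite := by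
    have h2 : {i : ℕ | ∃ l, |(D i l : ℝ)| < B} ⊆
        ⋃ l : Fin n, ⋃ E ∈ (Finset.Ioo (-⌈B⌉) 0 : Finset ℤ), ⋃ c ∈ sing E, {i | v i l = c} := by
      rintro i ⟨l, hl⟩
      refine Set.mem_iUnion.2 ⟨l, Set.mem_iUnion₂.2 ⟨D i l, ?_, Set.mem_iUnion₂.2
        ⟨v i l, (hv i l).2, rfl⟩⟩⟩
      rw [Finset.mem_Ioo]
      refine ⟨?_, (hv i l).1⟩
      have h3 : (D i l : ℝ) < 0 := by exact_mod_cast (hv i l).1
      rw [abs_of_neg h3] at hl
      have h4 : -(D i l : ℝ) < ⌈B⌉ := hl.trans_le (Int.le_ceil B)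
      have h5 : -(D i l) < ⌈B⌉ := by exact_mod_cast h4
      linarith
    refine Set.Finite.subset (Set.finite_iUnion fun l => ?_) h2
    refine Set.Finite.biUnion (Finset.finite_toSet _) fun E hE => ?_
    refine Set.Finite.biUnion (hCM E (Finset.mem_Ioo.1 hE).2).1 fun c _ => hfin l c
  obtain ⟨N, hN⟩ := h1.bddAbove
  refine ⟨N + 1, fun i hi => ?_⟩
  have h2 : ∀ l, B ≤ |(D i l : ℝ)| := by
    intro l
    by_contra hc
    push Not at hc
    have := hN ⟨l, hc⟩
    omega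
  rw [Real.dist_eq]
  have h3 := hB (D i) (v i) (hv i) (hord i) h2
  linarith

end Pool.Agent.Y818.IC
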