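import Pool.Agent.Y818.IC.Stm

/-!
# Special points of the powers of the modular curve: sizes of orbits (IC-SIZE, by helper672)
-/

set_option autoImplicit false

namespace Pool.Agent.Y818.IC

theorem size_orb1 (U : Subgroup AutC) (z : ℂ) : orb1 U z = MulAction.orbit U z := by
  ext w
  constructor
  · rintro ⟨σ, hσ, rfl⟩
    exact ⟨⟨σ, hσ⟩, rfl⟩
  · rintro ⟨⟨σ, hσ⟩, rfl⟩
    exact ⟨σ, hσ, rfl⟩

theorem size_card (U : Subgroup AutC) (z : ℂ) :
    (orb1 U z).ncard = (MulAction.stabilizer AutC z).relIndex U := by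
  rw [size_orb1, ← MulAction.index_stabilizer, Subgroup.relIndex]
  rfl

theorem size_mono {B U : Subgroup AutC} (h : B ≤ U) (z : ℂ) : orb1 B z ⊆ orb1 U z := by
  rintro w ⟨σ, hσ, rfl⟩
  exact ⟨σ, h hσ, rfl⟩

theorem size_mem (U : Subgroup AutC) (z : ℂ) : z ∈ orb1 U z := ⟨1, U.one_mem, rfl⟩

/-- A subgroup of finite index: the orbit is not much smaller. -/
theorem size_sub {B U : Subgroup AutC} (h : B ≤ U) (z : ℂ) (h1 : B.relIndex U ≠ 0)
    (h2 : (orb1 B z).Finite) : (orb1 U z).ncard ≤ B.relIndex U * (orb1 B z).ncard := by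
  have h3 : (orb1 B z).ncard ≠ 0 := (Set.ncard_pos h2).mpr ⟨z, size_mem B z⟩ |>.ne'
  rw [size_card] at h3
  rw [size_card, size_card]
  have h4 := Subgroup.relIndex_inf_mul_relIndex (MulAction.stabilizer AutC z) B U
  rw [inf_eq_left.mpr h] at h4
  have h5 : (MulAction.stabilizer AutC z).relIndex U ∣
      (MulAction.stabilizer AutC z ⊓ B).relIndex U := Subgroup.relIndex_dvd_of_le_left U inf_le_left
  rw [← h4] at h5
  rw [mul_comm]
  exact Nat.le_of_dvd (Nat.pos_of_ne_zero (mul_ne_zero h3 h1)) h5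

theorem size_normal (X : Set ℂ) (hX : ∀ σ : AutC, ∀ x ∈ X, σ x ∈ X) :
    (fixingSubgroup AutC X).Normal := by
  refine ⟨fun n hn g => ?_⟩
  rw [mem_fixingSubgroup_iff] at hn ⊢
  intro y hy
  have h1 : n • (g⁻¹ • y) = g⁻¹ • y := hn _ (hX g⁻¹ y hy)
  rw [mul_smul, mul_smul, h1, smul_inv_smul]

theorem size_root_normal (D : ℤ) : (root D).Normal := by
  refine size_normal _ fun σ s hs => ?_
  change σ s ^ 2 = (D : ℂ)
  rw [← map_pow]
  have h1 : s ^ 2 = (D : ℂ) := hs
  rw [h1, map_intCast]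

theorem size_root_index (D : ℤ) : (root D).index ≠ 0 ∧ (root D).index ≤ 2 := by
  obtain ⟨s, hs⟩ := IsAlgClosed.exists_pow_nat_eq (D : ℂ) (n := 2) two_pos
  have h1 : root D = MulAction.stabilizer AutC s := by
    ext σ
    rw [mem_root, MulAction.mem_stabilizer_iff]
    constructor
    · intro h
      exact h s hs
    · intro h t ht
      have h2 : σ s = s := h
      rcases sq_eq_sq_iff_eq_or_eq_neg.mp (ht.trans hs.symm) with h3 | h3
      · rw [h3, h2]
      · rw [h3, map_neg, h2]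
  have h2 : MulAction.orbit AutC s ⊆ {s, -s} := by
    rintro w ⟨σ, rfl⟩
    change σ s = s ∨ σ s = -s
    refine sq_eq_sq_iff_eq_or_eq_neg.mp ?_
    rw [← map_pow, hs, map_intCast]
  have h3 : (MulAction.orbit AutC s).Finite := (Set.toFinite _).subset h2
  rw [h1, MulAction.index_stabilizer]
  refine ⟨((Set.ncard_pos h3).mpr ⟨s, MulAction.mem_orbit_self s⟩).ne', ?_⟩
  refine (Set.ncard_le_ncard h2 (Set.toFinite _)).trans ((Set.ncard_insert_le _ _).trans ?_)
  rw [Set.ncard_singleton]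

theorem size_iInf_root (Es : Finset ℤ) :
    (⨅ E ∈ Es, root E).index ≠ 0 ∧ (⨅ E ∈ Es, root E).index ≤ 2 ^ Es.card := by
  induction Es using Finset.induction_on with
  | empty => simp
  | insert E Es hE ih =>
    rw [Finset.iInf_insert, Finset.card_insert_of_notMem hE, pow_succ']
    have h1 := size_root_index E
    exact ⟨Subgroup.index_inf_ne_zero h1.1 ih.1,
      Subgroup.index_inf_le.trans (Nat.mul_le_mul h1.2 ih.2)⟩

theorem size_core (A : Subgroup AutC) (hA : A.index ≠ 0) :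
    A.normalCore.index ≠ 0 ∧ A.normalCore.index ≤ A.index.factorial := by
  have h1 : A.FiniteIndex := ⟨hA⟩
  have h2 : A.normalCore.index ∣ A.index.factorial := by
    rw [Subgroup.normalCore_eq_ker, Subgroup.index_ker, Subgroup.index_eq_card, ← Nat.card_perm]
    exact Subgroup.card_subgroup_dvd_card (MulAction.toPermHom AutC (AutC ⧸ A)).range
  exact ⟨fun h => (Nat.factorial_pos A.index).ne' (Nat.eq_zero_of_zero_dvd (h ▸ h2)),
    Nat.le_of_dvd (Nat.factorial_pos _) h2⟩

theorem size_fixAll_normal (hCM : CMTheory) {E : ℤ} (hE : E < 0) : (fixAll E).Normal :=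
  size_normal _ (hCM E hE).2.1

/-- The steps, one after the other. -/
theorem size_steps (step : S_STEP) (hCM : CMTheory) (D : ℤ) (hD : D < 0) (Es : Finset ℤ)
    (hEs : ∀ E ∈ Es, E < 0 ∧ ∃ τ : AutC, FixesRoot D τ ∧ ¬ FixesRoot E τ) (z : ℂ)
    (hz : z ∈ sing D) : ∀ B : Subgroup AutC, B.Normal → B ≤ root D → (∀ E ∈ Es, B ≤ root E) →
      (orb1 B z).ncard ≤ (tors D z).ncard ^ Es.card *
        (orb1 (B ⊓ ⨅ E ∈ Es, fixAll E) z).ncard := by
  induction Es using Finset.induction_on with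
  | empty =>
    intro B _ _ _
    simp
  | insert E Es hE ih =>
    intro B hB hBD hBE
    have hE' := hEs E (Finset.mem_insert_self E Es)
    have h1 := step hCM D E hD hE'.1 hE'.2 B hB hBD (hBE E (Finset.mem_insert_self E Es)) z hz
    have hN : (fixAll E).Normal := size_fixAll_normal hCM hE'.1
    have hB1 : (B ⊓ fixAll E).Normal := Subgroup.normal_inf_normal B (fixAll E)
    have h2 := ih (fun F hF => hEs F (Finset.mem_insert_of_mem hF)) (B ⊓ fixAll E) hB1
      (inf_le_left.trans hBD) (fun F hF => inf_le_left.trans (hBE F (Finset.mem_insert_of_mem hF)))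
    rw [Finset.iInf_insert, Finset.card_insert_of_notMem hE, pow_succ', ← inf_assoc, mul_assoc]
    exact h1.trans (Nat.mul_le_mul_left _ h2)

theorem size (step : S_STEP) : S_SIZE := by
  intro hCM D hD Es hEs Δ A hΔ hΔD hA z hz
  have hcore := size_core A hA
  have hroot := size_iInf_root Es
  set C : Subgroup AutC := A.normalCore ⊓ ⨅ E ∈ Es, root E with hC
  have hCN : C.Normal := by
    have h1 : A.normalCore.Normal := A.normalCore_normal
    have h2 : (⨅ E ∈ Es, root E).Normal :=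
      Subgroup.normal_iInf_normal fun E => Subgroup.normal_iInf_normal fun _ => size_root_normal E
    exact Subgroup.normal_inf_normal _ _
  have hC0 : C.index ≠ 0 := Subgroup.index_inf_ne_zero hcore.1 hroot.1
  have hC1 : C.index ≤ A.index.factorial * 2 ^ Es.card :=
    Subgroup.index_inf_le.trans (Nat.mul_le_mul hcore.2 hroot.2)
  set B : Subgroup AutC := Δ ⊓ C with hB
  have hBN : B.Normal := Subgroup.normal_inf_normal Δ C
  have hBrel : B.relIndex Δ = C.relIndex Δ := Subgroup.inf_relIndex_left Δ C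
  have hrel0 : B.relIndex Δ ≠ 0 := by
    rw [hBrel]
    intro h
    exact hC0 (Nat.eq_zero_of_zero_dvd (h ▸ Subgroup.relIndex_dvd_index_of_normal C Δ))
  have hrel1 : B.relIndex Δ ≤ A.index.factorial * 2 ^ Es.card := by
    rw [hBrel]
    exact (Nat.le_of_dvd (Nat.pos_of_ne_zero hC0)
      (Subgroup.relIndex_dvd_index_of_normal C Δ)).trans hC1
  have hfin : ∀ U : Subgroup AutC, (orb1 U z).Finite := by
    intro U
    refine (hCM D hD).1.subset ?_
    rintro w ⟨σ, -, rfl⟩
    exact (hCM D hD).2.1 σ z hz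
  have h1 := size_sub (inf_le_left : B ≤ Δ) z hrel0 (hfin B)
  have hBE : ∀ E ∈ Es, B ≤ root E := fun E hE =>
    inf_le_right.trans (inf_le_right.trans (iInf₂_le E hE))
  have h2 := size_steps step hCM D hD Es hEs z hz B hBN (inf_le_left.trans hΔD) hBE
  have h3 : (orb1 (B ⊓ ⨅ E ∈ Es, fixAll E) z).ncard ≤
      (orb1 (Δ ⊓ A ⊓ ⨅ E ∈ Es, fixAll E) z).ncard := by
    refine Set.ncard_le_ncard (size_mono ?_ z) (hfin _)
    refine inf_le_inf_right _ (inf_le_inf_left _ ?_)
    exact inf_le_left.trans A.normalCore_le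
  calc (orb1 Δ z).ncard ≤ B.relIndex Δ * (orb1 B z).ncard := h1
    _ ≤ (A.index.factorial * 2 ^ Es.card) * ((tors D z).ncard ^ Es.card *
        (orb1 (Δ ⊓ A ⊓ ⨅ E ∈ Es, fixAll E) z).ncard) :=
      Nat.mul_le_mul hrel1 (h2.trans (Nat.mul_le_mul_left _ h3))
    _ = _ := by rw [mul_assoc (A.index.factorial * 2 ^ Es.card)]

end Pool.Agent.Y818.IC
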