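import Pool.Agent.Y818.IC.Stm

/-!
# STEP: the sign trick (helper810)
-/

set_option autoImplicit false

namespace Pool.Agent.Y818.IC

theorem step_mul_apply (a b : AutC) (w : ℂ) : (a * b) w = a (b w) := rfl

theorem step_apply_inv (a : AutC) (w : ℂ) : a (a⁻¹ w) = w := by
  rw [← step_mul_apply, mul_inv_cancel]; rfl

theorem step_inv_apply (a : AutC) (w : ℂ) : a⁻¹ (a w) = w := by
  rw [← step_mul_apply, inv_mul_cancel]; rfl

theorem step : S_STEP := by
  intro cm D E hD hE hτ B hB hBD hBE z hz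
  obtain ⟨τ, hτD, hτE⟩ := hτ
  obtain ⟨finD, stabD, _, commD, _⟩ := cm D hD
  obtain ⟨_, stabE, _, _, invE⟩ := cm E hE
  -- the squares belong to the smaller orbit
  have key : ∀ g ∈ B, g (g z) ∈ orb1 (B ⊓ fixAll E) z := by
    intro g hg
    refine ⟨g * (τ * g * τ⁻¹), Subgroup.mem_inf.2 ⟨B.mul_mem hg (hB.conj_mem g hg τ), ?_⟩, ?_⟩
    · rw [mem_fixAll]
      intro w hw
      have h := invE g τ (mem_root.1 (hBE hg)) hτE (τ⁻¹ w) (stabE τ⁻¹ w hw)
      rw [step_apply_inv] at h
      exact h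
    · have h := commD τ g hτD (mem_root.1 (hBD hg)) (τ⁻¹ z) (stabD τ⁻¹ z hz)
      rw [step_apply_inv] at h
      show g (g z) = g (τ (g (τ⁻¹ z)))
      rw [h]
  have sub1 : ∀ (U : Subgroup AutC), orb1 U z ⊆ sing D := by
    rintro U w ⟨σ, _, rfl⟩
    exact stabD σ z hz
  have fin1 : (orb1 B z).Finite := finD.subset (sub1 B)
  have fin2 : (orb1 (B ⊓ fixAll E) z).Finite := finD.subset (sub1 _)
  have fin3 : (tors D z).Finite := by
    refine finD.subset ?_
    rintro w ⟨σ, _, rfl, _⟩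
    exact stabD σ z hz
  -- representatives
  have hch : ∀ w : ℂ, ∃ g : AutC, w ∈ orb1 B z → g ∈ B ∧ w = g z := by
    intro w
    by_cases h : w ∈ orb1 B z
    · obtain ⟨g, hg, hw⟩ := h
      exact ⟨g, fun _ => ⟨hg, hw⟩⟩
    · exact ⟨1, fun h' => absurd h' h⟩
  choose G hG using hch
  classical
  have hfib : ∀ a ∈ fin1.toFinset.image (fun w => G w (G w z)),
      (fin1.toFinset.filter (fun w => G w (G w z) = a)).card ≤ (tors D z).ncard := by
    intro a ha
    rw [Finset.mem_image] at ha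
    obtain ⟨w0, hw0, rfl⟩ := ha
    have hw0' := hG w0 (fin1.mem_toFinset.1 hw0)
    set h := G w0 with hh
    have hsub : ((fin1.toFinset.filter (fun w => G w (G w z) = h (h z)) : Finset ℂ) : Set ℂ) ⊆
        (fun x => h x) '' tors D z := by
      intro w hw
      rw [Finset.mem_coe, Finset.mem_filter, fin1.mem_toFinset] at hw
      obtain ⟨hw1, hw2⟩ := hw
      obtain ⟨hgB, hgz⟩ := hG w hw1
      set g := G w with hg
      have hgr : FixesRoot D g := mem_root.1 (hBD hgB)
      have hhr : FixesRoot D h⁻¹ := mem_root.1 ((root D).inv_mem (hBD hw0'.1))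
      have hkr : FixesRoot D (h⁻¹ * g) :=
        mem_root.1 ((root D).mul_mem ((root D).inv_mem (hBD hw0'.1)) (hBD hgB))
      refine ⟨(h⁻¹ * g) z, ⟨h⁻¹ * g, hkr, rfl, ?_⟩, ?_⟩
      · show h⁻¹ (g (h⁻¹ (g z))) = z
        rw [commD g h⁻¹ hgr hhr (g z) (stabD g z hz), hw2, step_inv_apply, step_inv_apply]
      · show h (h⁻¹ (g z)) = w
        rw [step_apply_inv, ← hgz]
    calc (fin1.toFinset.filter (fun w => G w (G w z) = h (h z))).card
        = ((fin1.toFinset.filter (fun w => G w (G w z) = h (h z)) : Finset ℂ) : Set ℂ).ncard :=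
          (Set.ncard_coe_finset _).symm
      _ ≤ ((fun x => h x) '' tors D z).ncard := Set.ncard_le_ncard hsub (fin3.image _)
      _ ≤ (tors D z).ncard := Set.ncard_image_le fin3
  have hmain := Finset.card_le_mul_card_image (f := fun w => G w (G w z)) fin1.toFinset
    (tors D z).ncard hfib
  have him : (fin1.toFinset.image (fun w => G w (G w z))).card ≤ (orb1 (B ⊓ fixAll E) z).ncard := by
    rw [← Set.ncard_coe_finset]
    refine Set.ncard_le_ncard ?_ fin2
    intro x hx
    rw [Finset.mem_coe, Finset.mem_image] at hx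
    obtain ⟨w, hw, rfl⟩ := hx
    exact key _ (hG w (fin1.mem_toFinset.1 hw)).1
  rw [Set.ncard_eq_toFinset_card _ fin1]
  exact hmain.trans (Nat.mul_le_mul_left _ him)

end Pool.Agent.Y818.IC
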