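import Pool.Agent.Y818.IC.Stm

/-!
# Project IC: approximation by sums of products (author: helper73)
-/

set_option autoImplicit false

namespace Pool.Agent.Y818.IC

/-- sums of products of continuous functions of one variable -/
def sw_P {n : ℕ} (K : Set (Fin n → ℂ)) (F : K → ℝ) : Prop :=
  ∃ (κ : Type) (_ : Fintype κ) (a : κ → ℝ) (g : κ → Fin n → ℂ → ℝ),
    (∀ i k, Continuous (g i k)) ∧ ∀ w : K, F w = ∑ i, a i * ∏ k, g i k (w.1 k)

theorem sw_one {n : ℕ} (K : Set (Fin n → ℂ)) (g : Fin n → ℂ → ℝ) (hg : ∀ k, Continuous (g k))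
    (r : ℝ) : sw_P K (fun w => r * ∏ k, g k (w.1 k)) :=
  ⟨Unit, inferInstance, fun _ => r, fun _ => g, fun _ => hg, fun w => by simp⟩

theorem sw_add {n : ℕ} (K : Set (Fin n → ℂ)) {F G : K → ℝ} (hF : sw_P K F) (hG : sw_P K G) :
    sw_P K (fun w => F w + G w) := by
  obtain ⟨κ, _, a, g, h1, h2⟩ := hF
  obtain ⟨κ', _, a', g', h1', h2'⟩ := hG
  refine ⟨κ ⊕ κ', inferInstance, Sum.elim a a', Sum.elim g g', ?_, fun w => ?_⟩
  · rintro (i | i) k
    · exact h1 i k
    · exact h1' i k
  · show F w + G w = _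
    rw [h2, h2', Fintype.sum_sum_type]
    rfl

theorem sw_mul {n : ℕ} (K : Set (Fin n → ℂ)) {F G : K → ℝ} (hF : sw_P K F) (hG : sw_P K G) :
    sw_P K (fun w => F w * G w) := by
  obtain ⟨κ, _, a, g, h1, h2⟩ := hF
  obtain ⟨κ', _, a', g', h1', h2'⟩ := hG
  refine ⟨κ × κ', inferInstance, fun i => a i.1 * a' i.2, fun i k z => g i.1 k z * g' i.2 k z,
    fun i k => (h1 _ _).mul (h1' _ _), fun w => ?_⟩
  show F w * G w = ∑ i : κ × κ', a i.1 * a' i.2 * ∏ k, g i.1 k (w.1 k) * g' i.2 k (w.1 k)
  rw [h2, h2', Fintype.sum_prod_type, Finset.sum_mul]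
  refine Finset.sum_congr rfl fun i _ => ?_
  rw [Finset.mul_sum]
  refine Finset.sum_congr rfl fun j _ => ?_
  rw [Finset.prod_mul_distrib]
  ring

/-- the algebra of the sums of products -/
def sw_A {n : ℕ} (K : Set (Fin n → ℂ)) : Subalgebra ℝ C(K, ℝ) where
  carrier := {F | sw_P K F}
  mul_mem' := fun {F G} hF hG => sw_mul K hF hG
  add_mem' := fun {F G} hF hG => sw_add K hF hG
  algebraMap_mem' := fun r => by
    have h := sw_one K (fun _ _ => 1) (fun _ => continuous_const) r
    have e : (fun w : K => r * ∏ k : Fin n, (fun (_ : Fin n) (_ : ℂ) => (1 : ℝ)) k (w.1 k)) =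
        (algebraMap ℝ C(K, ℝ) r : C(K, ℝ)) := by
      ext w
      simp
    rw [e] at h
    exact h

theorem sw_sep {n : ℕ} (K : Set (Fin n → ℂ)) : (sw_A K).SeparatesPoints := by
  intro x y hxy
  have h1 : ∃ k, x.1 k ≠ y.1 k := by
    by_contra h
    push Not at h
    exact hxy (Subtype.ext (funext h))
  obtain ⟨k, hk⟩ := h1
  have hc : Continuous (fun w : K => dist (w.1 k) (x.1 k)) :=
    ((continuous_apply k).comp continuous_subtype_val).dist continuous_const
  refine ⟨fun w => dist (w.1 k) (x.1 k), ⟨⟨_, hc⟩, ?_, rfl⟩, ?_⟩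
  · have h := sw_one K (fun l z => if l = k then dist z (x.1 k) else 1) (fun l => by
      by_cases hl : l = k
      · simp only [hl, if_true]
        exact continuous_id.dist continuous_const
      · simp only [hl, if_false]
        exact continuous_const) 1
    have e : (fun w : K => (1 : ℝ) * ∏ l : Fin n,
        (fun (l : Fin n) (z : ℂ) => if l = k then dist z (x.1 k) else 1) l (w.1 l)) =
        fun w : K => dist (w.1 k) (x.1 k) := by
      funext w
      rw [one_mul, Finset.prod_eq_single k]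
      · simp
      · intro l _ hl
        simp [hl]
      · intro h
        exact absurd (Finset.mem_univ _) h
    rw [e] at h
    exact h
  · show dist (x.1 k) (x.1 k) ≠ dist (y.1 k) (x.1 k)
    rw [dist_self]
    intro h
    exact hk (dist_eq_zero.1 h.symm).symm

theorem sw : S_SW := by
  intro n f hf hfs ε hε
  obtain ⟨R, hR⟩ := hfs.isCompact.isBounded.subset_closedBall (0 : Fin n → ℂ)
  have hfR : ∀ w, f w ≠ 0 → ∀ k, ‖w k‖ ≤ R := by
    intro w hw k
    have h1 := hR (subset_tsupport f hw)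
    rw [mem_closedBall_zero_iff] at h1
    exact (norm_le_pi_norm w k).trans h1
  set χ : ℂ → ℝ := fun z => max 0 (min 1 (R + 1 - ‖z‖)) with hχ
  have hχc : Continuous χ := by
    rw [hχ]
    exact continuous_const.max (continuous_const.min (continuous_const.sub continuous_norm))
  have hχ0 : ∀ z, 0 ≤ χ z := fun z => le_max_left _ _
  have hχ1 : ∀ z, χ z ≤ 1 := fun z => max_le zero_le_one (min_le_left _ _)
  have hχR : ∀ z, ‖z‖ ≤ R → χ z = 1 := by
    intro z hz
    rw [hχ]
    dsimp only
    rw [min_eq_left (by linarith), max_eq_right zero_le_one]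
  have hχR' : ∀ z, R + 1 < ‖z‖ → χ z = 0 := by
    intro z hz
    rw [hχ]
    dsimp only
    rw [max_eq_left]
    exact (min_le_right _ _).trans (by linarith)
  have hχs : HasCompactSupport χ := by
    refine HasCompactSupport.intro (isCompact_closedBall (0 : ℂ) (R + 1)) ?_
    intro z hz
    rw [mem_closedBall_zero_iff, not_le] at hz
    exact hχR' z hz
  set K : Set (Fin n → ℂ) := Set.pi Set.univ (fun _ => Metric.closedBall (0 : ℂ) (R + 1)) with hK
  have hKc : CompactSpace K :=
    isCompact_iff_compactSpace.1 (isCompact_univ_pi (fun _ => isCompact_closedBall _ _))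
  obtain ⟨⟨G, κ, _, a, g, hg1, hg2⟩, hG⟩ :=
    ContinuousMap.exists_mem_subalgebra_near_continuous_of_separatesPoints (sw_A K) (sw_sep K)
      (fun w : K => f w.1) (hf.comp continuous_subtype_val) ε hε
  have e := (Fintype.equivFin κ).symm
  refine ⟨Fintype.card κ, fun i => a (e i), fun i k z => χ z * g (e i) k z, ?_, ?_⟩
  · intro i k
    exact ⟨hχc.mul (hg1 _ _), hχs.mul_right⟩
  · intro w
    have h1 : ∑ i, a (e i) * ∏ k, (χ (w k) * g (e i) k (w k)) =
        (∏ k, χ (w k)) * ∑ i, a i * ∏ k, g i k (w k) := by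
      rw [Equiv.sum_comp e (fun i => a i * ∏ k, (χ (w k) * g i k (w k))), Finset.mul_sum]
      refine Finset.sum_congr rfl fun i _ => ?_
      rw [Finset.prod_mul_distrib]
      ring
    have h2 : f w = (∏ k, χ (w k)) * f w := by
      by_cases h : f w = 0
      · rw [h, mul_zero]
      · rw [Finset.prod_eq_one (fun k _ => hχR _ (hfR w h k)), one_mul]
    show |f w - ∑ i, a (e i) * ∏ k, (χ (w k) * g (e i) k (w k))| ≤ ε
    rw [h1, h2, ← mul_sub, abs_mul]
    by_cases hw : w ∈ K
    · have h3 := hG ⟨w, hw⟩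
      have h4 := hg2 ⟨w, hw⟩
      rw [Real.norm_eq_abs, abs_sub_comm] at h3
      have h5 : |f w - ∑ i, a i * ∏ k, g i k (w k)| ≤ ε := by
        have h6 : (G : K → ℝ) ⟨w, hw⟩ = ∑ i, a i * ∏ k, g i k (w k) := h4
        rw [← h6]
        exact h3.le
      have h7 : |∏ k, χ (w k)| ≤ 1 := by
        rw [Finset.abs_prod]
        apply Finset.prod_le_one
        · intro k _
          exact abs_nonneg _
        · intro k _
          rw [abs_of_nonneg (hχ0 _)]
          exact hχ1 _
      calc |∏ k, χ (w k)| * |f w - ∑ i, a i * ∏ k, g i k (w k)|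
          ≤ 1 * ε := mul_le_mul h7 h5 (abs_nonneg _) zero_le_one
        _ = ε := one_mul _
    · have h3 : ∃ k, R + 1 < ‖w k‖ := by
        by_contra h
        push Not at h
        apply hw
        intro k _
        rw [mem_closedBall_zero_iff]
        exact h k
      obtain ⟨k, hk⟩ := h3
      have h4 : ∏ k, χ (w k) = 0 := Finset.prod_eq_zero (Finset.mem_univ k) (hχR' _ hk)
      rw [h4, abs_zero, zero_mul]
      exact hε.le

end Pool.Agent.Y818.IC
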