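import Mathlib

/-!
# Special points of the powers of the modular curve: definitions

`Y(1) = SL₂(ℤ) \ ℍ` is identified with `ℂ` by the modular function `j`, so that `Y(1)ⁿ = ℂⁿ`; a
special point of `Y(1)ⁿ` is a vector of singular moduli.
-/

set_option autoImplicit false

open MeasureTheory UpperHalfPlane

namespace Pool.Agent.Y818.IC

/-- The automorphisms of the field `ℂ`. -/
abbrev AutC := ℂ ≃ₐ[ℚ] ℂ

/-- The modular function `j = E₄³ / Δ`. -/
noncomputable def j (τ : ℍ) : ℂ := ModularForm.E₄ τ ^ 3 / ModularForm.discriminant τ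

/-- `τ` is an imaginary quadratic point of discriminant `D`: a zero of a primitive quadratic
polynomial `a X² + b X + c` over `ℤ` of discriminant `b² - 4 a c = D`. -/
def IsCM (D : ℤ) (τ : ℍ) : Prop :=
  ∃ a b c : ℤ, 0 < a ∧ Int.gcd a (Int.gcd b c) = 1 ∧ b ^ 2 - 4 * a * c = D ∧
    (a : ℂ) * (τ : ℂ) ^ 2 + (b : ℂ) * (τ : ℂ) + (c : ℂ) = 0

/-- The singular moduli of discriminant `D` (the CM points of `Y(1)` of discriminant `D`). -/
def sing (D : ℤ) : Set ℂ := {z | ∃ τ : ℍ, IsCM D τ ∧ z = j τ}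

/-- The invariant measure `(3/π) dx dy / y²` of `Y(1)`, of total mass one, as a measure on `ℂ`:
the image under `j` of the measure on the fundamental domain. -/
noncomputable def mu : Measure ℂ :=
  Measure.map j (ENNReal.ofReal (3 / Real.pi) • (volume : Measure ℍ).restrict ModularGroup.fd)

/-- `σ` fixes the square roots of `D`, that is, `σ` is the identity on `ℚ(√D)`. -/
def FixesRoot (D : ℤ) (σ : AutC) : Prop := ∀ s : ℂ, s ^ 2 = (D : ℂ) → σ s = s

/-- The mean value of `f` over a (finite) set. -/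
noncomputable def avg {X : Type*} (S : Set X) (f : X → ℝ) : ℝ := (∑ᶠ x ∈ S, f x) / (S.ncard : ℝ)

/-- The orbit of the vector `v` under a group of automorphisms of `ℂ`. -/
def orb {n : ℕ} (U : Subgroup AutC) (v : Fin n → ℂ) : Set (Fin n → ℂ) :=
  {w | ∃ σ ∈ U, w = fun k => σ (v k)}

/-- The orbit of a number under a group of automorphisms of `ℂ`. -/
def orb1 (U : Subgroup AutC) (z : ℂ) : Set ℂ := {w | ∃ σ ∈ U, w = σ z}

/-- The main theorem of complex multiplication: `sing D` is finite and stable under all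
automorphisms of `ℂ`, those over `ℚ(√D)` permute it transitively and commute on it, and
the others invert them. -/
def CMTheory : Prop :=
  ∀ D : ℤ, D < 0 → (sing D).Finite ∧
    (∀ σ : AutC, ∀ z ∈ sing D, σ z ∈ sing D) ∧
    (∀ z ∈ sing D, ∀ w ∈ sing D, ∃ σ : AutC, FixesRoot D σ ∧ σ z = w) ∧
    (∀ σ τ : AutC, FixesRoot D σ → FixesRoot D τ → ∀ z ∈ sing D, σ (τ z) = τ (σ z)) ∧
    (∀ σ τ : AutC, FixesRoot D σ → ¬ FixesRoot D τ → ∀ z ∈ sing D, σ (τ (σ z)) = τ z)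

/-- Genus theory: the class group of discriminant `D` has at most `C |D|^ε` elements of order
at most two. -/
def GenusTheory : Prop :=
  ∀ ε : ℝ, 0 < ε → ∃ C : ℝ, ∀ D : ℤ, D < 0 → ∀ z ∈ sing D,
    (({w | ∃ σ : AutC, FixesRoot D σ ∧ σ z = w ∧ σ w = z} : Set ℂ).ncard : ℝ) ≤
      C * |(D : ℝ)| ^ ε

/-- Class number bound (number of reduced forms). -/
def ClassNumberBound : Prop := ∀ D : ℤ, D < 0 → ((sing D).ncard : ℝ) ≤ |(D : ℝ)|

/-- Duke's theorem for subgroups of small index: the orbits in `sing D` of the groups of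
automorphisms over `ℚ(√D)` whose size is at least `|D|^(-η)` times that of `sing D` are
equidistributed as `D → -∞`. -/
def SmallIndexDuke (η : ℝ) : Prop :=
  ∀ f : ℂ → ℝ, Continuous f → HasCompactSupport f → ∀ ε : ℝ, 0 < ε → ∃ B : ℝ,
    ∀ D : ℤ, D < 0 → B ≤ |(D : ℝ)| → ∀ Δ : Subgroup AutC, (∀ σ ∈ Δ, FixesRoot D σ) →
      ∀ z ∈ sing D, ((sing D).ncard : ℝ) ≤ |(D : ℝ)| ^ η * ((orb1 Δ z).ncard : ℝ) →
        |avg (orb1 Δ z) f - ∫ x, f x ∂mu| ≤ ε

/-- Negative discriminants of quadratic orders. -/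
def IsDisc (d : ℤ) : Prop := d < 0 ∧ (d % 4 = 0 ∨ d % 4 = 1)

/-- Ring class fields: the automorphisms over `ℚ(√d)` which fix all singular moduli of
discriminants `d c'²`, `c' ∈ cs`, have on `sing (d c²)` orbits of size at least
`h(d c²) / h(d g²)`, where `g = gcd(c, lcm cs)`. -/
def RingClassFields : Prop :=
  ∀ d : ℤ, IsDisc d → ∀ c : ℕ, 0 < c → ∀ cs : Finset ℕ, (∀ c' ∈ cs, 0 < c') →
    ∀ Δ : Subgroup AutC,
      (∀ σ : AutC, σ ∈ Δ ↔ (FixesRoot d σ ∧ ∀ c' ∈ cs, ∀ z ∈ sing (d * (c' : ℤ) ^ 2), σ z = z)) →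
      ∀ z ∈ sing (d * (c : ℤ) ^ 2),
        (sing (d * (c : ℤ) ^ 2)).ncard ≤
          (sing (d * ((Nat.gcd c (cs.lcm id) : ℕ) : ℤ) ^ 2)).ncard * (orb1 Δ z).ncard

/-- The coordinate `k` is `η`-isolated from the coordinates in `S`: either its CM field
`ℚ(√(D k))` is different from theirs, or `D k = d (c k)²`, `D l = d (c l)²` for the coordinates
`l ∈ S` with the same CM field, and `|d| g² ≤ |D k|^η` for the greatest common divisor `g` of
`c k` and the least common multiple of these `c l`. -/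
def Isolated {n : ℕ} (η : ℝ) (D : Fin n → ℤ) (k : Fin n) (S : Finset (Fin n)) : Prop :=
  (∀ l ∈ S, ¬ IsSquare (D l * D k)) ∨
  ∃ (d : ℤ) (c : Fin n → ℕ) (T : Finset (Fin n)), IsDisc d ∧ T ⊆ S ∧
    (∀ l ∈ S, l ∉ T → ¬ IsSquare (D l * D k)) ∧
    0 < c k ∧ D k = d * (c k : ℤ) ^ 2 ∧ (∀ l ∈ T, 0 < c l ∧ D l = d * (c l : ℤ) ^ 2) ∧
    |(d : ℝ)| * ((Nat.gcd (c k) (T.lcm c) : ℕ) : ℝ) ^ 2 ≤ |(D k : ℝ)| ^ η

end Pool.Agent.Y818.IC
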