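import Pool.Agent.Y818.IC.Stm

/-!
# Special points: isolated coordinates (assembly)
-/

set_option autoImplicit false

open MeasureTheory UpperHalfPlane Filter

namespace Pool.Agent.Y818.IC

theorem peelj_normal (cm : CMTheory) {D : ℤ} (hD : D < 0) : (fixAll D).Normal := by
  constructor
  intro σ hσ τ
  rw [mem_fixAll] at hσ ⊢
  intro z hz
  have h1 : τ⁻¹ z ∈ sing D := (cm D hD).2.1 τ⁻¹ z hz
  have h2 := hσ _ h1
  change τ (σ (τ⁻¹ z)) = z
  rw [h2]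
  exact AlgEquiv.apply_symm_apply τ z

theorem peelj_orb_sub (cm : CMTheory) {D : ℤ} (hD : D < 0) (U : Subgroup AutC) {z : ℂ}
    (hz : z ∈ sing D) : orb1 U z ⊆ sing D := by
  rintro w ⟨σ, _, rfl⟩
  exact (cm D hD).2.1 σ z hz

theorem peelj_orb_mono {U V : Subgroup AutC} (h : U ≤ V) (z : ℂ) : orb1 U z ⊆ orb1 V z := by
  rintro w ⟨σ, hσ, rfl⟩
  exact ⟨σ, h hσ, rfl⟩

/-- The group `Δ` of the two cases. -/
theorem peelj_delta (cm : CMTheory) (cls : ClassNumberBound) (ring : RingClassFields)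
    (aut : S_AUT) {η : ℝ} (hη : 0 < η) {n : ℕ} (D : Fin n → ℤ) (hD : ∀ l, D l < 0) (k : Fin n)
    (A : Finset (Fin n)) (hiso : Isolated η D k A) (h1 : 1 ≤ |(D k : ℝ)|) :
    ∃ (T : Finset (Fin n)) (Δ : Subgroup AutC), T ⊆ A ∧
      (∀ l ∈ A, l ∉ T → ¬ IsSquare (D l * D k)) ∧ Δ.Normal ∧ Δ ≤ root (D k) ∧
      (∀ τ ∈ Δ, ∀ l ∈ T, ∀ w ∈ sing (D l), τ w = w) ∧
      ∀ z ∈ sing (D k), ((sing (D k)).ncard : ℝ) ≤ |(D k : ℝ)| ^ η * ((orb1 Δ z).ncard : ℝ) := by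
  rcases hiso with h | ⟨d, c, T, hd, hT, hns, hck, hDk, hcl, hg⟩
  · refine ⟨∅, root (D k), by simp, fun l hl _ => h l hl, (aut.2.1 (D k)).1, le_rfl, by simp, ?_⟩
    intro z hz
    have hsub : sing (D k) ⊆ orb1 (root (D k)) z := by
      intro w hw
      obtain ⟨σ, hσ, hw'⟩ := (cm (D k) (hD k)).2.2.1 z hz w hw
      exact ⟨σ, mem_root.2 hσ, hw'.symm⟩
    have hfin : (orb1 (root (D k)) z).Finite :=
      (cm (D k) (hD k)).1.subset (peelj_orb_sub cm (hD k) _ hz)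
    have h2 : ((sing (D k)).ncard : ℝ) ≤ ((orb1 (root (D k)) z).ncard : ℝ) := by
      exact_mod_cast Set.ncard_le_ncard hsub hfin
    have h3 : (1 : ℝ) ≤ |(D k : ℝ)| ^ η := Real.one_le_rpow h1 hη.le
    calc ((sing (D k)).ncard : ℝ) ≤ 1 * ((orb1 (root (D k)) z).ncard : ℝ) := by linarith
      _ ≤ _ := by gcongr
  · let Δ : Subgroup AutC := root d ⊓ ⨅ l ∈ T, fixAll (D l)
    have hmem : ∀ σ : AutC, σ ∈ Δ ↔
        (FixesRoot d σ ∧ ∀ c' ∈ T.image c, ∀ z ∈ sing (d * (c' : ℤ) ^ 2), σ z = z) := by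
      intro σ
      simp only [Δ, Subgroup.mem_inf, mem_root, Subgroup.mem_iInf, mem_fixAll, Finset.mem_image]
      constructor
      · rintro ⟨h1, h2⟩
        refine ⟨h1, ?_⟩
        rintro c' ⟨l, hl, rfl⟩ z hz
        refine h2 l hl z ?_
        rw [(hcl l hl).2]
        exact hz
      · rintro ⟨h1, h2⟩
        refine ⟨h1, ?_⟩
        intro l hl z hz
        refine h2 (c l) ⟨l, hl, rfl⟩ z ?_
        rw [← (hcl l hl).2]
        exact hz
    have hroot : root (D k) = root d := by rw [hDk]; exact aut.2.2.1 d (c k) hck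
    have hnorm : Δ.Normal := by
      haveI := (aut.2.1 d).1
      haveI : ∀ l : Fin n, (fixAll (D l)).Normal := fun l => peelj_normal cm (hD l)
      haveI : (⨅ l ∈ T, fixAll (D l)).Normal := by
        refine Subgroup.normal_iInf_normal ?_
        intro l
        refine Subgroup.normal_iInf_normal ?_
        intro _
        infer_instance
      exact inferInstanceAs ((root d ⊓ ⨅ l ∈ T, fixAll (D l)).Normal)
    refine ⟨T, Δ, hT, hns, hnorm, ?_, ?_, ?_⟩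
    · rw [hroot]; exact inf_le_left
    · intro τ hτ l hl w hw
      have h2 : τ ∈ ⨅ l ∈ T, fixAll (D l) := hτ.2
      simp only [Subgroup.mem_iInf, mem_fixAll] at h2
      exact h2 l hl w hw
    · intro z hz
      have hz' : z ∈ sing (d * (c k : ℤ) ^ 2) := by rw [← hDk]; exact hz
      have key := ring d hd (c k) hck (T.image c)
        (by
          intro c' hc'
          obtain ⟨l, hl, rfl⟩ := Finset.mem_image.1 hc'
          exact (hcl l hl).1) Δ hmem z hz'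
      have hlcm : (T.image c).lcm id = T.lcm c := by
        rw [Finset.lcm_image]; rfl
      rw [hlcm, ← hDk] at key
      set g : ℕ := Nat.gcd (c k) (T.lcm c) with hgdef
      have hgpos : 0 < g := Nat.gcd_pos_of_pos_left _ hck
      have hneg : d * (g : ℤ) ^ 2 < 0 := by
        have : (0 : ℤ) < (g : ℤ) ^ 2 := by positivity
        exact mul_neg_of_neg_of_pos hd.1 this
      have h4 := cls (d * (g : ℤ) ^ 2) hneg
      have h5 : |((d * (g : ℤ) ^ 2 : ℤ) : ℝ)| = |(d : ℝ)| * (g : ℝ) ^ 2 := by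
        push_cast
        rw [abs_mul, abs_of_nonneg (by positivity : (0 : ℝ) ≤ (g : ℝ) ^ 2)]
      rw [h5] at h4
      have h6 : ((sing (D k)).ncard : ℝ) ≤
          ((sing (d * (g : ℤ) ^ 2)).ncard : ℝ) * ((orb1 Δ z).ncard : ℝ) := by
        exact_mod_cast key
      calc ((sing (D k)).ncard : ℝ) ≤ _ := h6
        _ ≤ _ := by
          gcongr
          exact h4.trans hg

theorem peelj_num {η : ℝ} (hη : 0 < η) (n : ℕ) (C M : ℝ) (hC : 1 ≤ C) (hM : 1 ≤ M) :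
    ∃ B : ℝ, ∀ x : ℝ, B ≤ x → 1 ≤ x →
      x ^ (η / 4) * (M * (C * x ^ (η / (4 * (n + 1)))) ^ n) ≤ x ^ η := by
  refine ⟨(M * C ^ n) ^ (2 / η), fun x hx h1 => ?_⟩
  have hx0 : 0 < x := by linarith
  have hC0 : 0 < C := by linarith
  have hMC : 1 ≤ M * C ^ n := by
    have := one_le_pow₀ hC (n := n)
    nlinarith
  have h2 : M * C ^ n ≤ x ^ (η / 2) := by
    have h3 := Real.rpow_le_rpow (by positivity) hx (by positivity : 0 ≤ η / 2)
    rw [← Real.rpow_mul (by positivity)] at h3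
    have h4 : 2 / η * (η / 2) = 1 := by field_simp
    rwa [h4, Real.rpow_one] at h3
  have h5 : (x ^ (η / (4 * ((n : ℝ) + 1)))) ^ n ≤ x ^ (η / 4) := by
    rw [← Real.rpow_natCast, ← Real.rpow_mul hx0.le]
    refine Real.rpow_le_rpow_of_exponent_le h1 ?_
    rw [div_mul_eq_mul_div, div_le_div_iff₀ (by positivity) (by norm_num)]
    nlinarith
  have h6 : x ^ η = x ^ (η / 4) * (x ^ (η / 2) * x ^ (η / 4)) := by
    rw [← Real.rpow_add hx0, ← Real.rpow_add hx0]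
    congr 1
    ring
  rw [h6, mul_pow]
  have hp : 0 ≤ x ^ (η / 4) := by positivity
  refine mul_le_mul_of_nonneg_left ?_ hp
  calc M * (C ^ n * (x ^ (η / (4 * ((n : ℝ) + 1)))) ^ n)
      = (M * C ^ n) * (x ^ (η / (4 * ((n : ℝ) + 1)))) ^ n := by ring
    _ ≤ x ^ (η / 2) * x ^ (η / 4) := by
        refine mul_le_mul h2 h5 (by positivity) (by positivity)

theorem peelj : S_PEELJ := by
  intro cm genus cls ring aut size fib half η hη duke n F hF f hfc hfs ε hε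
  obtain ⟨B1, hB1⟩ := duke f hfc hfs ε hε
  set U : Subgroup AutC := F.fixingSubgroup with hUdef
  have hU : U.index ≠ 0 := aut.2.2.2 F hF
  have he : 0 < η / (4 * ((n : ℝ) + 1)) := by positivity
  obtain ⟨C0, hC0⟩ := genus (η / (4 * ((n : ℝ) + 1))) he
  set C : ℝ := max C0 1 with hCdef
  have hC1 : 1 ≤ C := le_max_right _ _
  set M : ℝ := (U.index.factorial : ℝ) * 2 ^ n with hMdef
  have hM1 : 1 ≤ M := by
    have h1 : (1 : ℝ) ≤ (U.index.factorial : ℝ) := by exact_mod_cast Nat.factorial_pos _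
    have h2 : (1 : ℝ) ≤ 2 ^ n := one_le_pow₀ (by norm_num)
    nlinarith
  obtain ⟨B2, hB2⟩ := peelj_num hη n C M hC1 hM1
  refine ⟨max 1 (max B1 B2), ?_⟩
  intro D v hv k A hkA hiso hBk φ hφ1 hφd
  have hD : ∀ l, D l < 0 := fun l => (hv l).1
  have hx1 : 1 ≤ |(D k : ℝ)| := le_trans (le_max_left _ _) hBk
  have hxB1 : B1 ≤ |(D k : ℝ)| := le_trans (le_trans (le_max_left _ _) (le_max_right _ _)) hBk
  have hxB2 : B2 ≤ |(D k : ℝ)| := le_trans (le_trans (le_max_right _ _) (le_max_right _ _)) hBk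
  obtain ⟨T, Δ, hTA, hns, hnorm, hroot, hfix, hsize⟩ :=
    peelj_delta cm cls ring aut (by positivity : 0 < η / 4) D hD k A hiso hx1
  refine fib n U v A k
    (fun l => (cm (D l) (hD l)).1.subset (peelj_orb_sub cm (hD l) _ (hv l).2)) f φ _ ε hφ1 hφd ?_
  intro σ hσ
  set S : Subgroup AutC := U ⊓ fixingSubgroup AutC {x | ∃ l ∈ A, x = σ (v l)} with hSdef
  have hσk : σ (v k) ∈ sing (D k) := (cm (D k) (hD k)).2.1 σ _ (hv k).2
  refine half S (root (D k)) (σ (v k))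
    ((cm (D k) (hD k)).1.subset (peelj_orb_sub cm (hD k) _ hσk)) f _ ε ?_
  intro ρ hρ
  set z : ℂ := ρ (σ (v k)) with hzdef
  have hz : z ∈ sing (D k) := (cm (D k) (hD k)).2.1 ρ _ hσk
  refine hB1 (D k) (hD k) hxB1 (S ⊓ root (D k)) (fun τ hτ => mem_root.1 hτ.2) z hz ?_
  -- the size of the orbit
  set Es : Finset ℤ := (A.filter (fun l => l ∉ T)).image D with hEs
  have hEcard : Es.card ≤ n := by
    calc Es.card ≤ (A.filter (fun l => l ∉ T)).card := Finset.card_image_le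
      _ ≤ (Finset.univ : Finset (Fin n)).card := Finset.card_le_univ _
      _ = n := by simp
  have hE : ∀ E ∈ Es, E < 0 ∧ ∃ τ : AutC, FixesRoot (D k) τ ∧ ¬ FixesRoot E τ := by
    intro E hE
    obtain ⟨l, hl, rfl⟩ := Finset.mem_image.1 hE
    rw [Finset.mem_filter] at hl
    exact ⟨hD l, aut.1 (D k) (D l) (hD k) (hD l) (hns l hl.1 hl.2)⟩
  have key := size cm (D k) (hD k) Es hE Δ U hnorm hroot hU z hz
  have hsub : orb1 (Δ ⊓ U ⊓ ⨅ E ∈ Es, fixAll E) z ⊆ orb1 (S ⊓ root (D k)) z := by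
    refine peelj_orb_mono ?_ z
    rintro τ ⟨⟨hτ1, hτ2⟩, hτ3⟩
    have hτ3' : τ ∈ ⨅ E ∈ Es, fixAll E := hτ3
    simp only [Subgroup.mem_iInf, mem_fixAll] at hτ3'
    refine ⟨⟨hτ2, ?_⟩, hroot hτ1⟩
    change τ ∈ fixingSubgroup AutC {x | ∃ l ∈ A, x = σ (v l)}
    rw [mem_fixingSubgroup_iff]
    rintro x ⟨l, hl, rfl⟩
    have hxl : σ (v l) ∈ sing (D l) := (cm (D l) (hD l)).2.1 σ _ (hv l).2
    change τ (σ (v l)) = σ (v l)
    by_cases hlT : l ∈ T
    · exact hfix τ hτ1 l hlT _ hxl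
    · exact hτ3' (D l) (Finset.mem_image.2 ⟨l, Finset.mem_filter.2 ⟨hl, hlT⟩, rfl⟩) _ hxl
  have hfin2 : (orb1 (S ⊓ root (D k)) z).Finite :=
    (cm (D k) (hD k)).1.subset (peelj_orb_sub cm (hD k) _ hz)
  have hcard : ((orb1 (Δ ⊓ U ⊓ ⨅ E ∈ Es, fixAll E) z).ncard : ℝ) ≤
      ((orb1 (S ⊓ root (D k)) z).ncard : ℝ) := by
    exact_mod_cast Set.ncard_le_ncard hsub hfin2
  have htors : ((tors (D k) z).ncard : ℝ) ≤ C * |(D k : ℝ)| ^ (η / (4 * ((n : ℝ) + 1))) := by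
    refine (hC0 (D k) (hD k) z hz).trans ?_
    have : C0 ≤ C := le_max_left _ _
    gcongr
  have ht1 : (1 : ℝ) ≤ C * |(D k : ℝ)| ^ (η / (4 * ((n : ℝ) + 1))) := by
    have := Real.one_le_rpow hx1 he.le
    nlinarith
  have key' : ((orb1 Δ z).ncard : ℝ) ≤
      M * (C * |(D k : ℝ)| ^ (η / (4 * ((n : ℝ) + 1)))) ^ n *
        ((orb1 (S ⊓ root (D k)) z).ncard : ℝ) := by
    have h1 : ((orb1 Δ z).ncard : ℝ) ≤ (U.index.factorial : ℝ) * 2 ^ Es.card *
        ((tors (D k) z).ncard : ℝ) ^ Es.card *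
        ((orb1 (Δ ⊓ U ⊓ ⨅ E ∈ Es, fixAll E) z).ncard : ℝ) := by
      exact_mod_cast key
    refine h1.trans ?_
    have h2 : (2 : ℝ) ^ Es.card ≤ 2 ^ n := pow_le_pow_right₀ (by norm_num) hEcard
    have h3 : ((tors (D k) z).ncard : ℝ) ^ Es.card ≤
        (C * |(D k : ℝ)| ^ (η / (4 * ((n : ℝ) + 1)))) ^ n := by
      calc ((tors (D k) z).ncard : ℝ) ^ Es.card
          ≤ (C * |(D k : ℝ)| ^ (η / (4 * ((n : ℝ) + 1)))) ^ Es.card := by gcongr
        _ ≤ _ := pow_le_pow_right₀ ht1 hEcard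
    rw [hMdef]
    gcongr
  have hfinal := hB2 |(D k : ℝ)| hxB2 hx1
  have h7 := hsize z hz
  calc ((sing (D k)).ncard : ℝ) ≤ |(D k : ℝ)| ^ (η / 4) * ((orb1 Δ z).ncard : ℝ) := h7
    _ ≤ |(D k : ℝ)| ^ (η / 4) * (M * (C * |(D k : ℝ)| ^ (η / (4 * ((n : ℝ) + 1)))) ^ n *
        ((orb1 (S ⊓ root (D k)) z).ncard : ℝ)) := by gcongr
    _ = (|(D k : ℝ)| ^ (η / 4) * (M * (C * |(D k : ℝ)| ^ (η / (4 * ((n : ℝ) + 1)))) ^ n)) *
        ((orb1 (S ⊓ root (D k)) z).ncard : ℝ) := by ring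
    _ ≤ _ := by gcongr

end Pool.Agent.Y818.IC
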