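import Pool.Agent.Y818.IC.Def

/-!
# Special points of the powers of the modular curve: statements
-/

set_option autoImplicit false

open MeasureTheory UpperHalfPlane Filter

namespace Pool.Agent.Y818.IC

/-- The automorphisms over `ℚ(√D)`. -/
noncomputable def root (D : ℤ) : Subgroup AutC := fixingSubgroup AutC {s : ℂ | s ^ 2 = (D : ℂ)}

/-- The automorphisms fixing all singular moduli of discriminant `D`. -/
noncomputable def fixAll (D : ℤ) : Subgroup AutC := fixingSubgroup AutC (sing D)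

theorem mem_root {D : ℤ} {σ : AutC} : σ ∈ root D ↔ FixesRoot D σ := by
  simp [root, mem_fixingSubgroup_iff, FixesRoot]

theorem mem_fixAll {D : ℤ} {σ : AutC} : σ ∈ fixAll D ↔ ∀ z ∈ sing D, σ z = z := by
  simp [fixAll, mem_fixingSubgroup_iff]

/-- The elements of order at most two, seen from `z`. -/
def tors (D : ℤ) (z : ℂ) : Set ℂ := {w | ∃ σ : AutC, FixesRoot D σ ∧ σ z = w ∧ σ w = z}

/-- AUT (field theory). -/
def S_AUT : Prop :=
  (∀ D E : ℤ, D < 0 → E < 0 → ¬ IsSquare (E * D) → ∃ τ : AutC, FixesRoot D τ ∧ ¬ FixesRoot E τ) ∧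
  (∀ D : ℤ, (root D).Normal ∧ (root D).index ≠ 0 ∧ (root D).index ≤ 2) ∧
  (∀ d : ℤ, ∀ c : ℕ, 0 < c → root (d * (c : ℤ) ^ 2) = root d) ∧
  (∀ F : IntermediateField ℚ ℂ, FiniteDimensional ℚ F → F.fixingSubgroup.index ≠ 0)

/-- STEP: the sign trick. -/
def S_STEP : Prop :=
  CMTheory → ∀ D E : ℤ, D < 0 → E < 0 →
    (∃ τ : AutC, FixesRoot D τ ∧ ¬ FixesRoot E τ) →
    ∀ B : Subgroup AutC, B.Normal → B ≤ root D → B ≤ root E →
    ∀ z ∈ sing D, (orb1 B z).ncard ≤ (tors D z).ncard * (orb1 (B ⊓ fixAll E) z).ncard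

/-- SIZE: several fields at once, and finite index. -/
def S_SIZE : Prop :=
  CMTheory → ∀ D : ℤ, D < 0 → ∀ Es : Finset ℤ,
    (∀ E ∈ Es, E < 0 ∧ ∃ τ : AutC, FixesRoot D τ ∧ ¬ FixesRoot E τ) →
    ∀ Δ A : Subgroup AutC, Δ.Normal → Δ ≤ root D → A.index ≠ 0 →
    ∀ z ∈ sing D,
      (orb1 Δ z).ncard ≤ A.index.factorial * 2 ^ Es.card * (tors D z).ncard ^ Es.card *
        (orb1 (Δ ⊓ A ⊓ ⨅ E ∈ Es, fixAll E) z).ncard

/-- FIB: mean values over orbits, computed in the fibres of the projection to the coordinates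
in `A`. -/
def S_FIB : Prop :=
  ∀ (n : ℕ) (U : Subgroup AutC) (v : Fin n → ℂ) (A : Finset (Fin n)) (k : Fin n),
    (∀ l, (orb1 U (v l)).Finite) → ∀ (f : ℂ → ℝ) (φ : (Fin n → ℂ) → ℝ) (I ε : ℝ),
    (∀ w, |φ w| ≤ 1) → (∀ w w', (∀ l ∈ A, w l = w' l) → φ w = φ w') →
    (∀ σ ∈ U, |avg (orb1 (U ⊓ fixingSubgroup AutC {x | ∃ l ∈ A, x = σ (v l)}) (σ (v k))) f - I|
      ≤ ε) →
    |avg (orb U v) (fun w => φ w * f (w k)) - avg (orb U v) φ * I| ≤ ε

/-- HALF: passage to a smaller group. -/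
def S_HALF : Prop :=
  ∀ (S N : Subgroup AutC) (z : ℂ), (orb1 S z).Finite →
    ∀ (f : ℂ → ℝ) (I ε : ℝ), (∀ σ ∈ S, |avg (orb1 (S ⊓ N) (σ z)) f - I| ≤ ε) →
    |avg (orb1 S z) f - I| ≤ ε

/-- PEEL: an isolated coordinate is asymptotically independent of the others. -/
def S_PEEL (η : ℝ) : Prop :=
  ∀ (n : ℕ) (F : IntermediateField ℚ ℂ), FiniteDimensional ℚ F →
    ∀ f : ℂ → ℝ, Continuous f → HasCompactSupport f → ∀ ε : ℝ, 0 < ε →
    ∃ B : ℝ, ∀ (D : Fin n → ℤ) (v : Fin n → ℂ), (∀ l, D l < 0 ∧ v l ∈ sing (D l)) →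
      ∀ (k : Fin n) (A : Finset (Fin n)), k ∉ A → Isolated η D k A → B ≤ |(D k : ℝ)| →
      ∀ φ : (Fin n → ℂ) → ℝ, (∀ w, |φ w| ≤ 1) →
        (∀ w w', (∀ l ∈ A, w l = w' l) → φ w = φ w') →
        |avg (orb F.fixingSubgroup v) (fun w => φ w * f (w k)) -
          avg (orb F.fixingSubgroup v) φ * ∫ x, f x ∂mu| ≤ ε

/-- The coordinates can be ordered such that each is isolated from the earlier ones. -/
def Ordered {n : ℕ} (η : ℝ) (D : Fin n → ℤ) : Prop :=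
  ∃ π : Equiv.Perm (Fin n), ∀ k : Fin n, Isolated η D (π k) ((Finset.Iio k).image π)

/-- PROD: product functions. -/
def S_PROD (η : ℝ) : Prop :=
  ∀ (n : ℕ) (F : IntermediateField ℚ ℂ), FiniteDimensional ℚ F →
    ∀ f : Fin n → ℂ → ℝ, (∀ k, Continuous (f k) ∧ HasCompactSupport (f k)) → ∀ ε : ℝ, 0 < ε →
    ∃ B : ℝ, ∀ (D : Fin n → ℤ) (v : Fin n → ℂ), (∀ l, D l < 0 ∧ v l ∈ sing (D l)) →
      Ordered η D → (∀ l, B ≤ |(D l : ℝ)|) →
        |avg (orb F.fixingSubgroup v) (fun w => ∏ k, f k (w k)) - ∏ k, ∫ x, f k x ∂mu| ≤ ε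

/-- PRODJ: from PEEL to PROD. -/
def S_PRODJ : Prop := CMTheory → ∀ η : ℝ, S_PEEL η → S_PROD η

/-- SW: approximation by sums of products. -/
def S_SW : Prop :=
  ∀ (n : ℕ) (f : (Fin n → ℂ) → ℝ), Continuous f → HasCompactSupport f → ∀ ε : ℝ, 0 < ε →
    ∃ (m : ℕ) (a : Fin m → ℝ) (g : Fin m → Fin n → ℂ → ℝ),
      (∀ i k, Continuous (g i k) ∧ HasCompactSupport (g i k)) ∧
      ∀ w, |f w - ∑ i, a i * ∏ k, g i k (w k)| ≤ ε

/-- MUF: `mu` is finite. -/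
def S_MUF : Prop := IsFiniteMeasure mu

/-- MU1: `mu` is a probability measure and `j` is measurable. -/
def S_MU1 : Prop := Measurable j ∧ mu Set.univ = 1

/-- ALLF: all continuous functions with compact support, uniformly in the point. -/
def S_ALLF (η : ℝ) : Prop :=
  ∀ (n : ℕ) (F : IntermediateField ℚ ℂ), FiniteDimensional ℚ F →
    ∀ f : (Fin n → ℂ) → ℝ, Continuous f → HasCompactSupport f → ∀ ε : ℝ, 0 < ε →
    ∃ B : ℝ, ∀ (D : Fin n → ℤ) (v : Fin n → ℂ), (∀ l, D l < 0 ∧ v l ∈ sing (D l)) →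
      Ordered η D → (∀ l, B ≤ |(D l : ℝ)|) →
        |avg (orb F.fixingSubgroup v) f - ∫ w, f w ∂(Measure.pi fun _ : Fin n => mu)| ≤ ε

/-- FUN: from product functions to all functions. -/
def S_FUN : Prop := CMTheory → S_SW → IsFiniteMeasure mu → ∀ η : ℝ, S_PROD η → S_ALLF η

/-- SEQ: from the uniform statement to sequences. -/
def S_SEQ : Prop :=
  CMTheory → ∀ η : ℝ, S_ALLF η →
  ∀ (n : ℕ) (F : IntermediateField ℚ ℂ), FiniteDimensional ℚ F →
    ∀ (v : ℕ → Fin n → ℂ) (D : ℕ → Fin n → ℤ), (∀ i l, D i l < 0 ∧ v i l ∈ sing (D i l)) →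
      (∀ (k : Fin n) (c : ℂ), {i | v i k = c}.Finite) → (∀ i, Ordered η (D i)) →
      ∀ f : (Fin n → ℂ) → ℝ, Continuous f → HasCompactSupport f →
        Tendsto (fun i => avg (orb F.fixingSubgroup (v i)) f) atTop
          (nhds (∫ w, f w ∂(Measure.pi fun _ : Fin n => mu)))

/-- PEELJ: the number theory is put together. -/
def S_PEELJ : Prop :=
  CMTheory → GenusTheory → ClassNumberBound → RingClassFields → S_AUT → S_SIZE → S_FIB → S_HALF →
    ∀ η : ℝ, 0 < η → SmallIndexDuke η → S_PEEL (η / 4)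

end Pool.Agent.Y818.IC
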